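import Pool.Agent.ANO.Cone.Lift

/-!
# ANO, Cone: boxes

A box at a regular point `z₀` is a chart `χ` of an open set of `ℍ`, defined on the square
`Sq ρ = {|Re| < ρ, |Im| < ρ}`, with `D (χ ζ) = D z₀ + ζ`.

* `exists_box`: `D` restricts to a homeomorphism of a neighbourhood of `z₀` onto an open set
  (`HasStrictDerivAt.toOpenPartialHomeomorph`, `D` has the strict derivative `D' z₀ ≠ 0` since it is
  analytic); `χ ζ` is the inverse image of `D z₀ + ζ` (as a point of `ℍ`, `UpperHalfPlane.ofComplex`).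
* `box_fixed`: `T χ(ζp) = χ(ζq)`, so `ζq = ε stretch L ζp + c₀` with `c₀ = ε stretch L (D z₀) + c - D z₀`. Let
  `aff ζ = ζq + ε stretch L (ζ - ζp)` and `R = {ζ | |Re (ζ - ζp)| < ρ / (2 L), |Im ζ| < ρ}`, a convex subset of
  `Sq ρ` containing `ζp`, and `aff` maps `R` into `Sq ρ`. The set of `ζ ∈ R` with `T (χ ζ) = χ (aff ζ)`
  contains `ζp`, is closed in `R` (continuity) and open in `R`: near such a point `T (χ ζ')` belongs to the
  open set `χ '' Sq ρ`, where `D` is injective, and `D (T (χ ζ')) = D (χ (aff ζ'))`. So it is `R`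
  (`IsPreconnected.subset_of_closure_inter_subset` or `isPreconnected_iff_subset_of_disjoint`). The affine
  map `aff` has the fixed point `ζ` with `Re (ζ - ζp) = Re (ζq - ζp) / (1 - ε L)`,
  `Im ζ = (Im ζq - ε L⁻¹ Im ζp) / (1 - ε L⁻¹)`; it belongs to `R` because `L > 8`:
  `|Re (ζ - ζp)| ≤ (ρ / 4) / (L - 1) < ρ / (2 L)`, `|Im ζ| ≤ (ρ / 8) (1 + 1/8) / (1 - 1/8) < ρ`.
* `box_free`: `γ` with `γ V ∩ V ≠ ∅` for a compact neighbourhood `V` of `z` are finitely many (`S.proper`).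
  If `γ` does not act trivially then `γ z ≠ z` (`S.free`), and a smaller neighbourhood `W` of `z` has
  `γ W ∩ W = ∅` (continuity, Hausdorff).
-/

set_option autoImplicit false

open Set Filter Topology
open scoped UpperHalfPlane

namespace Pool.Agent.ANO.Cone

/-- the open square -/
def Sq (ρ : ℝ) : Set ℂ := {ζ | |ζ.re| < ρ ∧ |ζ.im| < ρ}

/-- a box -/
structure IsBox (S : FlatSurface) (z₀ : ℍ) (ρ : ℝ) (χ : ℂ → ℍ) : Prop where
  pos : 0 < ρ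
  center : χ 0 = z₀
  cont : ContinuousOn χ (Sq ρ)
  dev : ∀ ζ ∈ Sq ρ, S.D (χ ζ) = S.D z₀ + ζ
  isOpen : ∀ ρ' ≤ ρ, IsOpen (χ '' Sq ρ')
  regular : ∀ ζ ∈ Sq ρ, deriv S.D (χ ζ : ℂ) ≠ 0

private theorem isOpen_Sq (ρ : ℝ) : IsOpen (Sq ρ) :=
  (isOpen_lt (Complex.continuous_re.abs) continuous_const).inter
    (isOpen_lt (Complex.continuous_im.abs) continuous_const)

private theorem preconn_rect (a b c d : ℝ) :
    IsPreconnected {ζ : ℂ | (a < ζ.re ∧ ζ.re < b) ∧ (c < ζ.im ∧ ζ.im < d)} :=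
  (((convex_halfSpace_re_gt a).inter (convex_halfSpace_re_lt b)).inter
    ((convex_halfSpace_im_gt c).inter (convex_halfSpace_im_lt d))).isPreconnected

private theorem isOpen_rect (a b c d : ℝ) :
    IsOpen {ζ : ℂ | (a < ζ.re ∧ ζ.re < b) ∧ (c < ζ.im ∧ ζ.im < d)} :=
  ((isOpen_lt continuous_const Complex.continuous_re).inter
    (isOpen_lt Complex.continuous_re continuous_const)).inter
    ((isOpen_lt continuous_const Complex.continuous_im).inter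
    (isOpen_lt Complex.continuous_im continuous_const))

theorem exists_box (S : FlatSurface) {z₀ : ℍ} (h : deriv S.D (z₀ : ℂ) ≠ 0) {V : Set ℍ}
    (hV : V ∈ 𝓝 z₀) : ∃ ρ χ, IsBox S z₀ ρ χ ∧ ∀ ζ ∈ Sq ρ, χ ζ ∈ V := by
  have hs : HasStrictDerivAt S.D (deriv S.D (z₀ : ℂ)) (z₀ : ℂ) :=
    (analyticAt_D S z₀).hasStrictDerivAt
  let e := (hs.hasStrictFDerivAt_equiv h).toOpenPartialHomeomorph S.D
  have hz : (z₀ : ℂ) ∈ e.source :=
    (hs.hasStrictFDerivAt_equiv h).mem_toOpenPartialHomeomorph_source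
  have hcoe : ∀ x, e x = S.D x := fun x => rfl
  have hU : {w : ℂ | 0 < w.im ∧ deriv S.D w ≠ 0 ∧ UpperHalfPlane.ofComplex w ∈ V} ∈
      𝓝 (z₀ : ℂ) := by
    have h1 : ∀ᶠ w in 𝓝 (z₀ : ℂ), 0 < w.im :=
      (isOpen_lt continuous_const Complex.continuous_im).mem_nhds z₀.im_pos
    have h2 : ∀ᶠ w in 𝓝 (z₀ : ℂ), deriv S.D w ≠ 0 :=
      (analyticAt_D S z₀).deriv.continuousAt.eventually_ne h
    have h3 : Tendsto (fun w : ℂ => UpperHalfPlane.ofComplex w) (𝓝 (z₀ : ℂ)) (𝓝 z₀) := by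
      have h4 : Tendsto (fun w : ℂ => UpperHalfPlane.ofComplex w) (𝓝 (z₀ : ℂ))
          (𝓝 (UpperHalfPlane.ofComplex (z₀ : ℂ))) := by
        rw [UpperHalfPlane.isEmbedding_coe.tendsto_nhds_iff, UpperHalfPlane.ofComplex_apply]
        refine tendsto_id.congr' ?_
        filter_upwards [h1] with w hw
        simp only [Function.comp, id]
        rw [UpperHalfPlane.ofComplex_apply_of_im_pos hw]
      rwa [UpperHalfPlane.ofComplex_apply] at h4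
    filter_upwards [h1, h2, h3 hV] with w hw1 hw2 hw3
    exact ⟨hw1, hw2, hw3⟩
  obtain ⟨U, hUs, hUo, hzU⟩ := mem_nhds_iff.1 hU
  have hopen : IsOpen (e '' (e.source ∩ U)) := e.isOpen_image_source_inter hUo
  have hmem : S.D z₀ ∈ e '' (e.source ∩ U) := ⟨z₀, ⟨hz, hzU⟩, rfl⟩
  obtain ⟨r, hr, hball⟩ := Metric.isOpen_iff.1 hopen _ hmem
  have hsq : ∀ ζ ∈ Sq (r / 2), e.symm (S.D z₀ + ζ) ∈ e.source ∩ U ∧
      S.D (e.symm (S.D z₀ + ζ)) = S.D z₀ + ζ := by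
    intro ζ hζ
    have h1 : S.D z₀ + ζ ∈ Metric.ball (S.D z₀) r := by
      rw [Metric.mem_ball, dist_eq_norm, add_sub_cancel_left]
      have h2 := Complex.norm_le_abs_re_add_abs_im ζ
      have h3 : |ζ.re| < r / 2 := hζ.1
      have h4 : |ζ.im| < r / 2 := hζ.2
      linarith
    obtain ⟨w, hw, hw2⟩ := hball h1
    have h2 : e.symm (S.D z₀ + ζ) = w := by
      rw [← hw2]
      exact e.left_inv hw.1
    rw [h2]
    exact ⟨hw, hw2⟩
  let χ : ℂ → ℍ := fun ζ => UpperHalfPlane.ofComplex (e.symm (S.D z₀ + ζ))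
  have hχ : ∀ ζ ∈ Sq (r / 2), ((χ ζ : ℍ) : ℂ) = e.symm (S.D z₀ + ζ) := by
    intro ζ hζ
    change ((UpperHalfPlane.ofComplex (e.symm (S.D z₀ + ζ)) : ℍ) : ℂ) = _
    rw [UpperHalfPlane.ofComplex_apply_of_im_pos (hUs (hsq ζ hζ).1.2).1]
  refine ⟨r / 2, χ, ⟨half_pos hr, ?_, ?_, ?_, ?_, ?_⟩, ?_⟩
  · change UpperHalfPlane.ofComplex (e.symm (S.D z₀ + 0)) = z₀
    rw [add_zero, ← hcoe, e.left_inv hz, UpperHalfPlane.ofComplex_apply]
  · rw [UpperHalfPlane.isEmbedding_coe.isInducing.continuousOn_iff]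
    have h1 : ContinuousOn (fun ζ => e.symm (S.D z₀ + ζ)) (Sq (r / 2)) := by
      refine e.continuousOn_symm.comp (by fun_prop) fun ζ hζ => ?_
      rw [← (hsq ζ hζ).2]
      exact e.map_source (hsq ζ hζ).1.1
    exact h1.congr hχ
  · intro ζ hζ
    rw [hχ ζ hζ]
    exact (hsq ζ hζ).2
  · intro ρ' hρ'
    have hsub : ∀ ζ ∈ Sq ρ', ζ ∈ Sq (r / 2) := fun ζ hζ =>
      ⟨lt_of_lt_of_le hζ.1 hρ', lt_of_lt_of_le hζ.2 hρ'⟩
    have h1 : χ '' Sq ρ' = (fun z : ℍ => (z : ℂ)) ⁻¹'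
        (e.source ∩ e ⁻¹' {w | w - S.D z₀ ∈ Sq ρ'}) := by
      ext x
      constructor
      · rintro ⟨ζ, hζ, rfl⟩
        have h2 := hsq ζ (hsub ζ hζ)
        change ((χ ζ : ℍ) : ℂ) ∈ e.source ∧ S.D (χ ζ : ℍ) - S.D z₀ ∈ Sq ρ'
        rw [hχ ζ (hsub ζ hζ), h2.2, add_sub_cancel_left]
        exact ⟨h2.1.1, hζ⟩
      · rintro ⟨hx1, hx2⟩
        refine ⟨S.D x - S.D z₀, hx2, ?_⟩
        change UpperHalfPlane.ofComplex (e.symm (S.D z₀ + (S.D x - S.D z₀))) = x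
        rw [add_sub_cancel, ← hcoe, e.left_inv hx1, UpperHalfPlane.ofComplex_apply]
    rw [h1]
    refine (e.isOpen_inter_preimage ?_).preimage UpperHalfPlane.continuous_coe
    exact (isOpen_Sq ρ').preimage (by fun_prop)
  · intro ζ hζ
    rw [hχ ζ hζ]
    exact (hUs (hsq ζ hζ).1.2).2.1
  · intro ζ hζ
    exact (hUs (hsq ζ hζ).1.2).2.2

theorem box_fixed {S : FlatSurface} {z₀ : ℍ} {ρ : ℝ} {χ : ℂ → ℍ} (hχ : IsBox S z₀ ρ χ)
    {T : ℍ → ℍ} (hT : Continuous T) {L : ℝ} (hL : 8 < L) {ε c : ℂ} (hε : ε = 1 ∨ ε = -1)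
    (haff : ∀ z : ℍ, S.D (T z) = ε * stretch L (S.D z) + c) {ζp ζq : ℂ} (hp : ζp ∈ Sq (ρ / 8))
    (hq : ζq ∈ Sq (ρ / 8)) (h : T (χ ζp) = χ ζq) : ∃ ζ ∈ Sq ρ, T (χ ζ) = χ ζ := by
  obtain ⟨s, hs, hs2⟩ : ∃ s : ℝ, (s = 1 ∨ s = -1) ∧ ε = s := by
    rcases hε with rfl | rfl
    · exact ⟨1, Or.inl rfl, by simp⟩
    · exact ⟨-1, Or.inr rfl, by simp⟩
  have hsabs : |s| = 1 := by
    rcases hs with rfl | rfl
    · exact abs_one
    · rw [abs_neg, abs_one]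
  have hre : ∀ w : ℂ, (ε * stretch L w).re = s * (L * w.re) := by
    intro w
    rw [hs2]
    simp [stretch]
  have him : ∀ w : ℂ, (ε * stretch L w).im = s * (L⁻¹ * w.im) := by
    intro w
    rw [hs2]
    simp [stretch]
  have hρ := hχ.pos
  have hL0 : 0 < L := by linarith
  have hLi : L⁻¹ ≤ 1 / 8 := by
    rw [one_div]
    exact inv_anti₀ (by norm_num) hL.le
  have hLi0 : 0 < L⁻¹ := inv_pos.2 hL0
  have hp1 : |ζp.re| < ρ / 8 := hp.1
  have hp2 : |ζp.im| < ρ / 8 := hp.2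
  have hq1 : |ζq.re| < ρ / 8 := hq.1
  have hq2 : |ζq.im| < ρ / 8 := hq.2
  have hsub8 : ∀ ζ ∈ Sq (ρ / 8), ζ ∈ Sq ρ := fun ζ hζ =>
    ⟨lt_of_lt_of_le hζ.1 (by linarith), lt_of_lt_of_le hζ.2 (by linarith)⟩
  let aff : ℂ → ℂ := fun ζ => ζq + ε * stretch L (ζ - ζp)
  have haffc : Continuous aff := by
    have h1 : Continuous fun w : ℂ => stretch L w := by
      have h2 : (fun w : ℂ => stretch L w) =
          fun w : ℂ => ((L * w.re : ℝ) : ℂ) + ((L⁻¹ * w.im : ℝ) : ℂ) * Complex.I := by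
        funext w
        apply Complex.ext <;> simp [stretch]
      rw [h2]
      fun_prop
    exact continuous_const.add (continuous_const.mul (h1.comp (continuous_id.sub continuous_const)))
  let R : Set ℂ := {ζ : ℂ | (ζp.re - ρ / (2 * L) < ζ.re ∧ ζ.re < ζp.re + ρ / (2 * L)) ∧
    (-ρ < ζ.im ∧ ζ.im < ρ)}
  have hRo : IsOpen R := isOpen_rect _ _ _ _
  have hsmall : ρ / (2 * L) ≤ ρ / 16 := by
    apply div_le_div_of_nonneg_left hρ.le (by norm_num)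
    linarith
  have hRx : ∀ ζ ∈ R, |ζ.re - ζp.re| < ρ / (2 * L) := by
    rintro ζ ⟨⟨h1, h2⟩, -⟩
    rw [abs_lt]
    constructor <;> linarith
  have hRy : ∀ ζ ∈ R, |ζ.im| < ρ := by
    rintro ζ ⟨-, h1, h2⟩
    exact abs_lt.2 ⟨h1, h2⟩
  have hR_sub : ∀ ζ ∈ R, ζ ∈ Sq ρ := by
    intro ζ hζ
    refine ⟨?_, hRy ζ hζ⟩
    have h1 := hRx ζ hζ
    have h2 : |ζ.re| ≤ |ζ.re - ζp.re| + |ζp.re| := by
      have := abs_add_le (ζ.re - ζp.re) ζp.re
      rwa [sub_add_cancel] at this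
    linarith
  have hR_aff : ∀ ζ ∈ R, aff ζ ∈ Sq ρ := by
    intro ζ hζ
    constructor
    · change |(ζq + ε * stretch L (ζ - ζp)).re| < ρ
      rw [Complex.add_re, hre, Complex.sub_re]
      have h1 := abs_add_le ζq.re (s * (L * (ζ.re - ζp.re)))
      have h2 : |s * (L * (ζ.re - ζp.re))| = L * |ζ.re - ζp.re| := by
        rw [abs_mul, abs_mul, hsabs, one_mul, abs_of_pos hL0]
      have h3 : L * |ζ.re - ζp.re| < ρ / 2 := by
        have h4 := hRx ζ hζ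
        rw [lt_div_iff₀ (by positivity)] at h4
        linarith
      linarith
    · change |(ζq + ε * stretch L (ζ - ζp)).im| < ρ
      rw [Complex.add_im, him, Complex.sub_im]
      have h1 := abs_add_le ζq.im (s * (L⁻¹ * (ζ.im - ζp.im)))
      have h2 : |s * (L⁻¹ * (ζ.im - ζp.im))| = L⁻¹ * |ζ.im - ζp.im| := by
        rw [abs_mul, abs_mul, hsabs, one_mul, abs_of_pos hLi0]
      have h3 : |ζ.im - ζp.im| ≤ |ζ.im| + |ζp.im| := abs_sub _ _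
      have h4 := hRy ζ hζ
      have h5 : L⁻¹ * |ζ.im - ζp.im| ≤ 1 / 8 * |ζ.im - ζp.im| :=
        mul_le_mul_of_nonneg_right hLi (abs_nonneg _)
      linarith
  have hDaff : ∀ ζ ∈ Sq ρ, S.D (T (χ ζ)) = S.D z₀ + aff ζ := by
    intro ζ hζ
    have h1 := haff (χ ζp)
    rw [h, hχ.dev ζq (hsub8 ζq hq), hχ.dev ζp (hsub8 ζp hp)] at h1
    rw [haff, hχ.dev ζ hζ]
    have h2 : S.D z₀ + ζ = (S.D z₀ + ζp) + (ζ - ζp) := by ring
    rw [h2, stretch_add]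
    change _ = S.D z₀ + (ζq + ε * stretch L (ζ - ζp))
    linear_combination -h1
  -- the set where `T ∘ χ = χ ∘ aff`
  let A : Set ℂ := {ζ | ζ ∈ R ∧ T (χ ζ) = χ (aff ζ)}
  have hpR : ζp ∈ R := by
    refine ⟨⟨?_, ?_⟩, ?_, ?_⟩
    · have : 0 < ρ / (2 * L) := by positivity
      linarith
    · have : 0 < ρ / (2 * L) := by positivity
      linarith
    · linarith [(abs_lt.1 hp2).1]
    · linarith [(abs_lt.1 hp2).2]
  have haffp : aff ζp = ζq := by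
    apply Complex.ext
    · change (ζq + ε * stretch L (ζp - ζp)).re = _
      rw [Complex.add_re, hre, Complex.sub_re, sub_self, mul_zero, mul_zero, add_zero]
    · change (ζq + ε * stretch L (ζp - ζp)).im = _
      rw [Complex.add_im, him, Complex.sub_im, sub_self, mul_zero, mul_zero, add_zero]
  have hpA : ζp ∈ A := ⟨hpR, by rw [haffp]; exact h⟩
  have hχat : ∀ ζ ∈ Sq ρ, ContinuousAt χ ζ := fun ζ hζ =>
    hχ.cont.continuousAt ((isOpen_Sq ρ).mem_nhds hζ)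
  have hc1 : ∀ ζ ∈ R, ContinuousAt (fun ζ => T (χ ζ)) ζ := fun ζ hζ =>
    hT.continuousAt.comp (hχat ζ (hR_sub ζ hζ))
  have hc2 : ∀ ζ ∈ R, ContinuousAt (fun ζ => χ (aff ζ)) ζ := fun ζ hζ =>
    ContinuousAt.comp (f := aff) (hχat (aff ζ) (hR_aff ζ hζ)) haffc.continuousAt
  have hAo : IsOpen A := by
    rw [isOpen_iff_mem_nhds]
    rintro ζ ⟨hζ, hζ2⟩
    have h1 : χ '' Sq ρ ∈ 𝓝 (T (χ ζ)) := by
      rw [hζ2]
      exact (hχ.isOpen ρ le_rfl).mem_nhds ⟨aff ζ, hR_aff ζ hζ, rfl⟩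
    filter_upwards [hRo.mem_nhds hζ, (hc1 ζ hζ) h1] with ζ' h2 h3
    refine ⟨h2, ?_⟩
    obtain ⟨ξ, hξ, hξ2⟩ := h3
    have h4 := hDaff ζ' (hR_sub ζ' h2)
    have hξ3 : χ ξ = T (χ ζ') := hξ2
    rw [← hξ3, hχ.dev ξ hξ] at h4
    rw [← hξ3, add_left_cancel h4]
  have hAR : R ⊆ A := by
    refine (preconn_rect _ _ _ _).subset_of_closure_inter_subset hAo ⟨ζp, hpR, hpA⟩ ?_
    rintro ζ ⟨hζ, hζR⟩
    refine ⟨hζR, ?_⟩
    refine tendsto_nhds_unique_of_frequently_eq (hc1 ζ hζR) (hc2 ζ hζR) ?_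
    exact (mem_closure_iff_frequently.1 hζ).mono fun x hx => hx.2
  -- the fixed point of `aff`
  have hd1 : L - 1 ≤ |1 - s * L| := by
    rcases hs with rfl | rfl
    · rw [one_mul, abs_sub_comm]
      exact le_abs_self _
    · have := le_abs_self (1 - -1 * L)
      linarith
  have hd2 : 7 / 8 ≤ |1 - s * L⁻¹| := by
    rcases hs with rfl | rfl
    · have := le_abs_self (1 - 1 * L⁻¹)
      linarith
    · have := le_abs_self (1 - -1 * L⁻¹)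
      linarith
  have hn1 : 1 - s * L ≠ 0 := by
    intro h1
    rw [h1, abs_zero] at hd1
    linarith
  have hn2 : 1 - s * L⁻¹ ≠ 0 := by
    intro h1
    rw [h1, abs_zero] at hd2
    linarith
  have hx := div_mul_cancel₀ (ζq.re - ζp.re) hn1
  have hy := div_mul_cancel₀ (ζq.im - s * L⁻¹ * ζp.im) hn2
  have hxb : |(ζq.re - ζp.re) / (1 - s * L)| < ρ / (2 * L) := by
    have h1 : |ζq.re - ζp.re| ≤ |ζq.re| + |ζp.re| := abs_sub _ _
    rw [abs_div, div_lt_div_iff₀ (by linarith) (by positivity)]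
    have h2 : |ζq.re - ζp.re| * (2 * L) ≤ ρ / 4 * (2 * L) :=
      mul_le_mul_of_nonneg_right (by linarith) (by positivity)
    have h3 : ρ * (L - 1) ≤ ρ * |1 - s * L| := mul_le_mul_of_nonneg_left hd1 hρ.le
    nlinarith
  have hyb : |(ζq.im - s * L⁻¹ * ζp.im) / (1 - s * L⁻¹)| < ρ := by
    have h1 : |ζq.im - s * L⁻¹ * ζp.im| ≤ |ζq.im| + |s * L⁻¹ * ζp.im| := abs_sub _ _
    have h2 : |s * L⁻¹ * ζp.im| = L⁻¹ * |ζp.im| := by
      rw [abs_mul, abs_mul, hsabs, one_mul, abs_of_pos hLi0]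
    have h3 : L⁻¹ * |ζp.im| ≤ 1 / 8 * |ζp.im| := mul_le_mul_of_nonneg_right hLi (abs_nonneg _)
    rw [abs_div, div_lt_iff₀ (by linarith)]
    have h4 : ρ * (7 / 8) ≤ ρ * |1 - s * L⁻¹| := mul_le_mul_of_nonneg_left hd2 hρ.le
    linarith
  obtain ⟨hxb1, hxb2⟩ := abs_lt.1 hxb
  obtain ⟨hyb1, hyb2⟩ := abs_lt.1 hyb
  let ζ : ℂ := ⟨ζp.re + (ζq.re - ζp.re) / (1 - s * L),
    (ζq.im - s * L⁻¹ * ζp.im) / (1 - s * L⁻¹)⟩
  have hζR : ζ ∈ R := by
    refine ⟨⟨?_, ?_⟩, hyb1, hyb2⟩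
    · change ζp.re - ρ / (2 * L) < ζp.re + (ζq.re - ζp.re) / (1 - s * L)
      linarith
    · change ζp.re + (ζq.re - ζp.re) / (1 - s * L) < ζp.re + ρ / (2 * L)
      linarith
  have hfix : aff ζ = ζ := by
    apply Complex.ext
    · change (ζq + ε * stretch L (ζ - ζp)).re = _
      rw [Complex.add_re, hre, Complex.sub_re]
      change ζq.re + s * (L * (ζp.re + (ζq.re - ζp.re) / (1 - s * L) - ζp.re)) =
        ζp.re + (ζq.re - ζp.re) / (1 - s * L)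
      linear_combination -hx
    · change (ζq + ε * stretch L (ζ - ζp)).im = _
      rw [Complex.add_im, him, Complex.sub_im]
      change ζq.im + s * (L⁻¹ * ((ζq.im - s * L⁻¹ * ζp.im) / (1 - s * L⁻¹) - ζp.im)) =
        (ζq.im - s * L⁻¹ * ζp.im) / (1 - s * L⁻¹)
      linear_combination -hy
  refine ⟨ζ, hR_sub ζ hζR, ?_⟩
  have h1 := (hAR hζR).2
  rwa [hfix] at h1

/-- small sets are disjoint from their translates -/
theorem box_free (S : FlatSurface) (z : ℍ) : ∃ V ∈ 𝓝 z, ∀ γ ∈ S.Γ,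
    (∃ w ∈ V, γ • w ∈ V) → ∀ w : ℍ, γ • w = w := by
  obtain ⟨K, hK, hKz⟩ := exists_compact_mem_nhds z
  have hfin := S.proper K hK
  have hW : ∀ γ : Matrix.SpecialLinearGroup (Fin 2) ℝ, ∃ W ∈ 𝓝 z, γ ∈ S.Γ →
      (∃ w ∈ W, γ • w ∈ W) → ∀ w : ℍ, γ • w = w := by
    intro γ
    by_cases hγ : γ • z = z
    · exact ⟨univ, univ_mem, fun hm _ => S.free γ hm z hγ⟩
    · obtain ⟨A, B, hA, hB, hzA, hzB, hAB⟩ := t2_separation hγ
      have hc : Continuous fun w : ℍ => γ • w := continuous_const_smul γ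
      refine ⟨B ∩ (fun w : ℍ => γ • w) ⁻¹' A,
        inter_mem (hB.mem_nhds hzB) (hc.continuousAt (hA.mem_nhds hzA)), fun _ hw => ?_⟩
      obtain ⟨w, hw1, hw2⟩ := hw
      exact absurd hw2.1 (disjoint_left.1 hAB hw1.2)
  choose W hWz hWp using hW
  refine ⟨K ∩ ⋂ γ ∈ {γ : Matrix.SpecialLinearGroup (Fin 2) ℝ | γ ∈ S.Γ ∧ ∃ z ∈ K, γ • z ∈ K}, W γ,
    inter_mem hKz ((Filter.biInter_mem hfin).2 fun γ _ => hWz γ), fun γ hγ hw => ?_⟩
  obtain ⟨w, hw1, hw2⟩ := hw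
  have hmem : γ ∈ {γ : Matrix.SpecialLinearGroup (Fin 2) ℝ | γ ∈ S.Γ ∧ ∃ z ∈ K, γ • z ∈ K} :=
    ⟨hγ, w, hw1.1, hw2.1⟩
  exact hWp γ hγ ⟨w, mem_iInter₂.1 hw1.2 γ hmem, mem_iInter₂.1 hw2.2 γ hmem⟩

end Pool.Agent.ANO.Cone
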