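import Pool.Agent.ANO.Defs

/-!
# ANO, Cone: adapted seminorms of a hyperbolic integer matrix

**Proof.** Let `T` be the linear map of `ℂ^k` given by `A` (`Matrix.toLin'`, entries cast to
  `ℂ`). It is
invertible since `A.det` is a unit in `ℤ`; let `T⁻¹` be the inverse. It has finitely many
  eigenvalues
`μ`, and `‖μ‖ ≠ 0, 1`. Choose `lam > 1` with `lam ‖μ‖ < 1` for all eigenvalues with `‖μ‖ < 1` and
`lam < ‖μ‖` for all eigenvalues with `‖μ‖ > 1`.

Let `Ws` be the set of all `v : ℂ^k` such that `lam ^ n * ‖T ^ n v‖` is bounded (`n : ℕ`), and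
  `Wu` the same
for `T⁻¹`. They are `ℂ`-subspaces and invariant under `T` and `T⁻¹` (commuting maps, every linear
  map is
bounded).
1. If `T v = μ v + u`, `u ∈ Ws`, `lam ‖μ‖ < 1`, then `v ∈ Ws`: `x n = lam ^ n ‖T ^ n v‖` satisfies
   `x (n + 1) ≤ lam ‖μ‖ x n + lam C`, so it is bounded by `max (x 0) (lam C / (1 - lam ‖μ‖))`.
  Hence the
   generalised eigenspace of `μ` lies in `Ws` if `‖μ‖ < 1` (induction on the exponent), and in
  `Wu` if
   `‖μ‖ > 1` (`T⁻¹ v = μ⁻¹ v - μ⁻¹ T⁻¹ u`). So `Ws ⊔ Wu = ⊤`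
  (`Module.End.iSup_maxGenEigenspace_eq_top`).
2. `Ws ⊓ Wu = ⊥`: otherwise this invariant subspace contains an eigenvector `v`, `T v = μ v`
   (`Module.End.exists_eigenvalue` for the restriction). `lam ^ n ‖μ‖ ^ n` is bounded, so `‖μ‖ <
  1`, and
   `lam ^ n ‖μ‖ ^ (- n)` is bounded, so `‖μ‖ > 1`.
3. Let `πs`, `πu` be the projections of `Ws ⊕ Wu`; they commute with `T` (invariance). For `v :
  ℝ^k` let
   `v'` be the vector with entries in `ℂ`, `‖v'‖ = ‖v‖`. Put `NS v = ⨆ n, lam ^ n * ‖T ^ n (πs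
  v')‖` and
   `NU v = ⨆ n, lam ^ n * ‖T⁻¹ ^ n (πu v')‖`. They are seminorms, `NS (A v) ≤ lam⁻¹ NS v`
   (`lam ^ n ‖T ^ (n+1) πs v'‖ = lam⁻¹ lam ^ (n+1) ‖..‖`), `NU (A v) ≥ lam NU v`
   (`lam ^ (n+1) ‖T⁻¹ ^ (n+1) T πu v'‖ = lam (lam ^ n ‖T⁻¹ ^ n πu v'‖)`).
   `lower`: `‖v'‖ ≤ ‖πs v'‖ + ‖πu v'‖`, the terms with `n = 0`. `upper`: let `C i` be a bound for
  the basis
   vector `e_i`; then `NS v ≤ ∑ |v i| C i`.
-/

set_option autoImplicit false

namespace Pool.Agent.ANO.Cone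

variable {k : ℕ}

/-- Seminorms adapted to the hyperbolic matrix `A`. -/
structure LinGeo (A : Matrix (Fin k) (Fin k) ℤ) where
  NU : (Fin k → ℝ) → ℝ
  NS : (Fin k → ℝ) → ℝ
  NU_nonneg : ∀ v, 0 ≤ NU v
  NS_nonneg : ∀ v, 0 ≤ NS v
  NU_neg : ∀ v, NU (-v) = NU v
  NS_neg : ∀ v, NS (-v) = NS v
  NU_add : ∀ v w, NU (v + w) ≤ NU v + NU w
  NS_add : ∀ v w, NS (v + w) ≤ NS v + NS w
  lam : ℝ
  one_lt : 1 < lam
  NU_A : ∀ v, lam * NU v ≤ NU ((A.map (Int.cast : ℤ → ℝ)).mulVec v)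
  NS_A : ∀ v, lam * NS ((A.map (Int.cast : ℤ → ℝ)).mulVec v) ≤ NS v
  upper : ∃ C : ℝ, ∀ v, NU v ≤ C * ‖v‖ ∧ NS v ≤ C * ‖v‖
  lower : ∀ v, ‖v‖ ≤ NU v + NS v

section Bdd

variable {V : Type} [NormedAddCommGroup V] [NormedSpace ℂ V]

/-- the vectors `v` for which `lam ^ n * ‖L ^ n v‖` is bounded -/
private def bsub (L : Module.End ℂ V) (lam : ℝ) (hl : 0 < lam) : Submodule ℂ V where
  carrier := {v | ∃ C : ℝ, ∀ n : ℕ, lam ^ n * ‖(L ^ n) v‖ ≤ C}
  zero_mem' := ⟨0, fun n => by rw [map_zero, norm_zero, mul_zero]⟩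
  add_mem' := by
    rintro a b ⟨C, hC⟩ ⟨D, hD⟩
    refine ⟨C + D, fun n => ?_⟩
    rw [map_add]
    calc lam ^ n * ‖(L ^ n) a + (L ^ n) b‖ ≤ lam ^ n * (‖(L ^ n) a‖ + ‖(L ^ n) b‖) :=
          mul_le_mul_of_nonneg_left (norm_add_le _ _) (pow_pos hl n).le
      _ = lam ^ n * ‖(L ^ n) a‖ + lam ^ n * ‖(L ^ n) b‖ := by ring
      _ ≤ C + D := add_le_add (hC n) (hD n)
  smul_mem' := by
    rintro c a ⟨C, hC⟩
    refine ⟨‖c‖ * C, fun n => ?_⟩
    rw [map_smul, norm_smul]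
    calc lam ^ n * (‖c‖ * ‖(L ^ n) a‖) = ‖c‖ * (lam ^ n * ‖(L ^ n) a‖) := by ring
      _ ≤ ‖c‖ * C := mul_le_mul_of_nonneg_left (hC n) (norm_nonneg c)

private theorem mem_bsub {L : Module.End ℂ V} {lam : ℝ} {hl : 0 < lam} {v : V} :
    v ∈ bsub L lam hl ↔ ∃ C : ℝ, ∀ n : ℕ, lam ^ n * ‖(L ^ n) v‖ ≤ C := Iff.rfl

/-- `L` maps the subspace to itself -/
private theorem bsub_map {L : Module.End ℂ V} {lam : ℝ} {hl : 0 < lam} {v : V}
    (h : v ∈ bsub L lam hl) : L v ∈ bsub L lam hl := by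
  obtain ⟨C, hC⟩ := h
  refine ⟨C / lam, fun n => ?_⟩
  rw [le_div_iff₀ hl]
  have h1 := hC (n + 1)
  rw [pow_succ L n, Module.End.mul_apply] at h1
  calc lam ^ n * ‖(L ^ n) (L v)‖ * lam = lam ^ (n + 1) * ‖(L ^ n) (L v)‖ := by ring
    _ ≤ C := h1

/-- the inverse of `L` maps the subspace to itself -/
private theorem bsub_inv {L K : Module.End ℂ V} (hLK : ∀ v, L (K v) = v) {lam : ℝ} {hl : 0 < lam}
    {v : V} (h : v ∈ bsub L lam hl) : K v ∈ bsub L lam hl := by
  obtain ⟨C, hC⟩ := h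
  refine ⟨max ‖K v‖ (lam * C), fun n => ?_⟩
  cases n with
  | zero =>
    rw [pow_zero, pow_zero, one_mul, Module.End.one_apply]
    exact le_max_left _ _
  | succ n =>
    rw [pow_succ L n, Module.End.mul_apply, hLK]
    refine le_trans ?_ (le_max_right _ _)
    calc lam ^ (n + 1) * ‖(L ^ n) v‖ = lam * (lam ^ n * ‖(L ^ n) v‖) := by ring
      _ ≤ lam * C := mul_le_mul_of_nonneg_left (hC n) hl.le

private theorem bsub_step {L : Module.End ℂ V} {lam : ℝ} {hl : 0 < lam} {v u : V} {μ : ℂ}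
    (hu : u ∈ bsub L lam hl) (h : L v = μ • v + u) (hμ : lam * ‖μ‖ < 1) :
    v ∈ bsub L lam hl := by
  obtain ⟨C, hC⟩ := hu
  refine ⟨max ‖v‖ (lam * C / (1 - lam * ‖μ‖)), fun n => ?_⟩
  have hq : 0 < 1 - lam * ‖μ‖ := by linarith
  induction n with
  | zero =>
    rw [pow_zero, pow_zero, one_mul, Module.End.one_apply]
    exact le_max_left _ _
  | succ n ih =>
    rw [pow_succ L n, Module.End.mul_apply, h, map_add, map_smul]
    have h1 : ‖μ • (L ^ n) v + (L ^ n) u‖ ≤ ‖μ‖ * ‖(L ^ n) v‖ + ‖(L ^ n) u‖ := by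
      rw [← norm_smul]
      exact norm_add_le _ _
    have h2 : lam * C ≤ (1 - lam * ‖μ‖) * max ‖v‖ (lam * C / (1 - lam * ‖μ‖)) := by
      have h3 := le_max_right ‖v‖ (lam * C / (1 - lam * ‖μ‖))
      rw [div_le_iff₀ hq] at h3
      linarith
    calc lam ^ (n + 1) * ‖μ • (L ^ n) v + (L ^ n) u‖
        ≤ lam ^ (n + 1) * (‖μ‖ * ‖(L ^ n) v‖ + ‖(L ^ n) u‖) :=
          mul_le_mul_of_nonneg_left h1 (pow_pos hl _).le
      _ = lam * ‖μ‖ * (lam ^ n * ‖(L ^ n) v‖) + lam * (lam ^ n * ‖(L ^ n) u‖) := by ring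
      _ ≤ lam * ‖μ‖ * max ‖v‖ (lam * C / (1 - lam * ‖μ‖)) + lam * C :=
          add_le_add (mul_le_mul_of_nonneg_left ih (mul_nonneg hl.le (norm_nonneg _)))
            (mul_le_mul_of_nonneg_left (hC n) hl.le)
      _ ≤ max ‖v‖ (lam * C / (1 - lam * ‖μ‖)) := by linarith

private theorem gen_le {L : Module.End ℂ V} {lam : ℝ} {hl : 0 < lam} {μ : ℂ}
    (hμ : lam * ‖μ‖ < 1) : L.maxGenEigenspace μ ≤ bsub L lam hl := by
  intro v hv
  rw [Module.End.mem_maxGenEigenspace] at hv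
  obtain ⟨j, hj⟩ := hv
  induction j generalizing v with
  | zero =>
    rw [pow_zero, Module.End.one_apply] at hj
    rw [hj]
    exact Submodule.zero_mem _
  | succ j ih =>
    rw [pow_succ, Module.End.mul_apply] at hj
    have h1 := ih hj
    refine bsub_step h1 (μ := μ) ?_ hμ
    rw [LinearMap.sub_apply, LinearMap.smul_apply, Module.End.one_apply]
    abel

private theorem gen_le' {L K : Module.End ℂ V} (hKL : ∀ v, K (L v) = v) {lam : ℝ} {hl : 0 < lam}
    {μ : ℂ} (hμ : lam < ‖μ‖) : L.maxGenEigenspace μ ≤ bsub K lam hl := by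
  have hμ0 : 0 < ‖μ‖ := hl.trans hμ
  have hμ1 : μ ≠ 0 := norm_pos_iff.1 hμ0
  intro v hv
  rw [Module.End.mem_maxGenEigenspace] at hv
  obtain ⟨j, hj⟩ := hv
  induction j generalizing v with
  | zero =>
    rw [pow_zero, Module.End.one_apply] at hj
    rw [hj]
    exact Submodule.zero_mem _
  | succ j ih =>
    rw [pow_succ, Module.End.mul_apply] at hj
    have h1 := ih hj
    have h2 : -(μ⁻¹ • K ((L - μ • (1 : Module.End ℂ V)) v)) ∈ bsub K lam hl :=
      Submodule.neg_mem _ (Submodule.smul_mem _ _ (bsub_map h1))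
    refine bsub_step h2 (μ := μ⁻¹) ?_ ?_
    · rw [LinearMap.sub_apply, LinearMap.smul_apply, Module.End.one_apply, map_sub, hKL, map_smul,
        smul_sub, smul_smul, inv_mul_cancel₀ hμ1, one_smul]
      abel
    · rw [norm_inv, ← div_eq_mul_inv, div_lt_one hμ0]
      exact hμ

private theorem le_one_of_bdd {q c C : ℝ} (hc : 0 < c) (h : ∀ n : ℕ, q ^ n * c ≤ C) : q ≤ 1 := by
  by_contra hq
  push Not at hq
  obtain ⟨n, hn⟩ := pow_unbounded_of_one_lt (C / c) hq
  have h1 := h n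
  rw [div_lt_iff₀ hc] at hn
  linarith

private theorem pow_eig {L : Module.End ℂ V} {μ : ℂ} {v : V} (h : L v = μ • v) (n : ℕ) :
    (L ^ n) v = μ ^ n • v := by
  induction n with
  | zero => rw [pow_zero, pow_zero, one_smul, Module.End.one_apply]
  | succ n ih => rw [pow_succ, Module.End.mul_apply, h, map_smul, ih, smul_smul, pow_succ']

private theorem eig_bdd {L : Module.End ℂ V} {lam : ℝ} {hl : 0 < lam} {μ : ℂ} {v : V}
    (hv : v ≠ 0) (h : L v = μ • v) (hm : v ∈ bsub L lam hl) : lam * ‖μ‖ ≤ 1 := by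
  obtain ⟨C, hC⟩ := hm
  refine le_one_of_bdd (norm_pos_iff.2 hv) (C := C) fun n => ?_
  have h1 := hC n
  rw [pow_eig h, norm_smul, norm_pow] at h1
  rw [mul_pow]
  linarith

private theorem inf_bot [FiniteDimensional ℂ V] {L K : Module.End ℂ V} (hKL : ∀ v, K (L v) = v)
    {lam : ℝ} (hl : 0 < lam) (h1 : 1 < lam) :
    bsub L lam hl ⊓ bsub K lam hl = ⊥ := by
  by_contra hne
  have hmap : ∀ x ∈ bsub L lam hl ⊓ bsub K lam hl, L x ∈ bsub L lam hl ⊓ bsub K lam hl :=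
    fun x hx => ⟨bsub_map hx.1, bsub_inv hKL hx.2⟩
  have hnt : Nontrivial (bsub L lam hl ⊓ bsub K lam hl : Submodule ℂ V) :=
    Submodule.nontrivial_iff_ne_bot.2 hne
  obtain ⟨μ, hμ⟩ := Module.End.exists_eigenvalue (L.restrict hmap)
  obtain ⟨v, hv⟩ := hμ.exists_hasEigenvector
  have hv0 : (v : V) ≠ 0 := fun h => hv.2 (Subtype.ext h)
  have hL : L (v : V) = μ • (v : V) := by
    have := congrArg Subtype.val hv.apply_eq_smul
    exact this
  have hμ0 : μ ≠ 0 := by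
    rintro rfl
    rw [zero_smul] at hL
    apply hv0
    rw [← hKL v, hL, map_zero]
  have hK : K (v : V) = μ⁻¹ • (v : V) := by
    have h2 := congrArg K hL
    rw [hKL, map_smul] at h2
    nth_rewrite 2 [h2]
    rw [smul_smul, inv_mul_cancel₀ hμ0, one_smul]
  have h3 := eig_bdd hv0 hL v.2.1
  have h4 := eig_bdd hv0 hK v.2.2
  have h5 : 0 < ‖μ‖ := norm_pos_iff.2 hμ0
  rw [norm_inv, ← div_eq_mul_inv, div_le_one h5] at h4
  nlinarith

/-- the seminorm `⨆ n, lam ^ n * ‖L ^ n v‖` -/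
private noncomputable def nrm (L : Module.End ℂ V) (lam : ℝ) (v : V) : ℝ :=
  ⨆ n : ℕ, lam ^ n * ‖(L ^ n) v‖

private theorem le_nrm {L : Module.End ℂ V} {lam : ℝ} {hl : 0 < lam} {v : V}
    (h : v ∈ bsub L lam hl) (n : ℕ) : lam ^ n * ‖(L ^ n) v‖ ≤ nrm L lam v := by
  obtain ⟨C, hC⟩ := h
  exact le_ciSup (f := fun n : ℕ => lam ^ n * ‖(L ^ n) v‖)
    ⟨C, by rintro _ ⟨n, rfl⟩; exact hC n⟩ n

private theorem norm_le_nrm {L : Module.End ℂ V} {lam : ℝ} {hl : 0 < lam} {v : V}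
    (h : v ∈ bsub L lam hl) : ‖v‖ ≤ nrm L lam v := by
  have := le_nrm h 0
  rwa [pow_zero, pow_zero, one_mul, Module.End.one_apply] at this

private theorem nrm_add {L : Module.End ℂ V} {lam : ℝ} {hl : 0 < lam} {v w : V}
    (h : v ∈ bsub L lam hl) (h' : w ∈ bsub L lam hl) :
    nrm L lam (v + w) ≤ nrm L lam v + nrm L lam w := by
  refine ciSup_le fun n => ?_
  rw [map_add]
  calc lam ^ n * ‖(L ^ n) v + (L ^ n) w‖ ≤ lam ^ n * (‖(L ^ n) v‖ + ‖(L ^ n) w‖) :=
        mul_le_mul_of_nonneg_left (norm_add_le _ _) (pow_pos hl n).le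
    _ = lam ^ n * ‖(L ^ n) v‖ + lam ^ n * ‖(L ^ n) w‖ := by ring
    _ ≤ _ := add_le_add (le_nrm h n) (le_nrm h' n)

private theorem nrm_smul {L : Module.End ℂ V} {lam : ℝ} {hl : 0 < lam} {v : V}
    (h : v ∈ bsub L lam hl) (c : ℂ) : nrm L lam (c • v) ≤ ‖c‖ * nrm L lam v := by
  refine ciSup_le fun n => ?_
  rw [map_smul, norm_smul]
  calc lam ^ n * (‖c‖ * ‖(L ^ n) v‖) = ‖c‖ * (lam ^ n * ‖(L ^ n) v‖) := by ring
    _ ≤ _ := mul_le_mul_of_nonneg_left (le_nrm h n) (norm_nonneg c)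

private theorem nrm_neg {L : Module.End ℂ V} {lam : ℝ} (v : V) :
    nrm L lam (-v) = nrm L lam v := by
  unfold nrm
  simp only [map_neg, norm_neg]

private theorem nrm_nonneg {L : Module.End ℂ V} {lam : ℝ} {hl : 0 < lam} {v : V}
    (h : v ∈ bsub L lam hl) : 0 ≤ nrm L lam v := (norm_nonneg v).trans (norm_le_nrm h)

private theorem nrm_map {L : Module.End ℂ V} {lam : ℝ} {hl : 0 < lam} {v : V}
    (h : v ∈ bsub L lam hl) : lam * nrm L lam (L v) ≤ nrm L lam v := by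
  have h1 : nrm L lam (L v) ≤ nrm L lam v / lam := by
    refine ciSup_le fun n => ?_
    rw [le_div_iff₀ hl]
    have h2 := le_nrm h (n + 1)
    rw [pow_succ L n, Module.End.mul_apply] at h2
    calc lam ^ n * ‖(L ^ n) (L v)‖ * lam = lam ^ (n + 1) * ‖(L ^ n) (L v)‖ := by ring
      _ ≤ _ := h2
  rw [le_div_iff₀ hl] at h1
  linarith

end Bdd

/-- a number `lam > 1` which separates the eigenvalues -/
private theorem exists_lam (S : Finset ℂ) (hS : ∀ μ ∈ S, ‖μ‖ ≠ 1) :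
    ∃ lam : ℝ, 1 < lam ∧ ∀ μ ∈ S, lam * ‖μ‖ < 1 ∨ lam < ‖μ‖ := by
  have h1 : ∀ᶠ lam : ℝ in nhdsWithin 1 (Set.Ioi 1), ∀ μ ∈ S, lam * ‖μ‖ < 1 ∨ lam < ‖μ‖ := by
    rw [Filter.eventually_all_finset]
    intro μ hμ
    rcases lt_or_gt_of_ne (hS μ hμ) with h | h
    · have h2 : Filter.Tendsto (fun lam : ℝ => lam * ‖μ‖) (nhds 1) (nhds (1 * ‖μ‖)) :=
        Filter.Tendsto.mul_const _ Filter.tendsto_id
      rw [one_mul] at h2
      have h3 := h2.eventually (Iio_mem_nhds h)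
      exact (h3.filter_mono nhdsWithin_le_nhds).mono fun _ hx => Or.inl hx
    · have h3 : ∀ᶠ lam : ℝ in nhds 1, lam < ‖μ‖ := Iio_mem_nhds h
      exact (h3.filter_mono nhdsWithin_le_nhds).mono fun _ hx => Or.inr hx
  obtain ⟨lam, h2, h3⟩ := (h1.and self_mem_nhdsWithin).exists
  exact ⟨lam, h3, h2⟩

/-- the vector with complex entries -/
private def cvec (v : Fin k → ℝ) : Fin k → ℂ := fun i => (v i : ℂ)

private theorem cvec_norm (v : Fin k → ℝ) : ‖cvec v‖ = ‖v‖ := by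
  have h : ∀ i, ‖cvec v i‖ = ‖v i‖ := fun i => Complex.norm_real _
  apply le_antisymm
  · rw [pi_norm_le_iff_of_nonneg (norm_nonneg v)]
    intro i
    rw [h]
    exact norm_le_pi_norm v i
  · rw [pi_norm_le_iff_of_nonneg (norm_nonneg _)]
    intro i
    rw [← h]
    exact norm_le_pi_norm (cvec v) i

private theorem cvec_add (v w : Fin k → ℝ) : cvec (v + w) = cvec v + cvec w := by
  funext i
  exact Complex.ofReal_add _ _

private theorem cvec_neg (v : Fin k → ℝ) : cvec (-v) = -cvec v := by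
  funext i
  exact Complex.ofReal_neg _

private theorem cvec_mul (A : Matrix (Fin k) (Fin k) ℤ) (v : Fin k → ℝ) :
    cvec ((A.map (Int.cast : ℤ → ℝ)).mulVec v) = (A.map (Int.cast : ℤ → ℂ)).mulVec (cvec v) := by
  funext i
  unfold cvec Matrix.mulVec dotProduct
  push_cast
  rfl

private theorem cvec_sum (v : Fin k → ℝ) :
    cvec v = ∑ i, (v i : ℂ) • (Pi.single i 1 : Fin k → ℂ) := by
  funext j
  rw [Finset.sum_apply, Finset.sum_eq_single j]
  · rw [Pi.smul_apply, Pi.single_eq_same, smul_eq_mul, mul_one]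
    rfl
  · intro i _ hij
    rw [Pi.smul_apply, Pi.single_eq_of_ne hij.symm, smul_zero]
  · intro h
    exact absurd (Finset.mem_univ j) h

private theorem bound_of (N : (Fin k → ℂ) → ℝ) (h0 : ∀ x, 0 ≤ N x)
    (hadd : ∀ x y, N (x + y) ≤ N x + N y) (hsmul : ∀ (c : ℂ) x, N (c • x) ≤ ‖c‖ * N x)
    (v : Fin k → ℝ) : N (cvec v) ≤ (∑ i, N (Pi.single i 1)) * ‖v‖ := by
  have hz : N 0 = 0 := by
    have := hsmul 0 0
    rw [zero_smul, norm_zero, zero_mul] at this
    exact le_antisymm this (h0 0)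
  rw [cvec_sum, Finset.sum_mul]
  refine (Finset.le_sum_of_subadditive N hz.le hadd _ _).trans ?_
  refine Finset.sum_le_sum fun i _ => ?_
  refine (hsmul _ _).trans ?_
  rw [Complex.norm_real, mul_comm]
  exact mul_le_mul_of_nonneg_left (norm_le_pi_norm v i) (h0 _)

/-- eigenvalues are roots of the characteristic polynomial -/
private theorem isRoot_of_eig (B : Matrix (Fin k) (Fin k) ℂ) {μ : ℂ}
    (h : Module.End.maxGenEigenspace (Matrix.toLin' B) μ ≠ ⊥) : B.charpoly.IsRoot μ := by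
  have h1 : Module.End.HasEigenvalue (Matrix.toLin' B) μ := by
    by_contra hn
    apply h
    rw [eq_bot_iff]
    intro v hv
    rw [Module.End.mem_maxGenEigenspace] at hv
    obtain ⟨j, hj⟩ := hv
    have h2 : Function.Injective (Matrix.toLin' B - μ • (1 : Module.End ℂ (Fin k → ℂ))) := by
      rw [← LinearMap.ker_eq_bot, ← Module.End.eigenspace_def]
      by_contra h3
      exact hn (Module.End.hasEigenvalue_iff.2 h3)
    rw [Submodule.mem_bot]
    have h3 : Function.Injective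
        ((Matrix.toLin' B - μ • (1 : Module.End ℂ (Fin k → ℂ))) ^ j) := by
      rw [Module.End.coe_pow]
      exact h2.iterate j
    exact h3 (by rw [hj, map_zero])
  obtain ⟨v, hv⟩ := h1.exists_hasEigenvector
  have h2 : B.mulVec v = μ • v := by
    have := hv.apply_eq_smul
    rwa [Matrix.toLin'_apply] at this
  rw [Polynomial.IsRoot, Matrix.eval_charpoly]
  refine Matrix.exists_mulVec_eq_zero_iff.1 ⟨v, hv.2, ?_⟩
  rw [Matrix.sub_mulVec, h2, Matrix.scalar_apply, Matrix.diagonal_const_mulVec, sub_self]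

theorem exists_linGeo (A : Matrix (Fin k) (Fin k) ℤ) (hA : IsHyperbolicMatrix A) :
    Nonempty (LinGeo A) := by
  obtain ⟨hdet, hroot⟩ := hA
  set B : Matrix (Fin k) (Fin k) ℂ := A.map (Int.cast : ℤ → ℂ) with hB
  set B' : Matrix (Fin k) (Fin k) ℂ := A⁻¹.map (Int.cast : ℤ → ℂ) with hB'
  have hB'B : B' * B = 1 := by
    have h1 : (Int.castRingHom ℂ).mapMatrix A⁻¹ * (Int.castRingHom ℂ).mapMatrix A = 1 := by
      rw [← map_mul, Matrix.nonsing_inv_mul A hdet, map_one]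
    exact h1
  set T : Module.End ℂ (Fin k → ℂ) := Matrix.toLin' B with hT
  set K : Module.End ℂ (Fin k → ℂ) := Matrix.toLin' B' with hK
  have hKT : ∀ v, K (T v) = v := by
    intro v
    rw [hT, hK, Matrix.toLin'_apply, Matrix.toLin'_apply, Matrix.mulVec_mulVec, hB'B,
      Matrix.one_mulVec]
  obtain ⟨lam, hlam, hsep⟩ := exists_lam B.charpoly.roots.toFinset (by
    intro μ hμ
    rw [Multiset.mem_toFinset] at hμ
    exact hroot μ (Polynomial.isRoot_of_mem_roots hμ))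
  have hl : 0 < lam := zero_lt_one.trans hlam
  have hsup : bsub T lam hl ⊔ bsub K lam hl = ⊤ := by
    rw [eq_top_iff, ← Module.End.iSup_maxGenEigenspace_eq_top T]
    refine iSup_le fun μ => ?_
    by_cases hμ : T.maxGenEigenspace μ = ⊥
    · rw [hμ]
      exact bot_le
    · have h1 : μ ∈ B.charpoly.roots.toFinset := by
        rw [Multiset.mem_toFinset, Polynomial.mem_roots (Matrix.charpoly_monic B).ne_zero]
        exact isRoot_of_eig B hμ
      rcases hsep μ h1 with h | h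
      · exact (gen_le h).trans le_sup_left
      · exact (gen_le' hKT h).trans le_sup_right
  have hc : IsCompl (bsub T lam hl) (bsub K lam hl) :=
    ⟨disjoint_iff.2 (inf_bot hKT hl hlam), codisjoint_iff.2 hsup⟩
  set P := (bsub T lam hl).projection (bsub K lam hl) hc with hP
  set Q := (bsub K lam hl).projection (bsub T lam hl) hc.symm with hQ
  have hPm : ∀ x, P x ∈ bsub T lam hl := fun x => Submodule.projection_apply_mem hc x
  have hQm : ∀ x, Q x ∈ bsub K lam hl := fun x => Submodule.projection_apply_mem hc.symm x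
  have hPQ : ∀ x, P x + Q x = x := fun x => Submodule.projection_add_projection_eq_self hc x
  have hP1 : ∀ x ∈ bsub T lam hl, P x = x := fun x hx =>
    Submodule.projection_apply_left hc ⟨x, hx⟩
  have hP0 : ∀ x ∈ bsub K lam hl, P x = 0 := fun x hx =>
    Submodule.projection_apply_right hc ⟨x, hx⟩
  have hQ1 : ∀ x ∈ bsub K lam hl, Q x = x := fun x hx =>
    Submodule.projection_apply_left hc.symm ⟨x, hx⟩
  have hQ0 : ∀ x ∈ bsub T lam hl, Q x = 0 := fun x hx =>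
    Submodule.projection_apply_right hc.symm ⟨x, hx⟩
  have hPT : ∀ x, P (T x) = T (P x) := by
    intro x
    nth_rewrite 1 [← hPQ x]
    rw [map_add, map_add, hP1 _ (bsub_map (hPm x)), hP0 _ (bsub_inv hKT (hQm x)), add_zero]
  have hQT : ∀ x, Q (T x) = T (Q x) := by
    intro x
    nth_rewrite 1 [← hPQ x]
    rw [map_add, map_add, hQ0 _ (bsub_map (hPm x)), hQ1 _ (bsub_inv hKT (hQm x)), zero_add]
  have hcv : ∀ v, cvec ((A.map (Int.cast : ℤ → ℝ)).mulVec v) = T (cvec v) := by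
    intro v
    rw [cvec_mul, hT, Matrix.toLin'_apply]
  refine ⟨{
    NU := fun v => nrm K lam (Q (cvec v))
    NS := fun v => nrm T lam (P (cvec v))
    NU_nonneg := fun v => nrm_nonneg (hQm _)
    NS_nonneg := fun v => nrm_nonneg (hPm _)
    NU_neg := fun v => by rw [cvec_neg, map_neg, nrm_neg]
    NS_neg := fun v => by rw [cvec_neg, map_neg, nrm_neg]
    NU_add := fun v w => by
      rw [cvec_add, map_add]
      exact nrm_add (hQm _) (hQm _)
    NS_add := fun v w => by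
      rw [cvec_add, map_add]
      exact nrm_add (hPm _) (hPm _)
    lam := lam
    one_lt := hlam
    NU_A := fun v => by
      rw [hcv, hQT]
      have h1 := nrm_map (bsub_inv hKT (hQm (cvec v)))
      rwa [hKT] at h1
    NS_A := fun v => by
      rw [hcv, hPT]
      exact nrm_map (hPm _)
    upper := ?_
    lower := fun v => ?_ }⟩
  · have h1 := bound_of (fun x => nrm K lam (Q x)) (fun x => nrm_nonneg (hQm _))
      (fun x y => by
        show nrm K lam (Q (x + y)) ≤ _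
        rw [map_add]
        exact nrm_add (hQm _) (hQm _))
      (fun c x => by
        show nrm K lam (Q (c • x)) ≤ _
        rw [map_smul]
        exact nrm_smul (hQm _) c)
    have h2 := bound_of (fun x => nrm T lam (P x)) (fun x => nrm_nonneg (hPm _))
      (fun x y => by
        show nrm T lam (P (x + y)) ≤ _
        rw [map_add]
        exact nrm_add (hPm _) (hPm _))
      (fun c x => by
        show nrm T lam (P (c • x)) ≤ _
        rw [map_smul]
        exact nrm_smul (hPm _) c)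
    have h3 : 0 ≤ ∑ i : Fin k, nrm K lam (Q (Pi.single i 1)) :=
      Finset.sum_nonneg fun i _ => nrm_nonneg (hQm _)
    have h4 : 0 ≤ ∑ i : Fin k, nrm T lam (P (Pi.single i 1)) :=
      Finset.sum_nonneg fun i _ => nrm_nonneg (hPm _)
    refine ⟨(∑ i : Fin k, nrm K lam (Q (Pi.single i 1))) +
      ∑ i : Fin k, nrm T lam (P (Pi.single i 1)), fun v => ⟨(h1 v).trans ?_, (h2 v).trans ?_⟩⟩
    · rw [add_mul]
      exact le_add_of_nonneg_right (mul_nonneg h4 (norm_nonneg v))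
    · rw [add_mul]
      exact le_add_of_nonneg_left (mul_nonneg h3 (norm_nonneg v))
  · rw [← cvec_norm]
    nth_rewrite 1 [← hPQ (cvec v)]
    rw [add_comm]
    exact (norm_add_le _ _).trans (add_le_add (norm_le_nrm (hQm _)) (norm_le_nrm (hPm _)))

end Pool.Agent.ANO.Cone
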