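import Pool.Agent.ANO.Defs

/-!
# ANO: what the module `Cone` needs from the module `Geo`

For every pseudo-Anosov surface: the pseudo-distances `du`, `ds` (infimum of the variation of
`Re D`, `Im D` over the paths).
-/

set_option autoImplicit false

open scoped UpperHalfPlane Topology
open Set

namespace Pool.Agent.ANO.Cone

/-- The pseudo-distances of a pseudo-Anosov surface. `pathX`, `pathY` follow from (A2) and (A6):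
the path `c` of minimal total variation from `z` to `z'` has `Vx(c) = du z z'`, and it stays in the
neighbourhood `B` of `s` if `z` and `z'` are near `s`. -/
structure SurfGeo (S : PASurface) where
  du : ℍ → ℍ → ℝ
  ds : ℍ → ℍ → ℝ
  du_nonneg : ∀ a b, 0 ≤ du a b
  ds_nonneg : ∀ a b, 0 ≤ ds a b
  du_symm : ∀ a b, du a b = du b a
  ds_symm : ∀ a b, ds a b = ds b a
  du_triangle : ∀ a b c, du a c ≤ du a b + du b c
  ds_triangle : ∀ a b c, ds a c ≤ ds a b + ds b c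
  du_inv : ∀ γ ∈ S.Γ, ∀ a b : ℍ, du (γ • a) (γ • b) = du a b
  ds_inv : ∀ γ ∈ S.Γ, ∀ a b : ℍ, ds (γ • a) (γ • b) = ds a b
  du_f : ∀ a b, du (S.f a) (S.f b) = S.l * du a b
  ds_f : ∀ a b, S.l * ds (S.f a) (S.f b) = ds a b
  upper : ∀ R : ℝ, ∃ C : ℝ, ∀ a b, dist a b ≤ R → du a b ≤ C ∧ ds a b ≤ C
  proper : ∀ R : ℝ, ∃ C : ℝ, ∀ a b, du a b ≤ R → ds a b ≤ R → dist a b ≤ C
  eq_of_zero : ∀ a b, du a b = 0 → ds a b = 0 → a = b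
  pathX : ∀ s : ℍ, ∀ B ∈ 𝓝 s, ∃ V ∈ 𝓝 s, ∀ z ∈ V, ∀ z' ∈ V, ∃ c : ℝ → ℍ,
    ContinuousOn c (Icc 0 1) ∧ c 0 = z ∧ c 1 = z' ∧ ∀ t ∈ Icc (0 : ℝ) 1,
      c t ∈ B ∧ |(S.D (c t)).re - (S.D z').re| ≤ du z z'
  pathY : ∀ s : ℍ, ∀ B ∈ 𝓝 s, ∃ V ∈ 𝓝 s, ∀ z ∈ V, ∀ z' ∈ V, ∃ c : ℝ → ℍ,
    ContinuousOn c (Icc 0 1) ∧ c 0 = z ∧ c 1 = z' ∧ ∀ t ∈ Icc (0 : ℝ) 1,
      c t ∈ B ∧ |(S.D (c t)).im - (S.D z').im| ≤ ds z z'

end Pool.Agent.ANO.Cone
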