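import Pool.Agent.ANO.Iface
import Pool.Agent.ANO.Cone.SurfGeo
import Pool.Agent.ANO.Cone.LinA

/-!
# ANO, Cone: the pseudo-distances of the product

`DU x y` is the sum of the `du` of the components in the factors `ℍ` and of `NU` of the difference of
the components in `ℝ^k`.
-/

set_option autoImplicit false

open Set Filter Topology
open scoped UpperHalfPlane

namespace Pool.Agent.ANO.Cone

variable {r k : ℕ}

/-- a common expansion factor -/
theorem exists_lam (S : Fin r → PASurface) {A : Matrix (Fin k) (Fin k) ℤ} (L : LinGeo A) :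
    ∃ lam : ℝ, 1 < lam ∧ lam ≤ L.lam ∧ ∀ i, lam ≤ (S i).l := by
  have h : ∀ T : Finset (Fin r), ∃ lam : ℝ, 1 < lam ∧ lam ≤ L.lam ∧ ∀ i ∈ T, lam ≤ (S i).l := by
    intro T
    induction T using Finset.induction_on with
    | empty => exact ⟨L.lam, L.one_lt, le_rfl, fun i hi => absurd hi (Finset.notMem_empty i)⟩
    | insert a T _ ih =>
      obtain ⟨lam, h1, h2, h3⟩ := ih
      refine ⟨min lam (S a).l, lt_min h1 (S a).one_lt, (min_le_left _ _).trans h2, ?_⟩
      intro i hi
      rcases Finset.mem_insert.1 hi with rfl | hi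
      · exact min_le_right _ _
      · exact (min_le_left _ _).trans (h3 i hi)
  obtain ⟨lam, h1, h2, h3⟩ := h Finset.univ
  exact ⟨lam, h1, h2, fun i => h3 i (Finset.mem_univ i)⟩

private theorem dist_fac (x y : X r k) (i : Fin r) : dist (x.1 i) (y.1 i) ≤ dist x y :=
  (dist_le_pi_dist x.1 y.1 i).trans (le_max_left _ _)

private theorem dist_lin (x y : X r k) : ‖x.2 - y.2‖ ≤ dist x y := by
  rw [← dist_eq_norm]
  exact le_max_right _ _

private theorem upper_aux (S : Fin r → PASurface) (G : ∀ i, SurfGeo (S i)) (R : ℝ) :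
    ∃ C : ℝ, ∀ x y : X r k, dist x y ≤ R →
      (∑ i, (G i).du (x.1 i) (y.1 i)) ≤ C ∧ (∑ i, (G i).ds (x.1 i) (y.1 i)) ≤ C := by
  choose C hC using fun i => (G i).upper R
  refine ⟨∑ i, C i, fun x y h => ⟨?_, ?_⟩⟩
  · exact Finset.sum_le_sum fun i _ => (hC i _ _ ((dist_fac x y i).trans h)).1
  · exact Finset.sum_le_sum fun i _ => (hC i _ _ ((dist_fac x y i).trans h)).2

/-- the pseudo-distances of the product -/
noncomputable def geomOf (S : Fin r → PASurface) (A : Matrix (Fin k) (Fin k) ℤ)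
    (G : ∀ i, SurfGeo (S i)) (L : LinGeo A) : Geom S A where
  DU x y := (∑ i, (G i).du (x.1 i) (y.1 i)) + L.NU (x.2 - y.2)
  DS x y := (∑ i, (G i).ds (x.1 i) (y.1 i)) + L.NS (x.2 - y.2)
  DU_nonneg x y := add_nonneg (Finset.sum_nonneg fun i _ => (G i).du_nonneg _ _) (L.NU_nonneg _)
  DS_nonneg x y := add_nonneg (Finset.sum_nonneg fun i _ => (G i).ds_nonneg _ _) (L.NS_nonneg _)
  DU_symm x y := by
    have h1 : y.2 - x.2 = -(x.2 - y.2) := (neg_sub _ _).symm
    rw [h1, L.NU_neg]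
    congr 1
    exact Finset.sum_congr rfl fun i _ => (G i).du_symm _ _
  DS_symm x y := by
    have h1 : y.2 - x.2 = -(x.2 - y.2) := (neg_sub _ _).symm
    rw [h1, L.NS_neg]
    congr 1
    exact Finset.sum_congr rfl fun i _ => (G i).ds_symm _ _
  DU_triangle x y z := by
    have h1 : x.2 - z.2 = (x.2 - y.2) + (y.2 - z.2) := (sub_add_sub_cancel _ _ _).symm
    have h2 := L.NU_add (x.2 - y.2) (y.2 - z.2)
    have h3 : (∑ i, (G i).du (x.1 i) (z.1 i)) ≤
        (∑ i, (G i).du (x.1 i) (y.1 i)) + ∑ i, (G i).du (y.1 i) (z.1 i) := by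
      rw [← Finset.sum_add_distrib]
      exact Finset.sum_le_sum fun i _ => (G i).du_triangle _ _ _
    rw [h1]
    linarith
  DS_triangle x y z := by
    have h1 : x.2 - z.2 = (x.2 - y.2) + (y.2 - z.2) := (sub_add_sub_cancel _ _ _).symm
    have h2 := L.NS_add (x.2 - y.2) (y.2 - z.2)
    have h3 : (∑ i, (G i).ds (x.1 i) (z.1 i)) ≤
        (∑ i, (G i).ds (x.1 i) (y.1 i)) + ∑ i, (G i).ds (y.1 i) (z.1 i) := by
      rw [← Finset.sum_add_distrib]
      exact Finset.sum_le_sum fun i _ => (G i).ds_triangle _ _ _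
    rw [h1]
    linarith
  DU_inv g hg x y := by
    obtain ⟨γ, v, hγ, hgv⟩ := hg
    rw [hgv, hgv]
    have h1 : (fun j => x.2 j + (v j : ℝ)) - (fun j => y.2 j + (v j : ℝ)) = x.2 - y.2 := by
      funext j
      simp
    show (∑ i, (G i).du (γ i • x.1 i) (γ i • y.1 i)) +
      L.NU ((fun j => x.2 j + (v j : ℝ)) - fun j => y.2 j + (v j : ℝ)) = _
    rw [h1]
    congr 1
    exact Finset.sum_congr rfl fun i _ => (G i).du_inv _ (hγ i) _ _
  DS_inv g hg x y := by
    obtain ⟨γ, v, hγ, hgv⟩ := hg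
    rw [hgv, hgv]
    have h1 : (fun j => x.2 j + (v j : ℝ)) - (fun j => y.2 j + (v j : ℝ)) = x.2 - y.2 := by
      funext j
      simp
    show (∑ i, (G i).ds (γ i • x.1 i) (γ i • y.1 i)) +
      L.NS ((fun j => x.2 j + (v j : ℝ)) - fun j => y.2 j + (v j : ℝ)) = _
    rw [h1]
    congr 1
    exact Finset.sum_congr rfl fun i _ => (G i).ds_inv _ (hγ i) _ _
  lam := (exists_lam S L).choose
  one_lt_lam := (exists_lam S L).choose_spec.1
  DU_expand x y := by
    obtain ⟨h1, h2, h3⟩ := (exists_lam S L).choose_spec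
    show (exists_lam S L).choose * _ ≤ (∑ i, (G i).du ((S i).f (x.1 i)) ((S i).f (y.1 i))) +
      L.NU ((A.map (Int.cast : ℤ → ℝ)).mulVec x.2 - (A.map (Int.cast : ℤ → ℝ)).mulVec y.2)
    rw [← Matrix.mulVec_sub, mul_add, Finset.mul_sum]
    refine add_le_add (Finset.sum_le_sum fun i _ => ?_) ?_
    · rw [(G i).du_f]
      exact mul_le_mul_of_nonneg_right (h3 i) ((G i).du_nonneg _ _)
    · exact (mul_le_mul_of_nonneg_right h2 (L.NU_nonneg _)).trans (L.NU_A _)
  DS_expand x y := by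
    obtain ⟨h1, h2, h3⟩ := (exists_lam S L).choose_spec
    show (exists_lam S L).choose * ((∑ i, (G i).ds ((S i).f (x.1 i)) ((S i).f (y.1 i))) +
      L.NS ((A.map (Int.cast : ℤ → ℝ)).mulVec x.2 - (A.map (Int.cast : ℤ → ℝ)).mulVec y.2)) ≤ _
    rw [← Matrix.mulVec_sub, mul_add, Finset.mul_sum]
    refine add_le_add (Finset.sum_le_sum fun i _ => ?_) ?_
    · rw [← (G i).ds_f (x.1 i) (y.1 i)]
      exact mul_le_mul_of_nonneg_right (h3 i) ((G i).ds_nonneg _ _)
    · exact (mul_le_mul_of_nonneg_right h2 (L.NS_nonneg _)).trans (L.NS_A _)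
  upper R := by
    obtain ⟨C, hC⟩ := upper_aux (k := k) S G R
    obtain ⟨C', hC'⟩ := L.upper
    refine ⟨C + |C'| * |R|, fun x y h => ?_⟩
    have h1 := hC x y h
    have h2 := hC' (x.2 - y.2)
    have h3 : C' * ‖x.2 - y.2‖ ≤ |C'| * |R| := by
      refine (mul_le_mul_of_nonneg_right (le_abs_self C') (norm_nonneg _)).trans ?_
      exact mul_le_mul_of_nonneg_left (((dist_lin x y).trans h).trans (le_abs_self R))
        (abs_nonneg _)
    exact ⟨add_le_add h1.1 (h2.1.trans h3), add_le_add h1.2 (h2.2.trans h3)⟩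
  proper R := by
    choose C hC using fun i => (G i).proper R
    refine ⟨(∑ i, |C i|) + 2 * |R|, fun x y h h' => ?_⟩
    have hU : ∀ i, (G i).du (x.1 i) (y.1 i) ≤ R := by
      intro i
      have h1 := Finset.single_le_sum (f := fun i => (G i).du (x.1 i) (y.1 i))
        (fun i _ => (G i).du_nonneg _ _) (Finset.mem_univ i)
      have h2 := L.NU_nonneg (x.2 - y.2)
      beta_reduce at h1
      linarith
    have hS : ∀ i, (G i).ds (x.1 i) (y.1 i) ≤ R := by
      intro i
      have h1 := Finset.single_le_sum (f := fun i => (G i).ds (x.1 i) (y.1 i))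
        (fun i _ => (G i).ds_nonneg _ _) (Finset.mem_univ i)
      have h2 := L.NS_nonneg (x.2 - y.2)
      beta_reduce at h1
      linarith
    have hl := L.lower (x.2 - y.2)
    have h3 : (0 : ℝ) ≤ ∑ i, (G i).du (x.1 i) (y.1 i) :=
      Finset.sum_nonneg fun i _ => (G i).du_nonneg _ _
    have h4 : (0 : ℝ) ≤ ∑ i, (G i).ds (x.1 i) (y.1 i) :=
      Finset.sum_nonneg fun i _ => (G i).ds_nonneg _ _
    have h5 := le_abs_self R
    have h6 : (0 : ℝ) ≤ ∑ i, |C i| := Finset.sum_nonneg fun i _ => abs_nonneg _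
    have h7 := abs_nonneg R
    refine max_le ?_ ?_
    · refine (dist_pi_le_iff (by positivity)).2 fun i => ?_
      have h8 := hC i _ _ (hU i) (hS i)
      have h9 := Finset.single_le_sum (f := fun i => |C i|) (fun i _ => abs_nonneg _)
        (Finset.mem_univ i)
      have h10 := le_abs_self (C i)
      beta_reduce at h9
      linarith
    · rw [dist_eq_norm]
      linarith
  eq_of_zero x y h h' := by
    have hU : ∀ i, (G i).du (x.1 i) (y.1 i) = 0 := by
      intro i
      have h1 := Finset.single_le_sum (f := fun i => (G i).du (x.1 i) (y.1 i))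
        (fun i _ => (G i).du_nonneg _ _) (Finset.mem_univ i)
      have h2 := L.NU_nonneg (x.2 - y.2)
      have h3 := (G i).du_nonneg (x.1 i) (y.1 i)
      beta_reduce at h1
      linarith
    have hS : ∀ i, (G i).ds (x.1 i) (y.1 i) = 0 := by
      intro i
      have h1 := Finset.single_le_sum (f := fun i => (G i).ds (x.1 i) (y.1 i))
        (fun i _ => (G i).ds_nonneg _ _) (Finset.mem_univ i)
      have h2 := L.NS_nonneg (x.2 - y.2)
      have h3 := (G i).ds_nonneg (x.1 i) (y.1 i)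
      beta_reduce at h1
      linarith
    have h3 : (0 : ℝ) ≤ ∑ i, (G i).du (x.1 i) (y.1 i) :=
      Finset.sum_nonneg fun i _ => (G i).du_nonneg _ _
    have h4 : (0 : ℝ) ≤ ∑ i, (G i).ds (x.1 i) (y.1 i) :=
      Finset.sum_nonneg fun i _ => (G i).ds_nonneg _ _
    refine Prod.ext (funext fun i => (G i).eq_of_zero _ _ (hU i) (hS i)) ?_
    have hl := L.lower (x.2 - y.2)
    have h5 : ‖x.2 - y.2‖ ≤ 0 := by linarith
    exact sub_eq_zero.1 (norm_le_zero_iff.1 h5)

theorem du_le (S : Fin r → PASurface) (A : Matrix (Fin k) (Fin k) ℤ)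
    (G : ∀ i, SurfGeo (S i)) (L : LinGeo A) (x y : X r k) (i : Fin r) :
    (G i).du (x.1 i) (y.1 i) ≤ (geomOf S A G L).DU x y := by
  have h1 := Finset.single_le_sum (f := fun i => (G i).du (x.1 i) (y.1 i))
    (fun i _ => (G i).du_nonneg _ _) (Finset.mem_univ i)
  have h2 := L.NU_nonneg (x.2 - y.2)
  show _ ≤ (∑ i, (G i).du (x.1 i) (y.1 i)) + L.NU (x.2 - y.2)
  beta_reduce at h1
  linarith

theorem ds_le (S : Fin r → PASurface) (A : Matrix (Fin k) (Fin k) ℤ)
    (G : ∀ i, SurfGeo (S i)) (L : LinGeo A) (x y : X r k) (i : Fin r) :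
    (G i).ds (x.1 i) (y.1 i) ≤ (geomOf S A G L).DS x y := by
  have h1 := Finset.single_le_sum (f := fun i => (G i).ds (x.1 i) (y.1 i))
    (fun i _ => (G i).ds_nonneg _ _) (Finset.mem_univ i)
  have h2 := L.NS_nonneg (x.2 - y.2)
  show _ ≤ (∑ i, (G i).ds (x.1 i) (y.1 i)) + L.NS (x.2 - y.2)
  beta_reduce at h1
  linarith

end Pool.Agent.ANO.Cone
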