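import Pool.Agent.ANO.Cone.Lift
import Pool.Agent.ANO.Iface

/-!
# ANO, Cone: the rotation at a cone point

Let `s` be a point with the chart `ψ`, `D = D s + ψ ^ κ` near `s`, and `T s = s`, `T` continuous,
`ψ (T z) ^ κ = stretch L (ψ z ^ κ)` near `s`. Put `qr κ L w = (stretch L w / w) ^ (1 / κ)`
(principal value).

* `re_stretch_div`: `stretch L w / w = (L x + i L⁻¹ y) (x - i y) / |w|²` has the real part
  `(L x² + L⁻¹ y²) / |w|² > 0`.
* `qr_pow`, `arg_qr`: so `log` of it has imaginary part in `(-π/2, π/2)`.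
* `qr_mul`: the logarithm of the product is the sum of the logarithms
  (`Complex.log_mul`, `stretch L (stretch L' w) = stretch (L L') w`).
* `exists_rot`: in a small ball around `s` the function `ψ` is not zero for `z ≠ s`. The
  function `u z = ψ (T z) / (qr κ L (ψ z ^ κ) * ψ z)` is continuous on the punctured ball and
  `u ^ κ = 1` there. The punctured ball is connected (image of `(0, ρ) × ℝ` under
  `(t, θ) ↦ s + t exp (i θ)`), the set of the `κ`-th roots of unity is finite (discrete), so `u`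
  is constant.
* `rot_comp`: apply the formula for `T` at `T' z`; `ψ (T' z) ^ κ = stretch L' (ψ z ^ κ)`.
* `coneFixed_of_rot`: `ω = qr κ L (ψ z ^ κ)`, and `ω = 1` if `ψ z = 0`.
-/

set_option autoImplicit false

open Set Filter Topology
open scoped UpperHalfPlane

namespace Pool.Agent.ANO.Cone

/-- the principal value of `(stretch L w / w) ^ (1 / κ)` -/
noncomputable def qr (κ : ℕ) (L : ℝ) (w : ℂ) : ℂ :=
  Complex.exp (Complex.log (stretch L w / w) / κ)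

theorem re_stretch_div {L : ℝ} (hL : 0 < L) {w : ℂ} (hw : w ≠ 0) : 0 < (stretch L w / w).re := by
  have hn : 0 < Complex.normSq w := Complex.normSq_pos.2 hw
  have h1 : (stretch L w / w).re = (L * w.re ^ 2 + L⁻¹ * w.im ^ 2) / Complex.normSq w := by
    rw [Complex.div_re, stretch]
    ring
  rw [h1]
  apply div_pos _ hn
  have hL' : 0 < L⁻¹ := inv_pos.2 hL
  rcases eq_or_ne w.re 0 with h | h
  · have h2 : w.im ≠ 0 := fun h2 => hw (Complex.ext h h2)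
    have h3 : 0 < w.im ^ 2 := by positivity
    rw [h]
    nlinarith [mul_pos hL' h3]
  · have h3 : 0 < w.re ^ 2 := by positivity
    have h4 : 0 ≤ w.im ^ 2 := sq_nonneg _
    nlinarith [mul_pos hL h3, mul_nonneg hL'.le h4]

private theorem div_ne {L : ℝ} (hL : 0 < L) {w : ℂ} (hw : w ≠ 0) : stretch L w / w ≠ 0 := by
  intro h
  have := re_stretch_div hL hw
  rw [h, Complex.zero_re] at this
  exact lt_irrefl _ this

private theorem stretch_ne {L : ℝ} (hL : 0 < L) {w : ℂ} (hw : w ≠ 0) : stretch L w ≠ 0 := by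
  intro h
  exact div_ne hL hw (by rw [h, zero_div])

private theorem stretch_zero (L : ℝ) : stretch L 0 = 0 := by
  apply Complex.ext <;> simp [stretch]

private theorem arg_div {L : ℝ} (hL : 0 < L) {w : ℂ} (hw : w ≠ 0) :
    |(stretch L w / w).arg| < Real.pi / 2 :=
  Complex.abs_arg_lt_pi_div_two_iff.2 (Or.inl (re_stretch_div hL hw))

private theorem qr_ne (κ : ℕ) (L : ℝ) (w : ℂ) : qr κ L w ≠ 0 := Complex.exp_ne_zero _

theorem qr_pow {κ : ℕ} (hκ : 0 < κ) {L : ℝ} (hL : 0 < L) {w : ℂ} (hw : w ≠ 0) :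
    qr κ L w ^ κ = stretch L w / w := by
  have hk : (κ : ℂ) ≠ 0 := by exact_mod_cast hκ.ne'
  rw [qr, ← Complex.exp_nat_mul, mul_div_cancel₀ _ hk, Complex.exp_log (div_ne hL hw)]

theorem arg_qr {κ : ℕ} (hκ : 0 < κ) {L : ℝ} (hL : 0 < L) {w : ℂ} (hw : w ≠ 0) :
    |(qr κ L w).arg| < Real.pi / (2 * κ) := by
  have hk : (1 : ℝ) ≤ κ := by exact_mod_cast hκ
  have hk0 : (0 : ℝ) < κ := by linarith
  have h1 : (Complex.log (stretch L w / w) / κ).im = (stretch L w / w).arg / κ := by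
    rw [← Complex.ofReal_natCast, Complex.div_ofReal_im, Complex.log_im]
  have h2 := arg_div hL hw
  have h3 : |(stretch L w / w).arg / κ| < Real.pi / (2 * κ) := by
    rw [abs_div, abs_of_pos hk0, ← div_div, div_lt_div_iff_of_pos_right hk0]
    exact h2
  have h4 : Real.pi / (2 * κ) ≤ Real.pi / 2 := by
    apply div_le_div_of_nonneg_left Real.pi_pos.le (by norm_num)
    linarith
  have hpi := Real.pi_pos
  have h5 := abs_lt.1 h3
  have h6 : (qr κ L w).arg = (stretch L w / w).arg / κ := by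
    rw [qr, ← Complex.log_im, Complex.log_exp, h1]
    · rw [h1]; linarith [h5.1]
    · rw [h1]; linarith [h5.2]
  rw [h6]
  exact h3

theorem qr_mul {κ : ℕ} (hκ : 0 < κ) {L L' : ℝ} (hL : 0 < L) (hL' : 0 < L') {w : ℂ} (hw : w ≠ 0) :
    qr κ L (stretch L' w) * qr κ L' w = qr κ (L * L') w := by
  have hw' := stretch_ne hL' hw
  have h1 := abs_lt.1 (arg_div hL hw')
  have h2 := abs_lt.1 (arg_div hL' hw)
  have h3 : stretch L (stretch L' w) / stretch L' w * (stretch L' w / w) =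
      stretch (L * L') w / w := by
    rw [stretch_stretch, div_mul_div_cancel₀ hw']
  have h4 := Complex.log_mul (div_ne hL hw') (div_ne hL' hw)
    ⟨by linarith [h1.1, h2.1], by linarith [h1.2, h2.2]⟩
  rw [h3] at h4
  rw [qr, qr, qr, ← Complex.exp_add, ← add_div, h4]

/-- `T` fixes `s` and is the rotation by `ξ` followed by a map which fixes the quadrants -/
structure Rot (s : ℍ) (κ : ℕ) (ψ : ℂ → ℂ) (L : ℝ) (ξ : ℂ) (T : ℍ → ℍ) : Prop where
  fix : T s = s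
  cont : Continuous T
  root : ξ ^ κ = 1
  map : ∀ᶠ z in 𝓝 s, z ≠ s → ψ (T z : ℂ) = ξ * (qr κ L (ψ (z : ℂ) ^ κ) * ψ (z : ℂ))
  pow : ∀ᶠ z in 𝓝 s, ψ (T z : ℂ) ^ κ = stretch L (ψ (z : ℂ) ^ κ)

private theorem exists_ball {s : ℍ} {p : ℍ → Prop} (hp : ∀ᶠ z in 𝓝 s, p z) :
    ∃ ρ > 0, Metric.ball (s : ℂ) ρ ⊆ Set.range ((↑) : ℍ → ℂ) ∧
      ∀ z : ℍ, (z : ℂ) ∈ Metric.ball (s : ℂ) ρ → p z := by
  have h1 : ((↑) : ℍ → ℂ) '' {z | p z} ∈ 𝓝 (s : ℂ) := by
    rw [← UpperHalfPlane.isOpenEmbedding_coe.map_nhds_eq s]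
    exact Filter.image_mem_map hp
  obtain ⟨ρ, hρ, hb⟩ := Metric.mem_nhds_iff.1 h1
  refine ⟨ρ, hρ, fun x hx => ?_, fun z hz => ?_⟩
  · obtain ⟨y, -, rfl⟩ := hb hx
    exact ⟨y, rfl⟩
  · obtain ⟨y, hy, hyz⟩ := hb hz
    have := UpperHalfPlane.isOpenEmbedding_coe.injective hyz
    rw [← this]
    exact hy

private theorem punct_preconnected (a : ℂ) (ρ : ℝ) :
    IsPreconnected (Metric.ball a ρ \ {a}) := by
  have h1 : IsPreconnected (Set.Ioo (0 : ℝ) ρ ×ˢ (Set.univ : Set ℝ)) :=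
    isPreconnected_Ioo.prod isPreconnected_univ
  have h2 : Metric.ball a ρ \ {a} = (fun q : ℝ × ℝ => a + q.1 * Complex.exp (q.2 * Complex.I)) ''
      (Set.Ioo (0 : ℝ) ρ ×ˢ (Set.univ : Set ℝ)) := by
    ext z
    constructor
    · rintro ⟨h, h'⟩
      refine ⟨(‖z - a‖, (z - a).arg), ⟨⟨norm_pos_iff.2 (sub_ne_zero.2 h'), ?_⟩, trivial⟩, ?_⟩
      · rwa [Metric.mem_ball, dist_eq_norm] at h
      · simp only [Complex.norm_mul_exp_arg_mul_I]
        ring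
    · rintro ⟨⟨t, θ⟩, ⟨⟨h, h'⟩, -⟩, rfl⟩
      have h3 : ‖(t : ℂ) * Complex.exp (θ * Complex.I)‖ = t := by
        rw [norm_mul, Complex.norm_exp_ofReal_mul_I, mul_one, Complex.norm_real,
          Real.norm_of_nonneg h.le]
      refine ⟨?_, fun he => ?_⟩
      · rw [Metric.mem_ball, dist_eq_norm, add_sub_cancel_left, h3]
        exact h'
      · have h4 : (t : ℂ) * Complex.exp (θ * Complex.I) = 0 := by
          have : a + (t : ℂ) * Complex.exp (θ * Complex.I) = a := he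
          simpa using this
        rw [h4, norm_zero] at h3
        exact h.ne h3
  rw [h2]
  exact h1.image _ (by fun_prop)

private theorem continuousAt_qr (κ : ℕ) {L : ℝ} (hL : 0 < L) {w : ℂ} (hw : w ≠ 0) :
    ContinuousAt (qr κ L) w := by
  have h1 : Continuous (stretch L) := by
    have : stretch L = fun z : ℂ => ((L * z.re : ℝ) : ℂ) + ((L⁻¹ * z.im : ℝ) : ℂ) * Complex.I := by
      funext z
      apply Complex.ext <;> simp [stretch]
    rw [this]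
    exact (Complex.continuous_ofReal.comp (continuous_const.mul Complex.continuous_re)).add
      ((Complex.continuous_ofReal.comp (continuous_const.mul Complex.continuous_im)).mul
        continuous_const)
  have h2 : ContinuousAt (fun w => stretch L w / w) w := h1.continuousAt.div continuousAt_id hw
  have h3 : ContinuousAt (fun w => Complex.log (stretch L w / w)) w :=
    ContinuousAt.comp (g := Complex.log) (f := fun w => stretch L w / w)
      (continuousAt_clog (Or.inl (re_stretch_div hL hw))) h2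
  have h4 : ContinuousAt (fun w => Complex.log (stretch L w / w) / κ) w := h3.div_const _
  exact ContinuousAt.comp (g := Complex.exp)
    (f := fun w => Complex.log (stretch L w / w) / κ) Complex.continuous_exp.continuousAt h4

private theorem coe_ev {s : ℍ} {p : ℂ → Prop} (h : ∀ᶠ z in 𝓝 (s : ℂ), p z) :
    ∀ᶠ z : ℍ in 𝓝 s, p (z : ℂ) :=
  (UpperHalfPlane.continuous_coe.tendsto s).eventually h

private theorem eventually_ne_zero {s : ℍ} {ψ : ℂ → ℂ} (hψ : AnalyticAt ℂ ψ (s : ℂ))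
    (h0 : ψ s = 0) (h1 : deriv ψ (s : ℂ) ≠ 0) : ∀ᶠ z : ℍ in 𝓝 s, z ≠ s → ψ (z : ℂ) ≠ 0 := by
  have h2 : ∀ᶠ z in 𝓝[≠] (s : ℂ), ψ z ≠ 0 :=
    hψ.differentiableAt.hasDerivAt.eventually_ne h1
  rw [eventually_nhdsWithin_iff] at h2
  have h3 := coe_ev h2
  filter_upwards [h3] with z hz hzs
  exact hz fun h => hzs (UpperHalfPlane.isOpenEmbedding_coe.injective h)

theorem exists_rot {s : ℍ} {κ : ℕ} (hκ : 0 < κ) {ψ : ℂ → ℂ} (hψ : AnalyticAt ℂ ψ (s : ℂ))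
    (h0 : ψ s = 0) (h1 : deriv ψ (s : ℂ) ≠ 0) {L : ℝ} (hL : 0 < L) {T : ℍ → ℍ} (hT : Continuous T)
    (hs : T s = s) (h : ∀ᶠ z in 𝓝 s, ψ (T z : ℂ) ^ κ = stretch L (ψ (z : ℂ) ^ κ)) :
    ∃ ξ, Rot s κ ψ L ξ T := by
  have hc : ∀ᶠ z : ℍ in 𝓝 s, ContinuousAt ψ (z : ℂ) :=
    coe_ev (hψ.eventually_analyticAt.mono fun z hz => hz.continuousAt)
  have hT' : Tendsto T (𝓝 s) (𝓝 s) := by
    have := hT.continuousAt (x := s)
    rwa [ContinuousAt, hs] at this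
  have hcT : ∀ᶠ z : ℍ in 𝓝 s, ContinuousAt ψ (T z : ℂ) := hT'.eventually hc
  have hne := eventually_ne_zero hψ h0 h1
  obtain ⟨ρ, hρ, hb, hp⟩ := exists_ball (hc.and (hcT.and (hne.and h)))
  set P : Set ℍ := ((↑) : ℍ → ℂ) ⁻¹' (Metric.ball (s : ℂ) ρ \ {(s : ℂ)}) with hP
  have hPc : IsPreconnected P := by
    rw [← UpperHalfPlane.isOpenEmbedding_coe.isInducing.isPreconnected_image, hP,
      Set.image_preimage_eq_of_subset (Set.sdiff_subset.trans hb)]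
    exact punct_preconnected _ _
  have hPs : ∀ z ∈ P, z ≠ s := by
    rintro z hz rfl
    exact hz.2 rfl
  set u : ℍ → ℂ := fun z => ψ (T z : ℂ) / (qr κ L (ψ (z : ℂ) ^ κ) * ψ (z : ℂ)) with hu
  have huc : ContinuousOn u P := by
    intro z hz
    obtain ⟨hz1, hz2, hz3, hz4⟩ := hp z hz.1
    have hz0 : ψ (z : ℂ) ≠ 0 := hz3 (hPs z hz)
    have c1 : ContinuousAt (fun z : ℍ => ψ (z : ℂ)) z :=
      ContinuousAt.comp (g := ψ) (f := fun z : ℍ => (z : ℂ)) hz1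
        UpperHalfPlane.continuous_coe.continuousAt
    have c2 : ContinuousAt (fun z : ℍ => ψ (T z : ℂ)) z :=
      ContinuousAt.comp (g := ψ) (f := fun z : ℍ => (T z : ℂ)) hz2
        (UpperHalfPlane.continuous_coe.comp hT).continuousAt
    have c3 : ContinuousAt (fun z : ℍ => qr κ L (ψ (z : ℂ) ^ κ)) z :=
      ContinuousAt.comp (g := qr κ L) (f := fun z : ℍ => ψ (z : ℂ) ^ κ)
        (continuousAt_qr κ hL (pow_ne_zero _ hz0)) (c1.pow κ)
    exact (c2.div (c3.mul c1) (mul_ne_zero (qr_ne _ _ _) hz0)).continuousWithinAt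
  have hur : ∀ z ∈ P, u z ^ κ = 1 := by
    intro z hz
    obtain ⟨hz1, hz2, hz3, hz4⟩ := hp z hz.1
    have hz0 : ψ (z : ℂ) ≠ 0 := hz3 (hPs z hz)
    have hw : ψ (z : ℂ) ^ κ ≠ 0 := pow_ne_zero _ hz0
    rw [hu]
    simp only
    rw [div_pow, mul_pow, qr_pow hκ hL hw, hz4, div_mul_cancel₀ _ hw,
      div_self (stretch_ne hL hw)]
  have hfin : Set.Finite {ξ : ℂ | ξ ^ κ = 1} := by
    have : {ξ : ℂ | ξ ^ κ = 1} ⊆ ((Polynomial.nthRoots κ (1 : ℂ)).toFinset : Set ℂ) := by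
      intro ξ hξ
      simpa [Polynomial.mem_nthRoots hκ] using hξ
    exact (Finset.finite_toSet _).subset this
  obtain ⟨ξ, hξ, hξu⟩ := hPc.eqOn_const_of_mapsTo hfin.isDiscrete huc hur ⟨1, one_pow κ⟩
  refine ⟨ξ, hs, hT, hξ, ?_, h⟩
  have hmem : ∀ᶠ z : ℍ in 𝓝 s, (z : ℂ) ∈ Metric.ball (s : ℂ) ρ :=
    coe_ev (Metric.ball_mem_nhds _ hρ)
  filter_upwards [hmem] with z hz hzs
  have hzP : z ∈ P := ⟨hz, fun he => hzs (UpperHalfPlane.isOpenEmbedding_coe.injective he)⟩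
  obtain ⟨hz1, hz2, hz3, hz4⟩ := hp z hz
  have hz0 : ψ (z : ℂ) ≠ 0 := hz3 hzs
  have h5 : u z = ξ := hξu hzP
  rw [← h5, hu]
  simp only
  rw [div_mul_cancel₀]
  exact mul_ne_zero (qr_ne _ _ _) hz0

theorem rot_comp {s : ℍ} {κ : ℕ} (hκ : 0 < κ) {ψ : ℂ → ℂ} (hψ : AnalyticAt ℂ ψ (s : ℂ))
    (h0 : ψ s = 0) (h1 : deriv ψ (s : ℂ) ≠ 0) {L L' : ℝ} (hL : 0 < L) (hL' : 0 < L') {ξ ξ' : ℂ}
    {T T' : ℍ → ℍ} (h : Rot s κ ψ L ξ T) (h' : Rot s κ ψ L' ξ' T') :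
    Rot s κ ψ (L * L') (ξ * ξ') (T ∘ T') := by
  have hne := eventually_ne_zero hψ h0 h1
  have hT' : Tendsto T' (𝓝 s) (𝓝 s) := by
    have := h'.cont.continuousAt (x := s)
    rwa [ContinuousAt, h'.fix] at this
  refine ⟨by rw [Function.comp_apply, h'.fix, h.fix], h.cont.comp h'.cont, ?_, ?_, ?_⟩
  · rw [mul_pow, h.root, h'.root, mul_one]
  · filter_upwards [hT'.eventually h.map, h'.map, h'.pow, hne] with z hz1 hz2 hz3 hz4 hzs
    have hz0 : ψ (z : ℂ) ≠ 0 := hz4 hzs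
    have hw : ψ (z : ℂ) ^ κ ≠ 0 := pow_ne_zero _ hz0
    have hTz : T' z ≠ s := by
      intro he
      rw [he, h0, zero_pow hκ.ne'] at hz3
      exact stretch_ne hL' hw hz3.symm
    rw [Function.comp_apply, hz1 hTz, hz3, hz2 hzs, ← qr_mul hκ hL hL' hw]
    ring
  · filter_upwards [hT'.eventually h.pow, h'.pow] with z hz1 hz2
    rw [Function.comp_apply, hz1, hz2, stretch_stretch]

theorem rot_iterate {s : ℍ} {κ : ℕ} (hκ : 0 < κ) {ψ : ℂ → ℂ} (hψ : AnalyticAt ℂ ψ (s : ℂ))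
    (h0 : ψ s = 0) (h1 : deriv ψ (s : ℂ) ≠ 0) {L : ℝ} (hL : 0 < L) {ξ : ℂ}
    {T : ℍ → ℍ} (h : Rot s κ ψ L ξ T) {j : ℕ} (hj : 0 < j) :
    Rot s κ ψ (L ^ j) (ξ ^ j) T^[j] := by
  induction j, hj using Nat.le_induction with
  | base => simpa using h
  | succ j hj ih =>
    rw [pow_succ, pow_succ, Function.iterate_succ]
    exact rot_comp hκ hψ h0 h1 (pow_pos hL j) hL ih h

private theorem local_of_rot {s : ℍ} {κ : ℕ} (hκ : 0 < κ) {ψ : ℂ → ℂ}
    (hψ : AnalyticAt ℂ ψ (s : ℂ)) (h0 : ψ s = 0) (h1 : deriv ψ (s : ℂ) ≠ 0)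
    {L : ℝ} (hL : 1 < L) {T : ℍ → ℍ} (h : Rot s κ ψ L 1 T) :
    ∀ᶠ z in 𝓝 s, ∃ ω : ℂ, |ω.arg| < Real.pi / (2 * κ) ∧ ψ (T z : ℂ) = ω * ψ (z : ℂ) ∧
      (ω * ψ (z : ℂ)) ^ κ = stretch L (ψ (z : ℂ) ^ κ) := by
  have hL0 : 0 < L := by linarith
  have hk : (0 : ℝ) < κ := by exact_mod_cast hκ
  filter_upwards [h.map, h.pow, eventually_ne_zero hψ h0 h1] with z hz1 hz2 hz3
  rcases eq_or_ne z s with rfl | hzs
  · refine ⟨1, ?_, ?_, ?_⟩
    · rw [Complex.arg_one, abs_zero]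
      have := Real.pi_pos
      positivity
    · rw [h.fix, h0, mul_zero]
    · rw [h0, mul_zero, zero_pow hκ.ne', stretch_zero]
  · have hz0 : ψ (z : ℂ) ≠ 0 := hz3 hzs
    have hw : ψ (z : ℂ) ^ κ ≠ 0 := pow_ne_zero _ hz0
    refine ⟨qr κ L (ψ (z : ℂ) ^ κ), arg_qr hκ hL0 hw, ?_, ?_⟩
    · rw [hz1 hzs, one_mul]
    · rw [mul_pow, qr_pow hκ hL0 hw, div_mul_cancel₀ _ hw]

theorem coneFixed_of_rot {S : FlatSurface} {s : ℍ} {κ : ℕ} (hκ : 0 < κ) {ψ : ℂ → ℂ}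
    (hψ : AnalyticAt ℂ ψ (s : ℂ)) (h0 : ψ s = 0) (h1 : deriv ψ (s : ℂ) ≠ 0)
    (hD : ∀ᶠ z in 𝓝 (s : ℂ), S.D z = S.D s + ψ z ^ κ) {L : ℝ} (hL : 1 < L) {T : ℍ → ℍ}
    (h : Rot s κ ψ L 1 T) : ConeFixed S s κ T :=
  ⟨h.fix, h.cont, ψ, L, hL, hψ, h0, h1, hD, local_of_rot hκ hψ h0 h1 hL h⟩

/-- Some power of a lift which fixes the cone point `s` fixes all quadrants at `s`: the square
`T²` has `D (T² z) - D s = stretch (l ^ (2 n)) (D z - D s)`, `exists_rot` gives `ξ` with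
`ξ ^ κ = 1`, and all powers of `T^(2 κ)` have `ξ = 1`. -/
theorem exists_coneFixed {S : PASurface} {n : ℕ} (hn : 0 < n) {T : ℍ → ℍ} (hT : IsLift S n T)
    {s : ℍ} (hs : T s = s) {κ : ℕ} (hκ : 0 < κ) {ψ : ℂ → ℂ} (hψ : AnalyticAt ℂ ψ (s : ℂ))
    (h0 : ψ s = 0) (h1 : deriv ψ (s : ℂ) ≠ 0)
    (hD : ∀ᶠ z in 𝓝 (s : ℂ), S.D z = S.D s + ψ z ^ κ) {j : ℕ} (hj : 0 < j) :
    ConeFixed S.toFlatSurface s κ T^[2 * κ * j] ∧ ∃ L : ℝ, 1 < L ∧
      ∀ᶠ z in 𝓝 s, ∃ ω : ℂ, |ω.arg| < Real.pi / (2 * κ) ∧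
        ψ (T^[2 * κ * j] z : ℂ) = ω * ψ (z : ℂ) ∧
        (ω * ψ (z : ℂ)) ^ κ = stretch L (ψ (z : ℂ) ^ κ) := by
  have hl : 1 < S.l := S.one_lt
  have hl0 : 0 < S.l := by linarith
  have hln : 1 < S.l ^ n := one_lt_pow₀ hl hn.ne'
  set M : ℝ := S.l ^ n * S.l ^ n with hM
  have hM1 : 1 < M := by nlinarith
  have hM0 : 0 < M := by linarith
  obtain ⟨ε, c, hε, hDT⟩ := hT.affine
  have hε2 : ε * ε = 1 := by rcases hε with rfl | rfl <;> norm_num
  have hstep : ∀ z : ℍ, S.D (T z) - S.D s = ε * stretch (S.l ^ n) (S.D z - S.D s) := by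
    intro z
    have e1 := hDT z
    have e2 := hDT s
    rw [hs] at e2
    rw [stretch_sub, mul_sub]
    linear_combination e1 - e2
  have hstep2 : ∀ z : ℍ, S.D (T (T z)) - S.D s = stretch M (S.D z - S.D s) := by
    intro z
    rw [hstep, hstep, stretch_smul _ hε, stretch_stretch, ← mul_assoc, hε2, one_mul]
  have hTc : Continuous T := hT.continuous
  have hT2c : Continuous (T ∘ T) := hTc.comp hTc
  have hT2s : (T ∘ T) s = s := by rw [Function.comp_apply, hs, hs]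
  have hD' : ∀ᶠ z : ℍ in 𝓝 s, S.D z = S.D s + ψ z ^ κ :=
    coe_ev hD
  have hT2t : Tendsto (T ∘ T) (𝓝 s) (𝓝 s) := by
    have := hT2c.continuousAt (x := s)
    rwa [ContinuousAt, hT2s] at this
  have hpow : ∀ᶠ z in 𝓝 s, ψ ((T ∘ T) z : ℂ) ^ κ = stretch M (ψ (z : ℂ) ^ κ) := by
    filter_upwards [hD', hT2t.eventually hD'] with z hz1 hz2
    have e3 := hstep2 z
    have e4 : S.D (T (T z) : ℂ) = S.D s + ψ ((T ∘ T) z : ℂ) ^ κ := hz2
    rw [e4, hz1, add_sub_cancel_left, add_sub_cancel_left] at e3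
    exact e3
  obtain ⟨ξ, hξ⟩ := exists_rot hκ hψ h0 h1 hM0 hT2c hT2s hpow
  have hkj : 0 < κ * j := Nat.mul_pos hκ hj
  have hR := rot_iterate hκ hψ h0 h1 hM0 hξ hkj
  have hone : ξ ^ (κ * j) = 1 := by rw [pow_mul, hξ.root, one_pow]
  have hit : (T ∘ T)^[κ * j] = T^[2 * κ * j] := by
    have : T ∘ T = T^[2] := rfl
    rw [this, ← Function.iterate_mul, mul_assoc]
  rw [hone, hit] at hR
  have hMk : 1 < M ^ (κ * j) := one_lt_pow₀ hM1 hkj.ne'
  exact ⟨coneFixed_of_rot (S := S.toFlatSurface) hκ hψ h0 h1 hD hMk hR,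
    M ^ (κ * j), hMk, local_of_rot hκ hψ h0 h1 hMk hR⟩

end Pool.Agent.ANO.Cone
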