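import Pool.Agent.ANO.Iface

/-!
# ANO, Cone: sectors

`Sec κ 0 e` (`Sec κ (1/2) e`) are the `2 κ` components of `{ζ | Re ζ ^ κ ≠ 0}` (of `{ζ | Im ζ ^ κ ≠
0}`), in the cyclic order: the points `ζ = ‖ζ‖ exp (i θ)` with `|κ θ - (n + τ) π| < π / 2`, `n ≡ e`
modulo `2 κ`.

The argument `θ` of `ζ` is determined up to `2 π j`, and this changes `n` by `2 κ j`
(`Complex.exp_eq_exp_iff_exists_int`). So all claims are about real numbers:
* `sec_disj`: `|κ θ - (n + τ) π| < π/2`, `|κ θ - (n' + τ) π| < π/2` gives `|n - n'| < 1`.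
* `sec_adj`: `|κ θ - n π| < π/2`, `|κ θ - (n' + 1/2) π| < π/2` gives `n - n' = 0` or `1`.
* `sec_cover`: `n = round (κ θ / π - τ)`; equality `|κ θ - (n + τ) π| = π/2` is excluded by
  `Re ζ ^ κ = ‖ζ‖ ^ κ cos (κ θ) ≠ 0`, resp. `Im ζ ^ κ = ‖ζ‖ ^ κ sin (κ θ) ≠ 0`.
* `sec_re`, `sec_im`: `cos (κ θ) = ± cos (κ θ - n π)`, `sin (κ θ) = ± cos (κ θ - (n + 1/2) π)`.
* `sec_open`: near `ζ₀ = ‖ζ₀‖ exp (i θ₀)` the argument `θ ζ = θ₀ + arg (ζ / ζ₀)` is continuous at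
  `ζ₀`.
* `sec_inv`: put `θ' = θ + arg ω`, `δ = κ θ - (n + τ) π`, `δ' = κ θ' - (n + τ) π`, `|δ| < π/2`,
  `|δ'| < π`. `(ω ζ) ^ κ = stretch L (ζ ^ κ)`: the real (`τ = 0`) or the imaginary part (`τ = 1/2`)
  has the same sign for `ζ ^ κ` and `(ω ζ) ^ κ`, so `cos δ` and `cos δ'` have the same sign, `cos δ'
  > 0` and `|δ'| < π/2`. The converse by `sec_cover` and `sec_disj`.
* `sec_ex`: the argument `θ = (e ± 1/4) π / κ`.
* `sec_path`: `{t ∈ [0,1] | c t ∈ Sec κ τ e}` and its complement (the union of the other sectors by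
  `sec_cover`, `sec_disj`) are open in `[0, 1]`; `[0, 1]` is connected.
-/

set_option autoImplicit false

open Set Filter Topology
open scoped UpperHalfPlane

namespace Pool.Agent.ANO.Cone

/-- the sectors -/
def Sec (κ : ℕ) (τ : ℝ) (e : ZMod (2 * κ)) : Set ℂ :=
  {ζ | ζ ≠ 0 ∧ ∃ (θ : ℝ) (n : ℤ), ζ = ‖ζ‖ * Complex.exp (θ * Complex.I) ∧
    (n : ZMod (2 * κ)) = e ∧ |κ * θ - (n + τ) * Real.pi| < Real.pi / 2}

variable {κ : ℕ}

/-! ### Auxiliary lemmas -/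

private theorem pow_polar {ζ : ℂ} {θ : ℝ} (h : ζ = ‖ζ‖ * Complex.exp (θ * Complex.I)) :
    ζ ^ κ = ((‖ζ‖ ^ κ : ℝ) : ℂ) * Complex.exp ((κ * θ : ℝ) * Complex.I) := by
  conv_lhs => rw [h]
  rw [mul_pow, ← Complex.exp_nat_mul]
  push_cast
  congr 2
  ring

private theorem pow_re {ζ : ℂ} {θ : ℝ} (h : ζ = ‖ζ‖ * Complex.exp (θ * Complex.I)) :
    (ζ ^ κ).re = ‖ζ‖ ^ κ * Real.cos (κ * θ) := by
  rw [pow_polar h, Complex.re_ofReal_mul, Complex.exp_ofReal_mul_I_re]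

private theorem pow_im {ζ : ℂ} {θ : ℝ} (h : ζ = ‖ζ‖ * Complex.exp (θ * Complex.I)) :
    (ζ ^ κ).im = ‖ζ‖ ^ κ * Real.sin (κ * θ) := by
  rw [pow_polar h, Complex.im_ofReal_mul, Complex.exp_ofReal_mul_I_im]

private theorem polar_arg (ζ : ℂ) : ζ = ‖ζ‖ * Complex.exp (ζ.arg * Complex.I) :=
  (Complex.norm_mul_exp_arg_mul_I ζ).symm

/-- two arguments differ by a multiple of `2 π` -/
private theorem polar_unique {ζ : ℂ} (h0 : ζ ≠ 0) {θ θ' : ℝ}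
    (h : ζ = ‖ζ‖ * Complex.exp (θ * Complex.I)) (h' : ζ = ‖ζ‖ * Complex.exp (θ' * Complex.I)) :
    ∃ j : ℤ, θ' = θ + j * (2 * Real.pi) := by
  have hn : (‖ζ‖ : ℂ) ≠ 0 := by
    rw [Ne, Complex.ofReal_eq_zero, norm_eq_zero]
    exact h0
  have h1 : Complex.exp (θ' * Complex.I) = Complex.exp (θ * Complex.I) :=
    mul_left_cancel₀ hn (h'.symm.trans h)
  obtain ⟨j, hj⟩ := Complex.exp_eq_exp_iff_exists_int.1 h1
  refine ⟨j, ?_⟩
  have h2 := congrArg Complex.im hj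
  simpa using h2

private theorem polar_mul {ζ ω : ℂ} {θ φ : ℝ} (h : ζ = ‖ζ‖ * Complex.exp (θ * Complex.I))
    (h' : ω = ‖ω‖ * Complex.exp (φ * Complex.I)) :
    ω * ζ = ‖ω * ζ‖ * Complex.exp ((θ + φ : ℝ) * Complex.I) := by
  conv_lhs => rw [h, h']
  rw [norm_mul]
  push_cast
  rw [add_mul, Complex.exp_add]
  ring

private theorem cos_shift (x : ℝ) (n : ℤ) (τ : ℝ) :
    Real.cos (x - (n + τ) * Real.pi) = (-1) ^ n * Real.cos (x - τ * Real.pi) := by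
  rw [show x - (n + τ) * Real.pi = (x - τ * Real.pi) - n * Real.pi by ring,
    Real.cos_sub_int_mul_pi]

private theorem cos_half (x : ℝ) : Real.cos (x - 1 / 2 * Real.pi) = Real.sin x := by
  rw [show x - 1 / 2 * Real.pi = x - Real.pi / 2 by ring, Real.cos_sub_pi_div_two]

private theorem cos_zero' (x : ℝ) : Real.cos (x - 0 * Real.pi) = Real.cos x := by
  rw [zero_mul, sub_zero]

private theorem cover_aux {τ : ℝ} {ζ : ℂ} (h0 : ζ ≠ 0)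
    (h : Real.cos (κ * ζ.arg - τ * Real.pi) ≠ 0) : ∃ e, ζ ∈ Sec κ τ e := by
  refine ⟨((round (κ * ζ.arg / Real.pi - τ) : ℤ) : ZMod (2 * κ)), h0, ζ.arg,
    round (κ * ζ.arg / Real.pi - τ), polar_arg ζ, rfl, ?_⟩
  set n := round (κ * ζ.arg / Real.pi - τ) with hn
  have hpi := Real.pi_pos
  have h1 : |κ * ζ.arg / Real.pi - τ - n| ≤ 1 / 2 := abs_sub_round _
  have h2 : κ * ζ.arg - (n + τ) * Real.pi = (κ * ζ.arg / Real.pi - τ - n) * Real.pi := by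
    field_simp
    ring
  have h3 : |κ * ζ.arg - (n + τ) * Real.pi| ≤ Real.pi / 2 := by
    rw [h2, abs_mul, abs_of_pos hpi]
    nlinarith
  refine lt_of_le_of_ne h3 fun h4 => h ?_
  have h5 : Real.cos (κ * ζ.arg - (n + τ) * Real.pi) = 0 := by
    rw [← Real.cos_abs, h4, Real.cos_pi_div_two]
  rw [cos_shift] at h5
  rcases mul_eq_zero.1 h5 with h6 | h6
  · exact absurd h6 (zpow_ne_zero _ (by norm_num))
  · exact h6

private theorem cos_pos_of_lt {x : ℝ} (h : |x| < Real.pi / 2) : 0 < Real.cos x :=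
  Real.cos_pos_of_mem_Ioo ⟨(abs_lt.1 h).1, (abs_lt.1 h).2⟩

private theorem lt_of_cos_pos {x : ℝ} (h : |x| < Real.pi) (h' : 0 < Real.cos x) :
    |x| < Real.pi / 2 := by
  by_contra hc
  push Not at hc
  have h1 := Real.cos_nonpos_of_pi_div_two_le_of_le hc
    (by linarith [Real.pi_pos] : |x| ≤ Real.pi + Real.pi / 2)
  rw [Real.cos_abs] at h1
  linarith

/-! ### The theorems -/

theorem sec_open (hκ : 0 < κ) (τ : ℝ) (e : ZMod (2 * κ)) : IsOpen (Sec κ τ e) := by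
  have _ := hκ
  rw [isOpen_iff_mem_nhds]
  rintro ζ₀ ⟨h0, θ₀, n, h1, h2, h3⟩
  have hc : ContinuousAt (fun ζ : ℂ => (ζ / ζ₀).arg) ζ₀ := by
    have h4 : ContinuousAt Complex.arg (ζ₀ / ζ₀) := by
      rw [div_self h0]
      exact Complex.continuousAt_arg Complex.one_mem_slitPlane
    exact ContinuousAt.comp (f := fun ζ : ℂ => ζ / ζ₀) h4
      (continuousAt_id.div_const ζ₀)
  have hd : ContinuousAt (fun ζ : ℂ =>
      |κ * (θ₀ + (ζ / ζ₀).arg) - (n + τ) * Real.pi|) ζ₀ :=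
    (((continuousAt_const.add hc).const_mul _).sub continuousAt_const).abs
  have he : |κ * (θ₀ + (ζ₀ / ζ₀).arg) - (n + τ) * Real.pi| < Real.pi / 2 := by
    rw [div_self h0, Complex.arg_one, add_zero]
    exact h3
  filter_upwards [hd.eventually_lt_const he, eventually_ne_nhds h0] with ζ h4 h5
  refine ⟨h5, θ₀ + (ζ / ζ₀).arg, n, ?_, h2, h4⟩
  have h6 := polar_mul h1 (polar_arg (ζ / ζ₀))
  rw [div_mul_cancel₀ _ h0] at h6
  exact h6

theorem sec_disj {τ : ℝ} {e e' : ZMod (2 * κ)} {ζ : ℂ} (h : ζ ∈ Sec κ τ e)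
    (h' : ζ ∈ Sec κ τ e') : e = e' := by
  obtain ⟨h0, θ, n, h1, h2, h3⟩ := h
  obtain ⟨_, θ', n', h1', h2', h3'⟩ := h'
  obtain ⟨j, hj⟩ := polar_unique h0 h1 h1'
  have hpi := Real.pi_pos
  rw [hj] at h3'
  rw [abs_lt] at h3 h3'
  have h4 : ((n : ℝ) - n' + 2 * κ * j) * Real.pi < 1 * Real.pi := by nlinarith
  have h5 : (-1 : ℝ) * Real.pi < ((n : ℝ) - n' + 2 * κ * j) * Real.pi := by nlinarith
  have h6 := lt_of_mul_lt_mul_right h4 hpi.le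
  have h7 := lt_of_mul_lt_mul_right h5 hpi.le
  have h8 : n - n' + 2 * κ * j < 1 := by exact_mod_cast h6
  have h9 : -1 < n - n' + 2 * κ * j := by exact_mod_cast h7
  have h10 : n' = n + (2 * κ : ℕ) * j := by
    push_cast
    omega
  rw [← h2, ← h2', h10]
  push_cast
  have h11 : ((2 : ZMod (2 * κ)) * (κ : ZMod (2 * κ))) = 0 := by
    have h12 := ZMod.natCast_self (2 * κ)
    push_cast at h12
    exact h12
  rw [h11, zero_mul, add_zero]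

theorem sec_cover_re {ζ : ℂ} (h : (ζ ^ κ).re ≠ 0) (h0 : ζ ≠ 0) : ∃ e, ζ ∈ Sec κ 0 e := by
  refine cover_aux h0 ?_
  rw [cos_zero']
  rw [pow_re (polar_arg ζ)] at h
  exact right_ne_zero_of_mul h

theorem sec_cover_im {ζ : ℂ} (h : (ζ ^ κ).im ≠ 0) (h0 : ζ ≠ 0) : ∃ e, ζ ∈ Sec κ (1 / 2) e := by
  refine cover_aux h0 ?_
  rw [cos_half]
  rw [pow_im (polar_arg ζ)] at h
  exact right_ne_zero_of_mul h

theorem sec_re {e : ZMod (2 * κ)} {ζ : ℂ} (h : ζ ∈ Sec κ 0 e) : (ζ ^ κ).re ≠ 0 := by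
  obtain ⟨h0, θ, n, h1, -, h3⟩ := h
  rw [pow_re h1]
  refine mul_ne_zero (pow_ne_zero _ (norm_ne_zero_iff.2 h0)) ?_
  have h4 := cos_pos_of_lt h3
  rw [cos_shift, cos_zero'] at h4
  exact right_ne_zero_of_mul h4.ne'

theorem sec_im {e : ZMod (2 * κ)} {ζ : ℂ} (h : ζ ∈ Sec κ (1 / 2) e) : (ζ ^ κ).im ≠ 0 := by
  obtain ⟨h0, θ, n, h1, -, h3⟩ := h
  rw [pow_im h1]
  refine mul_ne_zero (pow_ne_zero _ (norm_ne_zero_iff.2 h0)) ?_
  have h4 := cos_pos_of_lt h3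
  rw [cos_shift, cos_half] at h4
  exact right_ne_zero_of_mul h4.ne'

theorem sec_adj {e e' : ZMod (2 * κ)} {ζ : ℂ} (h : ζ ∈ Sec κ 0 e) (h' : ζ ∈ Sec κ (1 / 2) e') :
    Core.Adj e e' := by
  obtain ⟨h0, θ, n, h1, h2, h3⟩ := h
  obtain ⟨_, θ', n', h1', h2', h3'⟩ := h'
  obtain ⟨j, hj⟩ := polar_unique h0 h1 h1'
  have hpi := Real.pi_pos
  rw [hj] at h3'
  rw [abs_lt] at h3 h3'
  have h4 : (2 * ((n : ℝ) - n' + 2 * κ * j) - 1) * Real.pi < 2 * Real.pi := by nlinarith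
  have h5 : (-2 : ℝ) * Real.pi < (2 * ((n : ℝ) - n' + 2 * κ * j) - 1) * Real.pi := by nlinarith
  have h6 := lt_of_mul_lt_mul_right h4 hpi.le
  have h7 := lt_of_mul_lt_mul_right h5 hpi.le
  have h8 : 2 * (n - n' + 2 * κ * j) - 1 < 2 := by exact_mod_cast h6
  have h9 : -2 < 2 * (n - n' + 2 * κ * j) - 1 := by exact_mod_cast h7
  have h11 : ((2 : ZMod (2 * κ)) * (κ : ZMod (2 * κ))) = 0 := by
    have h12 := ZMod.natCast_self (2 * κ)
    push_cast at h12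
    exact h12
  have h10 : n' = n + (2 * κ : ℕ) * j ∨ n' + 1 = n + (2 * κ : ℕ) * j := by
    push_cast
    omega
  rcases h10 with h10 | h10
  · left
    rw [← h2, ← h2', h10]
    push_cast
    rw [h11, zero_mul, add_zero]
  · right
    have h12 := congrArg (fun z : ℤ => (z : ZMod (2 * κ))) h10
    push_cast at h12
    rw [h11, zero_mul, add_zero, h2, h2'] at h12
    exact h12

theorem sec_inv {τ : ℝ} (hτ : τ = 0 ∨ τ = 1 / 2) (hκ : 0 < κ) {e : ZMod (2 * κ)} {ζ ω : ℂ}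
    {L : ℝ} (hL : 0 < L) (hω : |ω.arg| < Real.pi / (2 * κ))
    (h : (ω * ζ) ^ κ = stretch L (ζ ^ κ)) : ζ ∈ Sec κ τ e ↔ ω * ζ ∈ Sec κ τ e := by
  have hre : ((ω * ζ) ^ κ).re = L * (ζ ^ κ).re := congrArg Complex.re h
  have him : ((ω * ζ) ^ κ).im = L⁻¹ * (ζ ^ κ).im := congrArg Complex.im h
  have hκ' : (0 : ℝ) < κ := Nat.cast_pos.2 hκ
  have key : ∀ e' : ZMod (2 * κ), ζ ∈ Sec κ τ e' → ω * ζ ∈ Sec κ τ e' := by
    rintro e' ⟨h0, θ, n, h1, h2, h3⟩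
    have hω0 : ω ≠ 0 := by
      rintro rfl
      rw [zero_mul, zero_pow hκ.ne'] at hre him
      have h4 : (ζ ^ κ).re = 0 := by
        rcases mul_eq_zero.1 hre.symm with h5 | h5
        · exact absurd h5 hL.ne'
        · exact h5
      have h5 : (ζ ^ κ).im = 0 := by
        rcases mul_eq_zero.1 him.symm with h5 | h5
        · exact absurd h5 (inv_pos.2 hL).ne'
        · exact h5
      exact pow_ne_zero κ h0 (Complex.ext h4 h5)
    have h4 := polar_mul h1 (polar_arg ω)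
    have hne : ω * ζ ≠ 0 := mul_ne_zero hω0 h0
    refine ⟨hne, θ + ω.arg, n, h4, h2, ?_⟩
    have h5 : |κ * ω.arg| < Real.pi / 2 := by
      rw [abs_mul, Nat.abs_cast]
      calc (κ : ℝ) * |ω.arg| < κ * (Real.pi / (2 * κ)) := mul_lt_mul_of_pos_left hω hκ'
        _ = Real.pi / 2 := by field_simp
    have h6 : |κ * (θ + ω.arg) - (n + τ) * Real.pi| < Real.pi := by
      have h7 : κ * (θ + ω.arg) - (n + τ) * Real.pi =
          (κ * θ - (n + τ) * Real.pi) + κ * ω.arg := by ring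
      rw [h7]
      have h8 := abs_add_le (κ * θ - (n + τ) * Real.pi) (κ * ω.arg)
      linarith
    refine lt_of_cos_pos h6 ?_
    have hn1 : (0 : ℝ) < ‖ω * ζ‖ ^ κ := pow_pos (norm_pos_iff.2 hne) _
    have hn2 : (0 : ℝ) < ‖ζ‖ ^ κ := pow_pos (norm_pos_iff.2 h0) _
    have h9 := cos_pos_of_lt h3
    rw [cos_shift] at h9 ⊢
    rcases hτ with rfl | rfl
    · rw [cos_zero'] at h9 ⊢
      rw [pow_re h4, pow_re h1] at hre
      have h10 : ‖ω * ζ‖ ^ κ * ((-1) ^ n * Real.cos (κ * (θ + ω.arg))) =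
          L * ‖ζ‖ ^ κ * ((-1) ^ n * Real.cos (κ * θ)) := by
        linear_combination (-1) ^ n * hre
      exact pos_of_mul_pos_right (h10 ▸ mul_pos (mul_pos hL hn2) h9) hn1.le
    · rw [cos_half] at h9 ⊢
      rw [pow_im h4, pow_im h1] at him
      have h10 : ‖ω * ζ‖ ^ κ * ((-1) ^ n * Real.sin (κ * (θ + ω.arg))) =
          L⁻¹ * ‖ζ‖ ^ κ * ((-1) ^ n * Real.sin (κ * θ)) := by
        linear_combination (-1) ^ n * him
      exact pos_of_mul_pos_right (h10 ▸ mul_pos (mul_pos (inv_pos.2 hL) hn2) h9) hn1.le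
  refine ⟨key e, fun h1 => ?_⟩
  have h2 : ω * ζ ≠ 0 := h1.1
  have h3 : ζ ≠ 0 := right_ne_zero_of_mul h2
  obtain ⟨e₁, h4⟩ : ∃ e₁, ζ ∈ Sec κ τ e₁ := by
    rcases hτ with rfl | rfl
    · refine sec_cover_re (fun h5 => sec_re h1 ?_) h3
      rw [hre, h5, mul_zero]
    · refine sec_cover_im (fun h5 => sec_im h1 ?_) h3
      rw [him, h5, mul_zero]
  rw [sec_disj h1 (key e₁ h4)]
  exact h4

theorem sec_ex (hκ : 0 < κ) {e e' : ZMod (2 * κ)} (h : Core.Adj e e') {ρ : ℝ} (hρ : 0 < ρ) :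
    ∃ ζ : ℂ, ‖ζ‖ < ρ ∧ ζ ∈ Sec κ 0 e ∧ ζ ∈ Sec κ (1 / 2) e' := by
  have hκ' : (κ : ℝ) ≠ 0 := Nat.cast_ne_zero.2 hκ.ne'
  have hpi := Real.pi_pos
  have hn : ∀ θ : ℝ, ‖((ρ / 2 : ℝ) : ℂ) * Complex.exp (θ * Complex.I)‖ = ρ / 2 := by
    intro θ
    rw [norm_mul, Complex.norm_exp_ofReal_mul_I, mul_one, Complex.norm_real, Real.norm_eq_abs,
      abs_of_pos (half_pos hρ)]
  have hne : ∀ θ : ℝ, ((ρ / 2 : ℝ) : ℂ) * Complex.exp (θ * Complex.I) ≠ 0 := by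
    intro θ h1
    have h2 := hn θ
    rw [h1, norm_zero] at h2
    linarith
  have key : ∀ (n n' : ℤ) (x : ℝ), (n : ZMod (2 * κ)) = e → (n' : ZMod (2 * κ)) = e' →
      |x - n| < 1 / 2 → |x - (n' + 1 / 2)| < 1 / 2 →
      ∃ ζ : ℂ, ‖ζ‖ < ρ ∧ ζ ∈ Sec κ 0 e ∧ ζ ∈ Sec κ (1 / 2) e' := by
    intro n n' x hn1 hn2 hx hx'
    have h1 : (κ : ℝ) * (x * Real.pi / κ) = x * Real.pi := by field_simp
    refine ⟨((ρ / 2 : ℝ) : ℂ) * Complex.exp ((x * Real.pi / κ : ℝ) * Complex.I), ?_,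
      ⟨hne _, x * Real.pi / κ, n, ?_, hn1, ?_⟩, ⟨hne _, x * Real.pi / κ, n', ?_, hn2, ?_⟩⟩
    · rw [hn]
      linarith
    · rw [hn]
    · rw [h1, show x * Real.pi - (n + 0) * Real.pi = (x - n) * Real.pi by ring, abs_mul,
        abs_of_pos hpi]
      nlinarith
    · rw [hn]
    · rw [h1, show x * Real.pi - (n' + 1 / 2) * Real.pi = (x - (n' + 1 / 2)) * Real.pi by ring,
        abs_mul, abs_of_pos hpi]
      nlinarith
  rcases h with h | h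
  · obtain ⟨n, hn1⟩ := ZMod.intCast_surjective e
    refine key n n (n + 1 / 4) hn1 (hn1.trans h.symm) ?_ ?_
    · rw [add_sub_cancel_left, abs_of_pos (by norm_num)]
      norm_num
    · rw [show (n : ℝ) + 1 / 4 - (n + 1 / 2) = -(1 / 4) by ring, abs_neg,
        abs_of_pos (by norm_num)]
      norm_num
  · obtain ⟨n, hn1⟩ := ZMod.intCast_surjective e'
    refine key (n + 1) n (n + 3 / 4) ?_ hn1 ?_ ?_
    · push_cast
      rw [hn1, h]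
    · push_cast
      rw [show (n : ℝ) + 3 / 4 - (n + 1) = -(1 / 4) by ring, abs_neg,
        abs_of_pos (by norm_num)]
      norm_num
    · rw [show (n : ℝ) + 3 / 4 - (n + 1 / 2) = 1 / 4 by ring, abs_of_pos (by norm_num)]
      norm_num

private theorem path_aux (hκ : 0 < κ) {τ : ℝ} {e : ZMod (2 * κ)} {c : ℝ → ℂ}
    (hc : ContinuousOn c (Icc 0 1)) (h0 : ∀ t ∈ Icc (0 : ℝ) 1, ∃ e', c t ∈ Sec κ τ e')
    (h1 : c 1 ∈ Sec κ τ e) : c 0 ∈ Sec κ τ e := by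
  have h2 : IsPreconnected (c '' Icc 0 1) := isPreconnected_Icc.image c hc
  have h3 : IsOpen (⋃ e' ∈ {e' : ZMod (2 * κ) | e' ≠ e}, Sec κ τ e') :=
    isOpen_biUnion fun e' _ => sec_open hκ τ e'
  have h4 : Disjoint (Sec κ τ e) (⋃ e' ∈ {e' : ZMod (2 * κ) | e' ≠ e}, Sec κ τ e') := by
    rw [Set.disjoint_left]
    intro ζ h5 h6
    rw [Set.mem_iUnion₂] at h6
    obtain ⟨e', h7, h8⟩ := h6
    exact h7 (sec_disj h8 h5)
  have h5 : c '' Icc 0 1 ⊆ Sec κ τ e ∪ ⋃ e' ∈ {e' : ZMod (2 * κ) | e' ≠ e}, Sec κ τ e' := by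
    rintro _ ⟨t, ht, rfl⟩
    obtain ⟨e', h6⟩ := h0 t ht
    by_cases h7 : e' = e
    · left
      rw [← h7]
      exact h6
    · right
      rw [Set.mem_iUnion₂]
      exact ⟨e', h7, h6⟩
  have h6 : c '' Icc 0 1 ⊆ Sec κ τ e :=
    h2.subset_left_of_subset_union (sec_open hκ τ e) h3 h4 h5
      ⟨c 1, ⟨1, ⟨zero_le_one, le_refl 1⟩, rfl⟩, h1⟩
  exact h6 ⟨0, ⟨le_refl 0, zero_le_one⟩, rfl⟩

theorem sec_path_re (hκ : 0 < κ) {e : ZMod (2 * κ)} {c : ℝ → ℂ} (hc : ContinuousOn c (Icc 0 1))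
    (h0 : ∀ t ∈ Icc (0 : ℝ) 1, (c t ^ κ).re ≠ 0) (h1 : c 1 ∈ Sec κ 0 e) : c 0 ∈ Sec κ 0 e :=
  path_aux hκ hc (fun t ht => sec_cover_re (h0 t ht) fun h2 => h0 t ht (by
    rw [h2, zero_pow hκ.ne', Complex.zero_re])) h1

theorem sec_path_im (hκ : 0 < κ) {e : ZMod (2 * κ)} {c : ℝ → ℂ} (hc : ContinuousOn c (Icc 0 1))
    (h0 : ∀ t ∈ Icc (0 : ℝ) 1, (c t ^ κ).im ≠ 0) (h1 : c 1 ∈ Sec κ (1 / 2) e) :
    c 0 ∈ Sec κ (1 / 2) e :=
  path_aux hκ hc (fun t ht => sec_cover_im (h0 t ht) fun h2 => h0 t ht (by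
    rw [h2, zero_pow hκ.ne', Complex.zero_im])) h1

end Pool.Agent.ANO.Cone
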