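import Pool.Agent.ANO.Cone.Chart

/-!
# ANO, Cone: existence of a cone point (A8)

* `norm_deriv_smul`: for `γ ∈ Γ` the map `z ↦ (a z + b) / (c z + d)` has the derivative `1 / (c z + d) ^ 2`
  (`HasDerivAt.div`, determinant `1`), and `Im (γ z) = Im z / ‖c z + d‖ ^ 2`. Differentiate
  `D (γ z) = ε D z + c` (valid on the open half plane).
* `exists_zero`: suppose that `D' ≠ 0` everywhere on the half plane. `h z = ‖D' z‖ Im z` is continuous,
  positive and invariant, so it attains its minimum `m > 0` at some `z₀` (compact `K`; every point is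
  equivalent to a point of `K`). Let `y₀ = Im z₀` and `φ z = exp (i (z - z₀) / y₀) / D' z`, holomorphic. With
  `t = Im (z - z₀) / y₀ > -1`: `‖φ z‖ = exp (- t) Im z / h z ≤ exp (- t) (1 + t) y₀ / m ≤ y₀ / m = ‖φ z₀‖`
  (`Real.add_one_le_exp`). So `‖φ‖` has a local maximum at `z₀`, and `‖φ z‖ = ‖φ z₀‖` near `z₀`
  (`Complex.norm_eventually_eq_of_isLocalMax`). But for `t ≠ 0` the inequality `(1 + t) exp (- t) < 1` is strict
  (`Real.add_one_lt_exp`). Contradiction (`z = z₀ + i η`, `η > 0` small).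
-/

set_option autoImplicit false

open Set Filter Topology
open scoped UpperHalfPlane

namespace Pool.Agent.ANO.Cone

private theorem isOpen_up : IsOpen {z : ℂ | 0 < z.im} :=
  isOpen_lt continuous_const Complex.continuous_im

private theorem diffAt_D (S : FlatSurface) {z : ℂ} (hz : 0 < z.im) :
    DifferentiableAt ℂ S.D z :=
  S.holo.differentiableAt (isOpen_up.mem_nhds hz)

theorem norm_deriv_smul (S : FlatSurface) {γ : Matrix.SpecialLinearGroup (Fin 2) ℝ}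
    (hγ : γ ∈ S.Γ) (z : ℍ) :
    ‖deriv S.D ((γ • z : ℍ) : ℂ)‖ * (γ • z : ℍ).im = ‖deriv S.D (z : ℂ)‖ * z.im := by
  obtain ⟨ε, c₀, hε, h⟩ := S.equivar γ hγ
  have hdet : γ 0 0 * γ 1 1 - γ 0 1 * γ 1 0 = 1 := by
    have h1 := γ.det_coe
    rw [Matrix.det_fin_two] at h1
    exact h1
  have happ : ∀ w : ℍ, ((γ • w : ℍ) : ℂ) =
      ((γ 0 0 : ℂ) * w + γ 0 1) / ((γ 1 0 : ℂ) * w + γ 1 1) := by
    intro w
    rw [UpperHalfPlane.coe_specialLinearGroup_apply]
    rfl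
  have hden : ∀ w : ℍ, (γ 1 0 : ℂ) * w + γ 1 1 ≠ 0 := by
    intro w h1
    have h2 : γ 1 0 * w.im = 0 := by
      have := congrArg Complex.im h1
      simpa using this
    have h3 : γ 1 0 * w.re + γ 1 1 = 0 := by
      have := congrArg Complex.re h1
      simpa using this
    have h4 : γ 1 0 = 0 := (mul_eq_zero.1 h2).resolve_right w.im_ne_zero
    rw [h4, zero_mul, zero_add] at h3
    rw [h4, h3] at hdet
    norm_num at hdet
  have hq := hden z
  -- the imaginary part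
  have him : (γ • z : ℍ).im * ‖(γ 1 0 : ℂ) * z + γ 1 1‖ ^ 2 = z.im := by
    have h1 : ((γ • z : ℍ) : ℂ) * ((γ 1 0 : ℂ) * z + γ 1 1) = (γ 0 0 : ℂ) * z + γ 0 1 := by
      rw [happ, div_mul_cancel₀ _ hq]
    have h2 : (γ • z : ℍ).re * (γ 1 0 * z.re + γ 1 1) - (γ • z : ℍ).im * (γ 1 0 * z.im) =
        γ 0 0 * z.re + γ 0 1 := by
      have := congrArg Complex.re h1
      simpa using this
    have h3 : (γ • z : ℍ).re * (γ 1 0 * z.im) + (γ • z : ℍ).im * (γ 1 0 * z.re + γ 1 1) =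
        γ 0 0 * z.im := by
      have := congrArg Complex.im h1
      simpa using this
    have h4 : ‖(γ 1 0 : ℂ) * z + γ 1 1‖ ^ 2 =
        (γ 1 0 * z.re + γ 1 1) ^ 2 + (γ 1 0 * z.im) ^ 2 := by
      rw [← Complex.normSq_eq_norm_sq, Complex.normSq_apply]
      simp
      ring
    rw [h4]
    linear_combination (γ 1 0 * z.re + γ 1 1) * h3 - γ 1 0 * z.im * h2 + z.im * hdet
  -- the derivative of the Moebius map
  have hf : HasDerivAt (fun w : ℂ => ((γ 0 0 : ℂ) * w + γ 0 1) / ((γ 1 0 : ℂ) * w + γ 1 1))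
      (1 / ((γ 1 0 : ℂ) * z + γ 1 1) ^ 2) z := by
    have h1 := (((hasDerivAt_id (z : ℂ)).const_mul (γ 0 0 : ℂ)).add_const (γ 0 1 : ℂ)).div
      (((hasDerivAt_id (z : ℂ)).const_mul (γ 1 0 : ℂ)).add_const (γ 1 1 : ℂ)) hq
    have hdet' : (γ 0 0 : ℂ) * γ 1 1 - γ 0 1 * γ 1 0 = 1 := by exact_mod_cast hdet
    refine h1.congr_deriv ?_
    simp only [id]
    congr 1
    linear_combination hdet'
  have hD : HasDerivAt S.D (deriv S.D ((γ • z : ℍ) : ℂ))
      (((γ 0 0 : ℂ) * z + γ 0 1) / ((γ 1 0 : ℂ) * z + γ 1 1)) := by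
    rw [← happ]
    exact (diffAt_D S (γ • z : ℍ).im_pos).hasDerivAt
  have h1 := HasDerivAt.comp (z : ℂ) hD hf
  have h2 : HasDerivAt (fun w : ℂ => ε * S.D w + c₀) (ε * deriv S.D z) z :=
    ((diffAt_D S z.im_pos).hasDerivAt.const_mul ε).add_const c₀
  have h3 : (fun w : ℂ => ε * S.D w + c₀) =ᶠ[𝓝 (z : ℂ)] S.D ∘
      fun w : ℂ => ((γ 0 0 : ℂ) * w + γ 0 1) / ((γ 1 0 : ℂ) * w + γ 1 1) := by
    filter_upwards [isOpen_up.mem_nhds z.im_pos] with w hw
    have h4 := h ⟨w, hw⟩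
    rw [happ] at h4
    exact h4.symm
  have h4 := (h1.congr_of_eventuallyEq h3).unique h2
  have hε1 : ‖ε‖ = 1 := by
    rcases hε with rfl | rfl
    · exact norm_one
    · rw [norm_neg, norm_one]
  have h5 := congrArg norm h4
  rw [norm_mul, norm_mul, hε1, one_mul, norm_div, norm_one, norm_pow] at h5
  have h6 : ‖(γ 1 0 : ℂ) * z + γ 1 1‖ ≠ 0 := norm_ne_zero_iff.2 hq
  rw [← h5, ← him]
  field_simp

theorem exists_zero (S : FlatSurface) : ∃ s : ℍ, deriv S.D (s : ℂ) = 0 := by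
  by_contra hcon'
  have hcon : ∀ s : ℍ, deriv S.D (s : ℂ) ≠ 0 := fun s h => hcon' ⟨s, h⟩
  have hdd : DifferentiableOn ℂ (deriv S.D) {z : ℂ | 0 < z.im} := S.holo.deriv isOpen_up
  have hcont : Continuous fun z : ℍ => ‖deriv S.D (z : ℂ)‖ * z.im := by
    refine Continuous.mul (Continuous.norm ?_) UpperHalfPlane.continuous_im
    exact hdd.continuousOn.comp_continuous UpperHalfPlane.continuous_coe fun z => z.im_pos
  obtain ⟨K, hK, hKc⟩ := S.cocompact
  have hne : K.Nonempty := by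
    obtain ⟨γ, _, h⟩ := hKc UpperHalfPlane.I
    exact ⟨_, h⟩
  obtain ⟨z₀, hz₀, hmin⟩ := hK.exists_isMinOn hne hcont.continuousOn
  have hmin' : ∀ z : ℍ, ‖deriv S.D (z₀ : ℂ)‖ * z₀.im ≤ ‖deriv S.D (z : ℂ)‖ * z.im := by
    intro z
    obtain ⟨γ, hγ, h⟩ := hKc z
    rw [← norm_deriv_smul S hγ z]
    exact hmin h
  have hy := z₀.im_pos
  have hD0 : 0 < ‖deriv S.D (z₀ : ℂ)‖ := norm_pos_iff.2 (hcon z₀)
  let φ : ℂ → ℂ := fun z => Complex.exp (Complex.I * (z - z₀) / (z₀.im : ℂ)) / deriv S.D z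
  have hφn : ∀ z : ℂ, ‖φ z‖ = Real.exp (-((z.im - z₀.im) / z₀.im)) / ‖deriv S.D z‖ := by
    intro z
    have h1 : (Complex.I * (z - z₀) / (z₀.im : ℂ)).re = -((z.im - z₀.im) / z₀.im) := by
      rw [Complex.div_ofReal_re]
      simp
      ring
    change ‖Complex.exp (Complex.I * (z - z₀) / (z₀.im : ℂ)) / deriv S.D z‖ = _
    rw [norm_div, Complex.norm_exp, h1]
  have hφ0 : ‖φ z₀‖ = 1 / ‖deriv S.D (z₀ : ℂ)‖ := by
    rw [hφn]
    simp
  have key : ∀ z : ℂ, 0 < z.im → ‖φ z‖ ≤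
      ((z.im - z₀.im) / z₀.im + 1) * Real.exp (-((z.im - z₀.im) / z₀.im)) * ‖φ z₀‖ := by
    intro z hz
    have h1 := hmin' ⟨z, hz⟩
    have h2 : 0 < ‖deriv S.D z‖ := norm_pos_iff.2 (hcon ⟨z, hz⟩)
    have h3 : (z.im - z₀.im) / z₀.im + 1 = z.im / z₀.im := by
      field_simp
      ring
    rw [hφn z, hφ0, h3]
    have h4 : 1 / ‖deriv S.D z‖ ≤ z.im / z₀.im * (1 / ‖deriv S.D (z₀ : ℂ)‖) := by
      rw [div_mul_div_comm, mul_one, div_le_div_iff₀ h2 (mul_pos hy hD0), one_mul,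
        mul_comm z₀.im, mul_comm z.im]
      exact h1
    calc Real.exp (-((z.im - z₀.im) / z₀.im)) / ‖deriv S.D z‖
        = Real.exp (-((z.im - z₀.im) / z₀.im)) * (1 / ‖deriv S.D z‖) := by rw [mul_one_div]
      _ ≤ Real.exp (-((z.im - z₀.im) / z₀.im)) *
          (z.im / z₀.im * (1 / ‖deriv S.D (z₀ : ℂ)‖)) :=
          mul_le_mul_of_nonneg_left h4 (Real.exp_pos _).le
      _ = _ := by ring
  have hpos : 0 < ‖φ z₀‖ := by
    rw [hφ0]
    positivity
  have hmax : IsLocalMax (norm ∘ φ) (z₀ : ℂ) := by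
    change ∀ᶠ z in 𝓝 (z₀ : ℂ), ‖φ z‖ ≤ ‖φ z₀‖
    filter_upwards [isOpen_up.mem_nhds hy] with z hz
    refine (key z hz).trans ?_
    have h1 := Real.add_one_le_exp ((z.im - z₀.im) / z₀.im)
    have h2 : ((z.im - z₀.im) / z₀.im + 1) * Real.exp (-((z.im - z₀.im) / z₀.im)) ≤ 1 := by
      rw [Real.exp_neg, mul_inv_le_iff₀ (Real.exp_pos _), one_mul]
      exact h1
    calc _ ≤ 1 * ‖φ z₀‖ := mul_le_mul_of_nonneg_right h2 hpos.le
      _ = _ := one_mul _
  have hdiff : ∀ᶠ z in 𝓝 (z₀ : ℂ), DifferentiableAt ℂ φ z := by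
    filter_upwards [isOpen_up.mem_nhds hy] with z hz
    refine DifferentiableAt.div ?_ (hdd.differentiableAt (isOpen_up.mem_nhds hz)) (hcon ⟨z, hz⟩)
    fun_prop
  have hev := Complex.norm_eventually_eq_of_isLocalMax hdiff hmax
  have hlim : Tendsto (fun η : ℝ => (z₀ : ℂ) + η * Complex.I) (𝓝[>] 0) (𝓝 (z₀ : ℂ)) := by
    have h1 : Continuous fun η : ℝ => (z₀ : ℂ) + η * Complex.I := by fun_prop
    have h2 := h1.tendsto 0
    simp only [Complex.ofReal_zero, zero_mul, add_zero] at h2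
    exact h2.mono_left nhdsWithin_le_nhds
  obtain ⟨η, h1, h2⟩ := ((hlim.eventually hev).and self_mem_nhdsWithin).exists
  have hη : 0 < η := h2
  have him : ((z₀ : ℂ) + η * Complex.I).im = z₀.im + η := by simp
  have h3 := key ((z₀ : ℂ) + η * Complex.I) (by rw [him]; positivity)
  rw [h1, him] at h3
  have h4 : (z₀.im + η - z₀.im) / z₀.im ≠ 0 := by
    rw [add_sub_cancel_left]
    positivity
  have h5 := Real.add_one_lt_exp h4
  have h6 : ((z₀.im + η - z₀.im) / z₀.im + 1) *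
      Real.exp (-((z₀.im + η - z₀.im) / z₀.im)) < 1 := by
    rw [Real.exp_neg, mul_inv_lt_iff₀ (Real.exp_pos _), one_mul]
    exact h5
  have h7 := mul_lt_mul_of_pos_right h6 hpos
  rw [one_mul] at h7
  exact absurd h3 (not_le.2 h7)

end Pool.Agent.ANO.Cone
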