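import Pool.Agent.ANO.Cone.Dense
import Pool.Agent.ANO.Cone.Zero
import Pool.Agent.ANO.Cone.Rot
import Pool.Agent.ANO.Cone.Sector
import Pool.Agent.ANO.Cone.Prod

/-!
# ANO, Cone: the local data at a cone point
-/

set_option autoImplicit false

open Set Filter Topology
open scoped UpperHalfPlane

namespace Pool.Agent.ANO.Cone

variable {r k : ℕ}

private theorem model_iter (S : Fin r → PASurface) (A : Matrix (Fin k) (Fin k) ℤ) (m : ℕ)
    (p : X r k) : (∀ i, ((model S A)^[m] p).1 i = (S i).f^[m] (p.1 i)) ∧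
      (p.2 = 0 → ((model S A)^[m] p).2 = 0) := by
  induction m with
  | zero => exact ⟨fun i => rfl, fun h => h⟩
  | succ m ih =>
    rw [Function.iterate_succ_apply']
    refine ⟨fun i => ?_, fun h => ?_⟩
    · rw [Function.iterate_succ_apply', ← ih.1 i]
      rfl
    · show (A.map (Int.cast : ℤ → ℝ)).mulVec ((model S A)^[m] p).2 = 0
      rw [ih.2 h, Matrix.mulVec_zero]

/-- the deck transformation with the given components -/
private noncomputable def dk (γ : Fin r → Matrix.SpecialLinearGroup (Fin 2) ℝ) (p : X r k) : X r k :=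
  (fun i => γ i • p.1 i, p.2)

private theorem dk_deck {S : Fin r → PASurface} {γ : Fin r → Matrix.SpecialLinearGroup (Fin 2) ℝ}
    (h : ∀ i, γ i ∈ (S i).Γ) : IsDeck S k (dk γ) :=
  ⟨γ, 0, h, fun p => by simp [dk]⟩

/-- a product of lifts is a lift of a power of the model -/
private theorem lift_prod {S : Fin r → PASurface} (A : Matrix (Fin k) (Fin k) ℤ) {m : ℕ}
    {T : Fin r → ℍ → ℍ} (h : ∀ i, IsLift (S i) m (T i)) : ∃ g : X r k → X r k, IsDeck S k g ∧
      (∀ p i, (g ((model S A)^[m] p)).1 i = T i (p.1 i)) ∧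
      ∀ p, p.2 = 0 → (g ((model S A)^[m] p)).2 = 0 := by
  choose γ hγ hT using h
  refine ⟨dk γ, dk_deck hγ, fun p i => ?_, fun p hp => (model_iter S A m p).2 hp⟩
  show γ i • ((model S A)^[m] p).1 i = _
  rw [(model_iter S A m p).1 i, hT]

/-- the sectors of the product, `j = re` or `im` -/
private theorem chart_nhds {S : FlatSurface} {s : ℍ} {κ : ℕ} {ψ : ℂ → ℂ}
    (hψ : AnalyticAt ℂ ψ (s : ℂ)) (hD : ∀ᶠ z in 𝓝 (s : ℂ), S.D z = S.D s + ψ z ^ κ) :
    {z : ℍ | S.D z = S.D s + ψ z ^ κ ∧ ContinuousAt ψ (z : ℂ)} ∈ 𝓝 s := by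
  have h1 : ∀ᶠ z in 𝓝 (s : ℂ), S.D z = S.D s + ψ z ^ κ ∧ ContinuousAt ψ z := by
    filter_upwards [hD, hψ.eventually_analyticAt] with z h1 h2
    exact ⟨h1, h2.continuousAt⟩
  exact (UpperHalfPlane.continuous_coe.tendsto s).eventually h1

theorem exists_coneData (hr : 0 < r) (S : Fin r → PASurface) (A : Matrix (Fin k) (Fin k) ℤ)
    (G : ∀ i, SurfGeo (S i)) (L : LinGeo A) {N : ℕ} (hN : 0 < N) :
    Nonempty (ConeData (geomOf S A G L) N) := by
  obtain ⟨i0, -⟩ : ∃ i0 : Fin r, True := ⟨⟨0, hr⟩, trivial⟩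
  obtain ⟨s, hs⟩ := exists_zero (S i0).toFlatSurface
  obtain ⟨κ, ψ, hκ1, hψ, hψ0, hψ1, hD, hκ⟩ := exists_chart (S i0).toFlatSurface s
  have hκ2 : 2 ≤ κ := by
    rcases Nat.lt_or_ge 1 κ with h | h
    · exact h
    · exact absurd hs (hκ.1 (le_antisymm h hκ1))
  have hκ0 : 0 < κ := by omega
  obtain ⟨n0, hn0, T0, hT0, hT0s⟩ := exists_cone_lift (S i0) hs
  have hper : ∀ i, ∃ (z : ℍ) (n : ℕ) (T : ℍ → ℍ), deriv (S i).D (z : ℂ) ≠ 0 ∧ 0 < n ∧
      IsLift (S i) n T ∧ T z = z := by
    intro i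
    obtain ⟨z, -, h1, n, h2, -, T, h3, h4⟩ := dense_periodic (S i) isOpen_univ
      ⟨UpperHalfPlane.I, mem_univ _⟩ Nat.one_pos
    exact ⟨z, n, T, h1, h2, h3, h4⟩
  choose z n T hz hn hT hTz using hper
  obtain ⟨P, hP⟩ : ∃ P, P = ∏ i, n i := ⟨_, rfl⟩
  have hP0 : 0 < P := by
    rw [hP]
    exact Finset.prod_pos fun i _ => hn i
  have hPd : ∀ i, n i ∣ P := fun i => by
    rw [hP]
    exact Finset.dvd_prod_of_mem n (Finset.mem_univ i)
  -- the exponent
  obtain ⟨m, hm⟩ : ∃ m, m = n0 * (2 * κ * (N * P)) := ⟨_, rfl⟩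
  have hNP : 0 < N * P := Nat.mul_pos hN hP0
  have hm0 : 0 < m := by
    rw [hm]
    positivity
  have hmd : ∀ i, n i ∣ m := fun i => (hPd i).trans (by
    rw [hm]
    exact (dvd_mul_left P N).trans ((dvd_mul_left _ _).trans (dvd_mul_left _ _)))
  have hNm : N ∣ m := by
    rw [hm]
    exact (dvd_mul_right N P).trans ((dvd_mul_left _ _).trans (dvd_mul_left _ _))
  have hlift : ∀ i, IsLift (S i) m (if i = i0 then T0^[2 * κ * (N * P)] else (T i)^[m / n i]) := by
    intro i
    by_cases hi : i = i0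
    · subst hi
      rw [if_pos rfl, hm]
      exact hT0.iterate _
    · rw [if_neg hi]
      have h1 := (hT i).iterate (m / n i)
      rwa [Nat.mul_div_cancel' (hmd i)] at h1
  obtain ⟨g, hg, hg1, hg2⟩ := lift_prod A hlift
  set w : X r k := (fun i => if i = i0 then s else z i, 0) with hw
  have hw0 : w.1 i0 = s := if_pos rfl
  have hwi : ∀ i, i ≠ i0 → w.1 i = z i := fun i hi => if_neg hi
  have hproj : Tendsto (fun p : X r k => p.1 i0) (𝓝 w) (𝓝 s) := by
    have h1 : Continuous fun p : X r k => p.1 i0 := (continuous_apply i0).comp continuous_fst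
    have h2 := h1.tendsto w
    rwa [hw0] at h2
  set B : Set ℍ := {z | (S i0).D z = (S i0).D s + ψ z ^ κ ∧ ContinuousAt ψ (z : ℂ)} with hB
  have hBn : B ∈ 𝓝 s := chart_nhds hψ hD
  have hpw : ∀ z ∈ B, ψ (z : ℂ) ^ κ = (S i0).D z - (S i0).D s := by
    intro z hz
    rw [hz.1]
    ring
  obtain ⟨-, L0, hL0, hω⟩ := exists_coneFixed hn0 hT0 hT0s hκ0 hψ hψ0 hψ1 hD hNP
  have hinv : ∀ (τ : ℝ), (τ = 0 ∨ τ = 1 / 2) → ∀ᶠ p in 𝓝 w, ∀ e,
      ψ (p.1 i0 : ℂ) ∈ Sec κ τ e ↔
        ψ ((g ((model S A)^[m] p)).1 i0 : ℂ) ∈ Sec κ τ e := by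
    intro τ hτ
    filter_upwards [hproj.eventually hω] with p hp e
    obtain ⟨ω, h1, h2, h3⟩ := hp
    rw [hg1, if_pos rfl, h2]
    exact sec_inv hτ hκ0 (by linarith) h1 h3
  refine ⟨
    { κ := κ
      two_le := hκ2
      w := w
      g := g
      deck := hg
      m := m
      m_pos := hm0
      dvd := hNm
      fixed := ?_
      i0 := i0
      regular := fun i hi => by
        rw [hwi i hi]
        exact hz i
      H := T0^[2 * κ * (N * P)]
      coord := fun p => by rw [hg1, if_pos rfl]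
      cone := ?_
      XS := fun e => {p | ψ (p.1 i0 : ℂ) ∈ Sec κ 0 e}
      YS := fun e => {p | ψ (p.1 i0 : ℂ) ∈ Sec κ (1 / 2) e}
      adj := Eventually.of_forall fun p e e' h h' => sec_adj h h'
      closeX := ?_
      closeY := ?_
      invX := hinv 0 (Or.inl rfl)
      invY := hinv (1 / 2) (Or.inr rfl)
      dense := ?_ }⟩
  · -- the fixed point
    refine Prod.ext (funext fun i => ?_) ((hg2 w rfl).trans rfl)
    rw [hg1]
    by_cases hi : i = i0
    · subst hi
      rw [if_pos rfl, hw0]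
      exact Function.iterate_fixed hT0s _
    · rw [if_neg hi, hwi i hi]
      exact Function.iterate_fixed (hTz i) _
  · -- the cone
    intro j hj
    rw [hw0, ← Function.iterate_mul, mul_assoc]
    exact (exists_coneFixed hn0 hT0 hT0s hκ0 hψ hψ0 hψ1 hD (Nat.mul_pos hNP hj)).1
  · -- closeX
    obtain ⟨V, hV, hpath⟩ := (G i0).pathX s B hBn
    refine ⟨(fun p : X r k => p.1 i0) ⁻¹' (V ∩ B), hproj (inter_mem hV hBn), ?_⟩
    intro e z' hz' hz'e
    have h1 := hpw _ hz'.2
    have h2 : ((S i0).D (z'.1 i0)).re - ((S i0).D s).re ≠ 0 := by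
      have h3 := sec_re hz'e
      rwa [h1, Complex.sub_re] at h3
    refine ⟨|((S i0).D (z'.1 i0)).re - ((S i0).D s).re|, abs_pos.2 h2, fun z hz hlt => ?_⟩
    obtain ⟨c, hc, hc0, hc1, hcB⟩ := hpath _ hz.1 _ hz'.1
    have h3 := (du_le S A G L z z' i0).trans_lt hlt
    have h4 : ψ (c 0 : ℂ) ∈ Sec κ 0 e := by
      refine sec_path_re (c := fun t => ψ (c t : ℂ)) hκ0 ?_ ?_ ?_
      · intro t ht
        have h5 : ContinuousWithinAt (fun t => (c t : ℂ)) (Icc 0 1) t :=
          UpperHalfPlane.continuous_coe.continuousAt.comp_continuousWithinAt (hc t ht)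
        exact ContinuousAt.comp_continuousWithinAt (hcB t ht).1.2 h5
      · intro t ht h5
        rw [hpw _ (hcB t ht).1, Complex.sub_re] at h5
        have h6 := (hcB t ht).2.trans_lt h3
        have h7 : ((S i0).D (c t)).re = ((S i0).D s).re := by linarith
        rw [h7, abs_sub_comm] at h6
        exact lt_irrefl _ h6
      · beta_reduce
        rw [hc1]
        exact hz'e
    rw [hc0] at h4
    exact h4
  · -- closeY
    obtain ⟨V, hV, hpath⟩ := (G i0).pathY s B hBn
    refine ⟨(fun p : X r k => p.1 i0) ⁻¹' (V ∩ B), hproj (inter_mem hV hBn), ?_⟩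
    intro e z' hz' hz'e
    have h1 := hpw _ hz'.2
    have h2 : ((S i0).D (z'.1 i0)).im - ((S i0).D s).im ≠ 0 := by
      have h3 := sec_im hz'e
      rwa [h1, Complex.sub_im] at h3
    refine ⟨|((S i0).D (z'.1 i0)).im - ((S i0).D s).im|, abs_pos.2 h2, fun z hz hlt => ?_⟩
    obtain ⟨c, hc, hc0, hc1, hcB⟩ := hpath _ hz.1 _ hz'.1
    have h3 := (ds_le S A G L z z' i0).trans_lt hlt
    have h4 : ψ (c 0 : ℂ) ∈ Sec κ (1 / 2) e := by
      refine sec_path_im (c := fun t => ψ (c t : ℂ)) hκ0 ?_ ?_ ?_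
      · intro t ht
        have h5 : ContinuousWithinAt (fun t => (c t : ℂ)) (Icc 0 1) t :=
          UpperHalfPlane.continuous_coe.continuousAt.comp_continuousWithinAt (hc t ht)
        exact ContinuousAt.comp_continuousWithinAt (hcB t ht).1.2 h5
      · intro t ht h5
        rw [hpw _ (hcB t ht).1, Complex.sub_im] at h5
        have h6 := (hcB t ht).2.trans_lt h3
        have h7 : ((S i0).D (c t)).im = ((S i0).D s).im := by linarith
        rw [h7, abs_sub_comm] at h6
        exact lt_irrefl _ h6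
      · beta_reduce
        rw [hc1]
        exact hz'e
    rw [hc0] at h4
    exact h4
  · -- density
    intro e e' hadj V hV
    -- the slice through `w`
    set ins : ℍ → X r k := fun x => (Function.update w.1 i0 x, 0) with hins
    have hins_c1 : Continuous fun x : ℍ => Function.update w.1 i0 x :=
      continuous_const.update i0 continuous_id
    have hins_c : Continuous ins := hins_c1.prodMk continuous_const
    have hins_s : ins s = w := by
      refine Prod.ext ?_ rfl
      show Function.update w.1 i0 s = w.1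
      rw [← hw0, Function.update_eq_self]
    have hU : ins ⁻¹' V ∈ 𝓝 s := by
      refine hins_c.continuousAt.preimage_mem_nhds ?_
      rw [hins_s]
      exact hV
    -- small points in the quadrant
    obtain ⟨O, hOsub, hOo, hsO⟩ := mem_nhds_iff.1 (inter_mem hU hBn)
    have hψc : ContinuousOn (fun x : ℍ => ψ (x : ℂ)) O := fun x hx =>
      ((hOsub hx).2.2.comp UpperHalfPlane.continuous_coe.continuousAt).continuousWithinAt
    have hWo : IsOpen (O ∩ (fun x : ℍ => ψ (x : ℂ)) ⁻¹' (Sec κ 0 e ∩ Sec κ (1 / 2) e')) :=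
      hψc.isOpen_inter_preimage hOo ((sec_open hκ0 0 e).inter (sec_open hκ0 (1 / 2) e'))
    have hWne : (O ∩ (fun x : ℍ => ψ (x : ℂ)) ⁻¹' (Sec κ 0 e ∩ Sec κ (1 / 2) e')).Nonempty := by
      have h1 : (fun x : ℍ => (x : ℂ)) '' O ∈ 𝓝 (s : ℂ) :=
        (UpperHalfPlane.isOpenEmbedding_coe.isOpenMap O hOo).mem_nhds ⟨s, hsO, rfl⟩
      have h2 := hψ.hasStrictDerivAt.map_nhds_eq hψ1
      have h3 : ψ '' ((fun x : ℍ => (x : ℂ)) '' O) ∈ 𝓝 (ψ s) := by
        rw [← h2]
        exact image_mem_map h1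
      rw [hψ0] at h3
      obtain ⟨ρ, hρ, hball⟩ := Metric.mem_nhds_iff.1 h3
      obtain ⟨ζ, hζ1, hζ2, hζ3⟩ := sec_ex hκ0 hadj hρ
      obtain ⟨_, ⟨x, hx, rfl⟩, rfl⟩ := hball (mem_ball_zero_iff.2 hζ1)
      exact ⟨x, hx, hζ2, hζ3⟩
    obtain ⟨x, hx, hxr, n', hn', hNn', T', hT', hT'x⟩ := dense_periodic (S i0) hWo hWne hN
    have hNx := (hOsub hx.1).1
    refine ⟨ins x, hNx, ?_, ?_, ?_⟩
    · show ψ ((Function.update w.1 i0 x i0 : ℍ) : ℂ) ∈ Sec κ 0 e
      rw [Function.update_self]
      exact hx.2.1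
    · show ψ ((Function.update w.1 i0 x i0 : ℍ) : ℂ) ∈ Sec κ (1 / 2) e'
      rw [Function.update_self]
      exact hx.2.2
    · have hlift' : ∀ i, IsLift (S i) (n' * P)
          (if i = i0 then T'^[P] else (T i)^[n' * P / n i]) := by
        intro i
        by_cases hi : i = i0
        · subst hi
          rw [if_pos rfl]
          exact hT'.iterate _
        · rw [if_neg hi]
          have h1 := (hT i).iterate (n' * P / n i)
          rwa [Nat.mul_div_cancel' ((hPd i).trans (dvd_mul_left _ _))] at h1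
      obtain ⟨g', hg', hg1', hg2'⟩ := lift_prod A hlift'
      refine ⟨g', hg', n' * P, Nat.mul_pos hn' hP0, hNn'.trans (dvd_mul_right _ _), ?_, ?_⟩
      · refine Prod.ext (funext fun i => ?_) ((hg2' (ins x) rfl).trans rfl)
        rw [hg1']
        show _ = Function.update w.1 i0 x i
        by_cases hi : i = i0
        · subst hi
          rw [if_pos rfl]
          show T'^[P] (Function.update w.1 i x i) = Function.update w.1 i x i
          rw [Function.update_self]
          exact Function.iterate_fixed hT'x _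
        · rw [if_neg hi]
          show (T i)^[n' * P / n i] (Function.update w.1 i0 x i) = Function.update w.1 i0 x i
          rw [Function.update_of_ne hi, hwi i hi]
          exact Function.iterate_fixed (hTz i) _
      · intro i
        show deriv (S i).D ((Function.update w.1 i0 x i : ℍ) : ℂ) ≠ 0
        by_cases hi : i = i0
        · subst hi
          rw [Function.update_self]
          exact hxr
        · rw [Function.update_of_ne hi, hwi i hi]
          exact hz i

/-- the pseudo-distances of the product, from those of the surfaces -/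
noncomputable def geomWith (sg : ∀ S : PASurface, SurfGeo S) (S : Fin r → PASurface)
    (A : Matrix (Fin k) (Fin k) ℤ) (hA : IsHyperbolicMatrix A) : Geom S A :=
  geomOf S A (fun i => sg (S i)) (exists_linGeo A hA).some

theorem coneStatement (sg : ∀ S : PASurface, SurfGeo S) :
    ConeStatement fun S A hA => geomWith sg S A hA :=
  fun _ _ hr S A _ _ hN => exists_coneData hr S A _ _ hN

end Pool.Agent.ANO.Cone
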