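import Pool.Agent.ANO.Geo.Iface
import Pool.Agent.ANO.Cone.Final

/-!
# ANO, Cone: from the module `Geo` to `SurfGeo`
-/

set_option autoImplicit false

open Set Filter Topology
open scoped UpperHalfPlane ENNReal

namespace Pool.Agent.ANO.Cone

open Pool.Agent.ANO.Geo

private theorem le_of_ofReal {a : ℝ} {b : ℝ} (hb : 0 ≤ b) {e : ℝ≥0∞}
    (h1 : ENNReal.ofReal a ≤ e) (h2 : e ≤ ENNReal.ofReal b) : a ≤ b :=
  (ENNReal.ofReal_le_ofReal_iff hb).1 (h1.trans h2)

private theorem path_aux {S : FlatSurface} (h : Props S) (s : ℍ) {B : Set ℍ} (hB : B ∈ 𝓝 s) :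
    ∃ V ∈ 𝓝 s, ∀ z ∈ V, ∀ z' ∈ V, ∃ c : ℝ → ℍ,
      ContinuousOn c (Icc 0 1) ∧ c 0 = z ∧ c 1 = z' ∧ ∀ t ∈ Icc (0 : ℝ) 1,
        c t ∈ B ∧ |(S.D (c t)).re - (S.D z').re| ≤ du S z z' ∧
          |(S.D (c t)).im - (S.D z').im| ≤ ds S z z' := by
  obtain ⟨r, hr, hrB⟩ := Metric.mem_nhds_iff.1 hB
  obtain ⟨m, hm, hlow⟩ := h.lower (r / 2) (by linarith)
  obtain ⟨δ, hδ, hsm⟩ := h.small (m / 2) (by linarith)
  refine ⟨Metric.ball s (min (δ / 2) (r / 2)), Metric.ball_mem_nhds _ (by positivity), ?_⟩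
  intro z hz z' hz'
  obtain ⟨c, hc, hx, hy⟩ := h.attained z z'
  have hzδ : dist z s < δ / 2 := (Metric.mem_ball.1 hz).trans_le (min_le_left _ _)
  have hzδ' : dist z' s < δ / 2 := (Metric.mem_ball.1 hz').trans_le (min_le_left _ _)
  have hzr : dist z s < r / 2 := (Metric.mem_ball.1 hz).trans_le (min_le_right _ _)
  have hzz : dist z z' < δ := (dist_triangle_right z z' s).trans_lt (by linarith)
  obtain ⟨h1, h2⟩ := hsm z z' hzz
  refine ⟨c, hc.cont, hc.left, hc.right, fun t ht => ?_⟩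
  have ht0 : (0 : ℝ) ∈ Icc (0 : ℝ) 1 := ⟨le_rfl, zero_le_one⟩
  have ht1 : (1 : ℝ) ∈ Icc (0 : ℝ) 1 := ⟨zero_le_one, le_rfl⟩
  have hsub : Icc (0 : ℝ) t ⊆ Icc 0 1 := Icc_subset_Icc le_rfl ht.2
  have hpath : IsPath z (c t) 0 t c := ⟨ht.1, hc.cont.mono hsub, hc.left, rfl⟩
  have h3 : du S z (c t) ≤ du S z z' := by
    refine le_of_ofReal (h.du_nonneg _ _) (h.du_le _ _ _ _ _ hpath) ?_
    rw [← hx]
    exact eVariationOn.mono _ hsub
  have h4 : ds S z (c t) ≤ ds S z z' := by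
    refine le_of_ofReal (h.ds_nonneg _ _) (h.ds_le _ _ _ _ _ hpath) ?_
    rw [← hy]
    exact eVariationOn.mono _ hsub
  have h5 : dist z (c t) < r / 2 := by
    by_contra hcon
    have := hlow z (c t) (not_lt.1 hcon)
    linarith
  refine ⟨hrB (Metric.mem_ball.2 ?_), ?_, ?_⟩
  · calc dist (c t) s ≤ dist z (c t) + dist z s := by
          rw [dist_comm z (c t)]
          exact dist_triangle _ _ _
      _ < r := by linarith
  · have h6 := eVariationOn.edist_le (fun t => (S.D (c t)).re) ht ht1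
    rw [hx, edist_dist, Real.dist_eq] at h6
    beta_reduce at h6
    rw [hc.right] at h6
    exact (ENNReal.ofReal_le_ofReal_iff (h.du_nonneg _ _)).1 h6
  · have h6 := eVariationOn.edist_le (fun t => (S.D (c t)).im) ht ht1
    rw [hy, edist_dist, Real.dist_eq] at h6
    beta_reduce at h6
    rw [hc.right] at h6
    exact (ENNReal.ofReal_le_ofReal_iff (h.ds_nonneg _ _)).1 h6

/-- the structure `SurfGeo` from the results of the module `Geo` -/
noncomputable def surfGeoOf (hp : PropsStatement) (hs : ScaleStatement) (S : PASurface) :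
    SurfGeo S where
  du := du S.toFlatSurface
  ds := ds S.toFlatSurface
  du_nonneg := (hp _).du_nonneg
  ds_nonneg := (hp _).ds_nonneg
  du_symm := (hp _).du_symm
  ds_symm := (hp _).ds_symm
  du_triangle := (hp _).du_triangle
  ds_triangle := (hp _).ds_triangle
  du_inv := (hp _).du_inv
  ds_inv := (hp _).ds_inv
  du_f a b := (hs S a b).1
  ds_f a b := by
    rw [(hs S a b).2, ← mul_assoc, mul_inv_cancel₀ (by linarith [S.one_lt] : S.l ≠ 0), one_mul]
  upper := (hp _).upper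
  proper := (hp _).proper
  eq_of_zero := (hp _).eq_of_zero
  pathX s B hB := by
    obtain ⟨V, hV, h⟩ := path_aux (hp S.toFlatSurface) s hB
    refine ⟨V, hV, fun z hz z' hz' => ?_⟩
    obtain ⟨c, h1, h2, h3, h4⟩ := h z hz z' hz'
    exact ⟨c, h1, h2, h3, fun t ht => ⟨(h4 t ht).1, (h4 t ht).2.1⟩⟩
  pathY s B hB := by
    obtain ⟨V, hV, h⟩ := path_aux (hp S.toFlatSurface) s hB
    refine ⟨V, hV, fun z hz z' hz' => ?_⟩
    obtain ⟨c, h1, h2, h3, h4⟩ := h z hz z' hz'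
    exact ⟨c, h1, h2, h3, fun t ht => ⟨(h4 t ht).1, (h4 t ht).2.2⟩⟩

/-- **Result of the modules `Geo` and `Cone`.** -/
noncomputable def geom (hp : PropsStatement) (hs : ScaleStatement) {r k : ℕ}
    (S : Fin r → PASurface) (A : Matrix (Fin k) (Fin k) ℤ) (hA : IsHyperbolicMatrix A) :
    Geom S A :=
  geomWith (surfGeoOf hp hs) S A hA

theorem coneStatement_geom (hp : PropsStatement) (hs : ScaleStatement) :
    ConeStatement fun S A hA => geom hp hs S A hA :=
  coneStatement (surfGeoOf hp hs)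

end Pool.Agent.ANO.Cone
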