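import Pool.Agent.ANO.Defs

/-!
# ANO, Cone: normal form of the developing map at a point

* `normal_form`: let `κ` be the order of `f - f z₀` at `z₀` (`AnalyticAt.exists_eventuallyEq_pow_smul_nonzero_iff`
  or `analyticOrderAt`): `f z = f z₀ + (z - z₀) ^ κ * g z` near `z₀`, `g` analytic, `g z₀ ≠ 0`. Then
  `κ ≥ 1` (the value of `f - f z₀` is zero) and `κ = 1` iff `f' z₀ ≠ 0` (derivative of the right hand side).
  Let `a ^ κ = g z₀` (`IsAlgClosed.exists_pow_nat_eq`) and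
  `ψ z = (z - z₀) * (a * exp (log (g z / g z₀) / κ))`; `g z / g z₀` is near `1`, in the slit plane, so `ψ` is
  analytic, `ψ ^ κ = (z - z₀) ^ κ g`, `ψ' z₀ = a ≠ 0`.
* `not_const`: identity theorem on the half plane (`AnalyticOnNhd.eqOn_of_preconnected_of_eventuallyEq`).
-/

set_option autoImplicit false

open Set Filter Topology
open scoped UpperHalfPlane

namespace Pool.Agent.ANO.Cone

/-- Normal form of an analytic function which is not constant near `z₀`. -/
theorem normal_form {f : ℂ → ℂ} {z₀ : ℂ} (hf : AnalyticAt ℂ f z₀)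
    (hne : ¬ ∀ᶠ z in 𝓝 z₀, f z = f z₀) : ∃ (κ : ℕ) (ψ : ℂ → ℂ), 1 ≤ κ ∧ AnalyticAt ℂ ψ z₀ ∧
      ψ z₀ = 0 ∧ deriv ψ z₀ ≠ 0 ∧ (∀ᶠ z in 𝓝 z₀, f z = f z₀ + ψ z ^ κ) ∧
      (κ = 1 ↔ deriv f z₀ ≠ 0) := by
  have hF : AnalyticAt ℂ (fun z => f z - f z₀) z₀ := hf.sub analyticAt_const
  have hF0 : ¬ ∀ᶠ z in 𝓝 z₀, f z - f z₀ = 0 := by
    intro h
    exact hne (h.mono fun z hz => sub_eq_zero.mp hz)
  obtain ⟨n, g, hg, hg0, hFg⟩ := hF.exists_eventuallyEq_pow_smul_nonzero_iff.mpr hF0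
  have hn : 1 ≤ n := by
    rcases Nat.eq_zero_or_pos n with h | h
    · exfalso
      subst h
      have h1 := hFg.self_of_nhds
      simp at h1
      exact hg0 h1.symm
    · exact h
  have hnC : (n : ℂ) ≠ 0 := by exact_mod_cast (by omega : n ≠ 0)
  obtain ⟨a, ha⟩ := IsAlgClosed.exists_pow_nat_eq (g z₀) hn
  have ha0 : a ≠ 0 := by
    rintro rfl
    rw [zero_pow (by omega)] at ha
    exact hg0 ha.symm
  have hw : AnalyticAt ℂ (fun z => g z / g z₀) z₀ := hg.div analyticAt_const hg0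
  have hw1 : g z₀ / g z₀ = 1 := div_self hg0
  have hh : AnalyticAt ℂ (fun z => a * Complex.exp (Complex.log (g z / g z₀) / n)) z₀ := by
    refine analyticAt_const.mul (AnalyticAt.cexp ?_)
    refine (AnalyticAt.clog hw ?_).div analyticAt_const hnC
    rw [hw1]
    exact Complex.one_mem_slitPlane
  have hid : AnalyticAt ℂ (fun z : ℂ => z - z₀) z₀ := analyticAt_id.sub analyticAt_const
  have hpsi : AnalyticAt ℂ
      (fun z => (z - z₀) * (a * Complex.exp (Complex.log (g z / g z₀) / n))) z₀ := hid.mul hh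
  have hder : HasDerivAt (fun z => (z - z₀) * (a * Complex.exp (Complex.log (g z / g z₀) / n)))
      a z₀ := by
    have h1 : HasDerivAt (fun z : ℂ => z - z₀) 1 z₀ := (hasDerivAt_id z₀).sub_const z₀
    have h2 := h1.mul hh.differentiableAt.hasDerivAt
    have h3 : (1 : ℂ) * (a * Complex.exp (Complex.log (g z₀ / g z₀) / n)) +
        (z₀ - z₀) * deriv (fun z => a * Complex.exp (Complex.log (g z / g z₀) / n)) z₀ = a := by
      rw [hw1]
      simp
    rw [h3] at h2
    exact h2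
  have hev : ∀ᶠ z in 𝓝 z₀, f z = f z₀ +
      ((z - z₀) * (a * Complex.exp (Complex.log (g z / g z₀) / n))) ^ n := by
    have hne0 : ∀ᶠ z in 𝓝 z₀, g z ≠ 0 := hg.continuousAt.eventually_ne hg0
    filter_upwards [hFg, hne0] with z hz hz0
    have hzz : g z / g z₀ ≠ 0 := div_ne_zero hz0 hg0
    have he : Complex.exp (Complex.log (g z / g z₀) / n) ^ n = g z / g z₀ := by
      rw [← Complex.exp_nat_mul, mul_div_cancel₀ _ hnC, Complex.exp_log hzz]
    rw [mul_pow, mul_pow, he, ha, mul_div_cancel₀ _ hg0]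
    rw [smul_eq_mul] at hz
    rw [← hz]
    ring
  refine ⟨n, _, hn, hpsi, by simp, ?_, hev, ?_⟩
  · rw [hder.deriv]
    exact ha0
  · have hd : deriv f z₀ = n * ((z₀ - z₀) *
        (a * Complex.exp (Complex.log (g z₀ / g z₀) / n))) ^ (n - 1) * a := by
      rw [Filter.EventuallyEq.deriv_eq hev]
      exact ((hder.pow n).const_add (f z₀)).deriv
    rw [hd]
    constructor
    · intro h
      subst h
      simpa using ha0
    · intro h
      by_contra h1
      apply h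
      have : n - 1 ≠ 0 := by omega
      simp [this]

/-- `D` is analytic -/
theorem analyticAt_D (S : FlatSurface) (s : ℍ) : AnalyticAt ℂ S.D (s : ℂ) :=
  S.holo.analyticAt ((isOpen_lt continuous_const Complex.continuous_im).mem_nhds s.2)

/-- `D` is not constant near a point -/
theorem not_const (S : FlatSurface) (s : ℍ) : ¬ ∀ᶠ z in 𝓝 (s : ℂ), S.D z = S.D s := by
  intro h
  have hU : IsPreconnected {z : ℂ | 0 < z.im} := (convex_halfSpace_im_gt 0).isPreconnected
  have h1 : AnalyticOnNhd ℂ S.D {z : ℂ | 0 < z.im} :=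
    S.holo.analyticOnNhd (isOpen_lt continuous_const Complex.continuous_im)
  have h2 : AnalyticOnNhd ℂ (fun _ : ℂ => S.D s) {z : ℂ | 0 < z.im} := analyticOnNhd_const
  have h3 := h1.eqOn_of_preconnected_of_eventuallyEq h2 hU (z₀ := (s : ℂ)) s.2 h
  obtain ⟨z, w, hzw⟩ := S.nonconst
  exact hzw ((h3 z.2).trans (h3 w.2).symm)

/-- the normal form of `D` -/
theorem exists_chart (S : FlatSurface) (s : ℍ) : ∃ (κ : ℕ) (ψ : ℂ → ℂ), 1 ≤ κ ∧
    AnalyticAt ℂ ψ (s : ℂ) ∧ ψ s = 0 ∧ deriv ψ s ≠ 0 ∧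
      (∀ᶠ z in 𝓝 (s : ℂ), S.D z = S.D s + ψ z ^ κ) ∧ (κ = 1 ↔ deriv S.D s ≠ 0) :=
  normal_form (analyticAt_D S s) (not_const S s)

end Pool.Agent.ANO.Cone
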