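import Pool.Agent.ANO.Cone.Lift

/-!
# ANO, Cone: recurrence

**Proof of `exists_return`.** Suppose the contrary: no lift `T = γ f ^ n` with `n > 0`, `n₀ ∣ n`
  has
`T R ∩ R ≠ ∅`. Let `K` be compact with `Γ K = ℍ`, `M` as in `finite_mult` for `K`, and
  `a = vol D(R) > 0`.
For `j : ℕ` let `R_j = f ^ (n₀ j) (R)`, a compact set, `D` is injective on `R_j`
(`D f^n = ε stretch D + c`), and `vol D(R_j) = a` (the map `ζ ↦ ε stretch l ζ + c` preserves the
  Lebesgue measure: determinant `± 1`).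
1. The set `Γ_j` of the maps `g : ℍ → ℍ`, `g = γ • ·` with `γ ∈ Γ`, `g R_j ∩ K ≠ ∅` is finite
  (`S.proper` for
   the compact set `R_j ∪ K`). Since `Γ K = ℍ`, `D(R_j)` is the union of the `D(R_j ∩ g⁻¹ K)`,
  `g ∈ Γ_j`, and
   `vol D(R_j ∩ g⁻¹ K) = vol D(g R_j ∩ K)` (`S.equivar`). So `a ≤ ∑_{g ∈ Γ_j} vol D(g R_j ∩ K)`.
2. The compact sets `Q = g R_j ∩ K`, `j < N`, `g ∈ Γ_j`, are pairwise disjoint: if
  `g f^(n₀ j) z = g' f^(n₀ j') z'`
   with `j < j'` then `z = δ f^(n₀ (j' - j)) z'` with `δ ∈ Γ` (`smul_iter`), excluded. If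
  `j = j'` then
   `z' = δ z` (`IsLift.eq`), so `δ` acts trivially (`hfree`), and `g = g'`.
3. `D` is injective on every `Q`. For `ζ : ℂ` the number of the `Q` with `ζ ∈ D(Q)` is at most
  the number
   of `z ∈ K` with `D z = ζ` (disjointness), so at most `M`, and zero if `ζ ∉ D(K)`. Integration
  gives
   `∑_Q vol D(Q) ≤ M vol D(K) < ∞` (`D(Q)` is compact, so measurable;
  `MeasureTheory.lintegral_finset_sum`).
So `N a ≤ M vol D(K)` for all `N`, a contradiction.
-/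

set_option autoImplicit false

open Set Filter Topology MeasureTheory
open scoped UpperHalfPlane

namespace Pool.Agent.ANO.Cone

private noncomputable def strLM (l e : ℝ) : ℂ →ₗ[ℝ] ℂ where
  toFun z := ⟨e * l * z.re, e * l⁻¹ * z.im⟩
  map_add' z w := by
    apply Complex.ext
    · simp only [Complex.add_re]
      ring
    · simp only [Complex.add_im]
      ring
  map_smul' a z := by
    apply Complex.ext
    · simp
      ring
    · simp
      ring

private lemma det_strLM {l : ℝ} (hl : 0 < l) (e : ℝ) : LinearMap.det (strLM l e) = e ^ 2 := by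
  rw [← LinearMap.det_toMatrix Complex.basisOneI, Matrix.det_fin_two]
  simp only [LinearMap.toMatrix_apply, Complex.coe_basisOneI, Complex.coe_basisOneI_repr]
  simp [strLM]
  field_simp

private lemma volume_strLM {l : ℝ} (hl : 0 < l) {e : ℝ} (he : e ^ 2 = 1) (c : ℂ) (B : Set ℂ) :
    volume ((fun ζ : ℂ => strLM l e ζ + c) '' B) = volume B := by
  have h1 : (fun ζ : ℂ => strLM l e ζ + c) '' B = (fun ζ : ℂ => ζ + c) '' (strLM l e '' B) := by
    rw [image_image]
  have h2 : volume ((fun ζ : ℂ => ζ + c) '' (strLM l e '' B)) = volume (strLM l e '' B) := by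
    rw [image_add_right, measure_preimage_add_right]
  rw [h1, h2, Measure.addHaar_image_linearMap, det_strLM hl, he]
  simp

/-- the affine maps `ζ ↦ ε (l x + i l⁻¹ y) + c` preserve the area -/
theorem volume_affine {l : ℝ} (hl : 0 < l) {ε : ℂ} (hε : ε = 1 ∨ ε = -1) (c : ℂ) (B : Set ℂ) :
    volume ((fun ζ : ℂ => ε * stretch l ζ + c) '' B) = volume B := by
  obtain ⟨e, he, hf⟩ : ∃ e : ℝ, e ^ 2 = 1 ∧ ∀ ζ : ℂ, ε * stretch l ζ = strLM l e ζ := by
    rcases hε with rfl | rfl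
    · refine ⟨1, one_pow 2, fun ζ => ?_⟩
      rw [one_mul]
      apply Complex.ext
      · simp [stretch, strLM]
      · simp [stretch, strLM]
    · refine ⟨-1, by norm_num, fun ζ => ?_⟩
      rw [neg_one_mul]
      apply Complex.ext
      · simp [stretch, strLM]
      · simp [stretch, strLM]
  have h1 : (fun ζ : ℂ => ε * stretch l ζ + c) = fun ζ => strLM l e ζ + c := by
    funext ζ
    rw [hf]
  rw [h1]
  exact volume_strLM hl he c B

private lemma stretch_one' (z : ℂ) : stretch 1 z = z := by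
  apply Complex.ext <;> simp [stretch]

private lemma continuous_D (S : FlatSurface) : Continuous fun z : ℍ => S.D z := by
  rw [continuous_iff_continuousAt]
  intro z
  exact ContinuousAt.comp (f := fun z : ℍ => (z : ℂ)) (g := S.D) (analyticAt_D S z).continuousAt
    UpperHalfPlane.continuous_coe.continuousAt

private lemma isLift_iter (S : PASurface) (n : ℕ) : IsLift S n S.f^[n] :=
  ⟨1, S.Γ.one_mem, fun z => (one_smul _ _).symm⟩

private lemma inj_iter (S : PASurface) (n : ℕ) : Function.Injective S.f^[n] :=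
  S.f.injective.iterate n

private lemma surj_iter (S : PASurface) (n : ℕ) : Function.Surjective S.f^[n] :=
  S.f.surjective.iterate n

private lemma volume_iter (S : PASurface) (n : ℕ) (R : Set ℍ) :
    volume ((fun z : ℍ => S.D z) '' (S.f^[n] '' R)) = volume ((fun z : ℍ => S.D z) '' R) := by
  obtain ⟨ε, c, hε, h⟩ := (isLift_iter S n).affine
  have h1 : (fun z : ℍ => S.D z) '' (S.f^[n] '' R) =
      (fun ζ : ℂ => ε * stretch (S.l ^ n) ζ + c) '' ((fun z : ℍ => S.D z) '' R) := by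
    rw [image_image, image_image]
    exact image_congr fun z _ => h z
  rw [h1]
  exact volume_affine (pow_pos (lt_trans one_pos S.one_lt) n) hε c _

private lemma volume_smul (S : PASurface) {γ : Matrix.SpecialLinearGroup (Fin 2) ℝ}
    (hγ : γ ∈ S.Γ) (B : Set ℍ) :
    volume ((fun z : ℍ => S.D z) '' ((fun z : ℍ => γ • z) '' B)) =
      volume ((fun z : ℍ => S.D z) '' B) := by
  obtain ⟨ε, c, hε, h⟩ := S.equivar γ hγ
  have h1 : (fun z : ℍ => S.D z) '' ((fun z : ℍ => γ • z) '' B) =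
      (fun ζ : ℂ => ε * stretch 1 ζ + c) '' ((fun z : ℍ => S.D z) '' B) := by
    rw [image_image, image_image]
    refine image_congr fun z _ => ?_
    rw [stretch_one']
    exact h z
  rw [h1]
  exact volume_affine one_pos hε c _

open Classical in
private lemma sum_volume_le (S : FlatSurface) {K : Set ℍ} (hK : IsCompact K) {M : ℕ}
    (hM : ∀ ζ : ℂ, {z : ℍ | z ∈ K ∧ S.D z = ζ}.encard ≤ M) {ι : Type} (I : Finset ι)
    (Q : ι → Set ℍ) (hQ : ∀ i ∈ I, IsCompact (Q i)) (hQK : ∀ i ∈ I, Q i ⊆ K)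
    (hd : ∀ i ∈ I, ∀ j ∈ I, i ≠ j → Disjoint (Q i) (Q j)) :
    ∑ i ∈ I, volume ((fun z : ℍ => S.D z) '' Q i) ≤
      M * volume ((fun z : ℍ => S.D z) '' K) := by
  have hDc := continuous_D S
  have hmeas : ∀ i ∈ I, MeasurableSet ((fun z : ℍ => S.D z) '' Q i) := fun i hi =>
    ((hQ i hi).image hDc).isClosed.measurableSet
  have hmeasK : MeasurableSet ((fun z : ℍ => S.D z) '' K) := (hK.image hDc).isClosed.measurableSet
  have h1 : ∑ i ∈ I, volume ((fun z : ℍ => S.D z) '' Q i) =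
      ∫⁻ ζ : ℂ, ∑ i ∈ I, ((fun z : ℍ => S.D z) '' Q i).indicator 1 ζ := by
    rw [lintegral_finsetSum' _ fun i hi => (measurable_one.indicator (hmeas i hi)).aemeasurable]
    exact Finset.sum_congr rfl fun i hi => (lintegral_indicator_one (hmeas i hi)).symm
  have h2 : (M : ENNReal) * volume ((fun z : ℍ => S.D z) '' K) =
      ∫⁻ ζ : ℂ, M * ((fun z : ℍ => S.D z) '' K).indicator 1 ζ := by
    rw [lintegral_const_mul _ (measurable_one.indicator hmeasK), lintegral_indicator_one hmeasK]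
  rw [h1, h2]
  refine lintegral_mono fun ζ => ?_
  have h3 : ∑ i ∈ I, ((fun z : ℍ => S.D z) '' Q i).indicator (1 : ℂ → ENNReal) ζ =
      ((I.filter fun i => ζ ∈ (fun z : ℍ => S.D z) '' Q i).card : ENNReal) := by
    rw [Finset.card_filter, Nat.cast_sum]
    refine Finset.sum_congr rfl fun i _ => ?_
    by_cases h : ζ ∈ (fun z : ℍ => S.D z) '' Q i
    · rw [indicator_of_mem h, if_pos h, Pi.one_apply, Nat.cast_one]
    · rw [indicator_of_notMem h, if_neg h, Nat.cast_zero]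
  show ∑ i ∈ I, ((fun z : ℍ => S.D z) '' Q i).indicator (1 : ℂ → ENNReal) ζ ≤ _
  rw [h3]
  by_cases hζ : ζ ∈ (fun z : ℍ => S.D z) '' K
  · rw [indicator_of_mem hζ, Pi.one_apply, mul_one]
    choose! z hz using fun (i : ι) (hi : ζ ∈ (fun z : ℍ => S.D z) '' Q i) => hi
    have h4 : ((I.filter fun i => ζ ∈ (fun z : ℍ => S.D z) '' Q i).image z : Set ℍ) ⊆
        {z : ℍ | z ∈ K ∧ S.D z = ζ} := by
      intro x hx
      rw [Finset.mem_coe, Finset.mem_image] at hx
      obtain ⟨i, hi, rfl⟩ := hx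
      rw [Finset.mem_filter] at hi
      exact ⟨hQK i hi.1 (hz i hi.2).1, (hz i hi.2).2⟩
    have h5 := (encard_le_encard h4).trans (hM ζ)
    rw [encard_coe_eq_coe_finsetCard, Finset.card_image_of_injOn] at h5
    · exact_mod_cast h5
    · intro i hi j hj hij
      rw [Finset.mem_coe, Finset.mem_filter] at hi hj
      by_contra hne
      have h6 := hd i hi.1 j hj.1 hne
      exact (disjoint_left.1 h6) (hz i hi.2).1 (hij ▸ (hz j hj.2).1)
  · have h4 : (I.filter fun i => ζ ∈ (fun z : ℍ => S.D z) '' Q i) = ∅ := by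
      rw [Finset.filter_eq_empty_iff]
      intro i hi h
      exact hζ (image_mono (hQK i hi) h)
    rw [h4, Finset.card_empty, Nat.cast_zero]
    exact zero_le

private lemma rel_of_eq (S : PASurface) {m m' : ℕ} (hm : m ≤ m')
    {γ γ' : Matrix.SpecialLinearGroup (Fin 2) ℝ} (hγ : γ ∈ S.Γ) (hγ' : γ' ∈ S.Γ) {p p' : ℍ}
    (h : γ • S.f^[m] p = γ' • S.f^[m'] p') : ∃ δ ∈ S.Γ, p = δ • S.f^[m' - m] p' ∧
      ∀ z : ℍ, S.f^[m] (δ • z) = (γ⁻¹ * γ') • S.f^[m] z := by
  obtain ⟨δ, hδ, h1⟩ := smul_iter S m (S.Γ.mul_mem (S.Γ.inv_mem hγ) hγ')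
  refine ⟨δ, hδ, ?_, h1⟩
  apply inj_iter S m
  rw [h1, ← Function.iterate_add_apply, Nat.add_sub_cancel' hm, mul_smul, ← h, inv_smul_smul]

theorem exists_return (S : PASurface) {R : Set ℍ} (hR : IsCompact R)
    (hinj : InjOn (fun z : ℍ => S.D z) R) (hvol : volume ((fun z : ℍ => S.D z) '' R) ≠ 0)
    (hfree : ∀ γ ∈ S.Γ, (∃ z ∈ R, γ • z ∈ R) → ∀ w : ℍ, γ • w = w) {n₀ : ℕ} (hn : 0 < n₀) :
    ∃ n, 0 < n ∧ n₀ ∣ n ∧ ∃ T, IsLift S n T ∧ ∃ p ∈ R, T p ∈ R := by
  classical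
  by_contra hcon
  push Not at hcon
  obtain ⟨K, hK, hKc⟩ := S.cocompact
  obtain ⟨M, hM⟩ := finite_mult S.toFlatSurface hK
  have hDc := continuous_D S.toFlatSurface
  -- the compact sets `R_j`
  have hRj : ∀ j, IsCompact (S.f^[n₀ * j] '' R) := fun j =>
    hR.image (isLift_iter S (n₀ * j)).continuous
  have hfin := fun j => S.proper _ ((hRj j).union hK)
  obtain ⟨G, hG⟩ : ∃ G : ℕ → Finset (ℍ → ℍ), ∀ j, ∀ g, g ∈ G j ↔
      ∃ γ, (γ ∈ S.Γ ∧ ∃ z ∈ S.f^[n₀ * j] '' R ∪ K, γ • z ∈ S.f^[n₀ * j] '' R ∪ K) ∧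
        (fun z : ℍ => γ • z) = g := by
    refine ⟨fun j => (hfin j).toFinset.image fun γ z => γ • z, fun j g => ?_⟩
    rw [Finset.mem_image]
    constructor
    · rintro ⟨γ, hγ, rfl⟩
      exact ⟨γ, (hfin j).mem_toFinset.1 hγ, rfl⟩
    · rintro ⟨γ, hγ, rfl⟩
      exact ⟨γ, (hfin j).mem_toFinset.2 hγ, rfl⟩
  -- the sets `Q`
  obtain ⟨Q, hQ⟩ : ∃ Q : (Σ _ : ℕ, ℍ → ℍ) → Set ℍ, Q = fun i =>
      (i.2 '' (S.f^[n₀ * i.1] '' R)) ∩ K := ⟨_, rfl⟩
  have key : ∀ N : ℕ, (N : ENNReal) * volume ((fun z : ℍ => S.D z) '' R) ≤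
      M * volume ((fun z : ℍ => S.D z) '' K) := by
    intro N
    have h1 := sum_volume_le S.toFlatSurface hK hM ((Finset.range N).sigma fun j => G j) Q ?_ ?_ ?_
    · refine le_trans ?_ h1
      rw [Finset.sum_sigma]
      have h2 : (N : ENNReal) * volume ((fun z : ℍ => S.D z) '' R) =
          ∑ _j ∈ Finset.range N, volume ((fun z : ℍ => S.D z) '' R) := by
        rw [Finset.sum_const, Finset.card_range, nsmul_eq_mul]
      rw [h2]
      refine Finset.sum_le_sum fun j _ => ?_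
      -- `vol D(R_j) ≤ ∑ vol D(g R_j ∩ K)`
      rw [← volume_iter S (n₀ * j) R]
      have h3 : (fun z : ℍ => S.D z) '' (S.f^[n₀ * j] '' R) ⊆ ⋃ g ∈ G j,
          (fun z : ℍ => S.D z) '' ((S.f^[n₀ * j] '' R) ∩ g ⁻¹' K) := by
        rintro _ ⟨x, hx, rfl⟩
        obtain ⟨γ, hγ, hγx⟩ := hKc x
        refine mem_iUnion₂.2 ⟨fun z => γ • z, (hG j _).2 ⟨γ, ⟨hγ, x, Or.inl hx, Or.inr hγx⟩,
          rfl⟩, x, ⟨hx, hγx⟩, rfl⟩
      refine (measure_mono h3).trans ((measure_biUnion_finset_le _ _).trans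
        (Finset.sum_le_sum fun g hg => ?_))
      obtain ⟨γ, ⟨hγ, -⟩, rfl⟩ := (hG j g).1 hg
      have h4 : (fun z : ℍ => γ • z) '' ((S.f^[n₀ * j] '' R) ∩ (fun z : ℍ => γ • z) ⁻¹' K) =
          Q ⟨j, fun z => γ • z⟩ := by
        rw [hQ, image_inter_preimage]
      rw [← h4, volume_smul S hγ]
    · rintro ⟨j, g⟩ hi
      rw [Finset.mem_sigma] at hi
      obtain ⟨γ, -, hγ⟩ := (hG j g).1 hi.2
      have hgc : Continuous g := by
        rw [← hγ]
        exact continuous_const_smul γ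
      rw [hQ]
      exact ((hRj j).image hgc).inter_right hK.isClosed
    · intro i _
      rw [hQ]
      exact inter_subset_right
    · -- disjointness
      have haux : ∀ j j' : ℕ, j ≤ j' → ∀ g g' : ℍ → ℍ, g ∈ G j → g' ∈ G j' → ∀ z,
          z ∈ Q ⟨j, g⟩ → z ∈ Q ⟨j', g'⟩ → j = j' ∧ g = g' := by
        intro j j' hjj g g' hg hg' z hz hz'
        obtain ⟨γ, ⟨hγ, -⟩, rfl⟩ := (hG j g).1 hg
        obtain ⟨γ', ⟨hγ', -⟩, rfl⟩ := (hG j' g').1 hg'
        rw [hQ] at hz hz'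
        obtain ⟨⟨_, ⟨p, hp, rfl⟩, hz1⟩, -⟩ := hz
        obtain ⟨⟨_, ⟨p', hp', rfl⟩, hz2⟩, -⟩ := hz'
        have he : γ • S.f^[n₀ * j] p = γ' • S.f^[n₀ * j'] p' := hz1.trans hz2.symm
        obtain ⟨δ, hδ, h5, h6⟩ := rel_of_eq S (Nat.mul_le_mul_left n₀ hjj) hγ hγ' he
        rw [← Nat.mul_sub] at h5
        have hjeq : j = j' := by
          by_contra hne
          have hlt : 0 < j' - j := by omega
          refine hcon (n₀ * (j' - j)) (Nat.mul_pos hn hlt) (dvd_mul_right _ _)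
            (fun z => δ • S.f^[n₀ * (j' - j)] z) ⟨δ, hδ, fun z => rfl⟩ p' hp' ?_
          show δ • S.f^[n₀ * (j' - j)] p' ∈ R
          rw [← h5]
          exact hp
        refine ⟨hjeq, ?_⟩
        subst hjeq
        rw [Nat.sub_self, mul_zero, Function.iterate_zero_apply] at h5
        have h7 := hfree δ hδ ⟨p', hp', h5 ▸ hp⟩
        funext x
        obtain ⟨y, rfl⟩ := surj_iter S (n₀ * j) x
        have h8 := h6 y
        rw [h7, mul_smul] at h8
        show γ • S.f^[n₀ * j] y = γ' • S.f^[n₀ * j] y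
        rw [eq_inv_smul_iff] at h8
        exact h8
      rintro ⟨j, g⟩ hi ⟨j', g'⟩ hi' hne
      rw [Finset.mem_sigma] at hi hi'
      rw [disjoint_left]
      intro z hz hz'
      apply hne
      rcases le_total j j' with h | h
      · obtain ⟨h1, h2⟩ := haux j j' h g g' hi.2 hi'.2 z hz hz'
        rw [h1, h2]
      · obtain ⟨h1, h2⟩ := haux j' j h g' g hi'.2 hi.2 z hz' hz
        rw [h1, h2]
  have hfinK : volume ((fun z : ℍ => S.D z) '' K) ≠ ⊤ := (hK.image hDc).measure_lt_top.ne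
  obtain ⟨N, hN⟩ := ENNReal.exists_nat_mul_gt hvol
    (ENNReal.mul_ne_top (ENNReal.natCast_ne_top M) hfinK)
  exact absurd (key N) (not_le.2 hN)

end Pool.Agent.ANO.Cone
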