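import Pool.Agent.ANO.Cone.Box
import Pool.Agent.ANO.Cone.Return

/-!
# ANO, Cone: density of the regular periodic points (A9)

`V` contains a regular point `z₀` (`eventually_regular`). Take a neighbourhood `V'` of `z₀` in `V` as in
`box_free`, a box `χ : Sq ρ → V'`, `R = χ '' {|Re|, |Im| ≤ ρ / 16}` (compact, `D` is injective on it,
`D(R)` is a closed square), and `n₀ = N j` with `l ^ n₀ > 8`. `exists_return` gives a lift `T` of `f ^ n`
and `p`, `T p ∈ R`, `n₀ ∣ n`, so `l ^ n > 8`; `box_fixed` gives a fixed point of `T` in `χ '' Sq ρ`.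
-/

set_option autoImplicit false

open Set Filter Topology
open scoped UpperHalfPlane

namespace Pool.Agent.ANO.Cone

/-- the closed square -/
private def cSq (ρ : ℝ) : Set ℂ := {ζ | |ζ.re| ≤ ρ ∧ |ζ.im| ≤ ρ}

private theorem isCompact_cSq (ρ : ℝ) : IsCompact (cSq ρ) := by
  have h1 : cSq ρ = Icc (-ρ) ρ ×ℂ Icc (-ρ) ρ := by
    ext ζ
    simp only [cSq, mem_setOf_eq, abs_le, Complex.mem_reProdIm, mem_Icc]
  rw [h1]
  exact isCompact_Icc.reProdIm isCompact_Icc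

private theorem isOpen_Sq (ρ : ℝ) : IsOpen (Sq ρ) := by
  have h1 : Sq ρ = {ζ : ℂ | |ζ.re| < ρ} ∩ {ζ : ℂ | |ζ.im| < ρ} := rfl
  rw [h1]
  exact (isOpen_lt (continuous_abs.comp Complex.continuous_re) continuous_const).inter
    (isOpen_lt (continuous_abs.comp Complex.continuous_im) continuous_const)

theorem dense_periodic (S : PASurface) {V : Set ℍ} (hV : IsOpen V) (hne : V.Nonempty) {N : ℕ}
    (hN : 0 < N) : ∃ z ∈ V, deriv S.D (z : ℂ) ≠ 0 ∧ ∃ n, 0 < n ∧ N ∣ n ∧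
      ∃ T, IsLift S n T ∧ T z = z := by
  obtain ⟨v, hv⟩ := hne
  obtain ⟨z₀, hz₀, hz₀V⟩ : ∃ z₀ : ℍ, deriv S.D (z₀ : ℂ) ≠ 0 ∧ z₀ ∈ V := by
    have h0 : Tendsto (fun z : ℍ => (z : ℂ)) (𝓝[≠] v) (𝓝[≠] (v : ℂ)) := by
      refine tendsto_nhdsWithin_iff.2 ⟨?_, ?_⟩
      · exact (UpperHalfPlane.continuous_coe.tendsto v).mono_left nhdsWithin_le_nhds
      · filter_upwards [self_mem_nhdsWithin] with z hz h
        exact hz (UpperHalfPlane.ext h)
    have h1 := (h0.eventually (eventually_regular S.toFlatSurface v)).and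
      (mem_nhdsWithin_of_mem_nhds (hV.mem_nhds hv))
    exact h1.exists
  obtain ⟨W, hW, hfree⟩ := box_free S.toFlatSurface z₀
  obtain ⟨ρ, χ, hχ, hχV⟩ := exists_box S.toFlatSurface hz₀ (inter_mem hW (hV.mem_nhds hz₀V))
  have hρ := hχ.pos
  have hsub : cSq (ρ / 16) ⊆ Sq (ρ / 8) := by
    intro ζ hζ
    exact ⟨hζ.1.trans_lt (by linarith), hζ.2.trans_lt (by linarith)⟩
  have hsub8 : Sq (ρ / 8) ⊆ Sq ρ := by
    intro ζ hζ
    exact ⟨hζ.1.trans (by linarith), hζ.2.trans (by linarith)⟩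
  set R : Set ℍ := χ '' cSq (ρ / 16) with hR
  have hRc : IsCompact R :=
    (isCompact_cSq _).image_of_continuousOn (hχ.cont.mono (hsub.trans hsub8))
  have hinj : InjOn (fun z : ℍ => S.D z) R := by
    rintro _ ⟨ζ, hζ, rfl⟩ _ ⟨ζ', hζ', rfl⟩ h
    beta_reduce at h
    rw [hχ.dev ζ (hsub8 (hsub hζ)), hχ.dev ζ' (hsub8 (hsub hζ'))] at h
    rw [add_left_cancel h]
  have hvol : MeasureTheory.volume ((fun z : ℍ => S.D z) '' R) ≠ 0 := by
    have h1 : (fun w : ℂ => w - S.D z₀) ⁻¹' Sq (ρ / 16) ⊆ (fun z : ℍ => S.D z) '' R := by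
      intro w hw
      have hw' : w - S.D z₀ ∈ Sq (ρ / 16) := hw
      have hw2 : w - S.D z₀ ∈ cSq (ρ / 16) := ⟨hw'.1.le, hw'.2.le⟩
      refine ⟨χ (w - S.D z₀), ⟨_, hw2, rfl⟩, ?_⟩
      show S.D (χ (w - S.D z₀)) = w
      rw [hχ.dev _ (hsub8 (hsub hw2))]
      ring
    have h2 : IsOpen ((fun w : ℂ => w - S.D z₀) ⁻¹' Sq (ρ / 16)) :=
      (isOpen_Sq _).preimage (continuous_id.sub continuous_const)
    have h3 : ((fun w : ℂ => w - S.D z₀) ⁻¹' Sq (ρ / 16)).Nonempty := by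
      refine ⟨S.D z₀, ?_⟩
      show S.D z₀ - S.D z₀ ∈ Sq (ρ / 16)
      rw [sub_self]
      refine ⟨?_, ?_⟩ <;> simp <;> linarith
    exact ((h2.measure_pos MeasureTheory.volume h3).trans_le (MeasureTheory.measure_mono h1)).ne'
  have hfree' : ∀ γ ∈ S.Γ, (∃ z ∈ R, γ • z ∈ R) → ∀ w : ℍ, γ • w = w := by
    intro γ hγ hz
    obtain ⟨z, ⟨ζ, hζ, rfl⟩, ζ', hζ', hz'⟩ := hz
    refine hfree γ hγ ⟨_, (hχV ζ (hsub8 (hsub hζ))).1, ?_⟩
    rw [← hz']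
    exact (hχV ζ' (hsub8 (hsub hζ'))).1
  obtain ⟨j, hj⟩ := pow_unbounded_of_one_lt (8 : ℝ) S.one_lt
  have hj0 : 0 < j := by
    rcases Nat.eq_zero_or_pos j with rfl | h
    · norm_num at hj
    · exact h
  obtain ⟨n, hn, hdvd, T, hT, p, ⟨ζp, hζp, rfl⟩, ζq, hζq, hq⟩ :=
    exists_return S hRc hinj hvol hfree' (Nat.mul_pos hN hj0)
  obtain ⟨ε, c, hε, haff⟩ := hT.affine
  have hL : 8 < S.l ^ n := by
    refine hj.trans_le (pow_le_pow_right₀ S.one_lt.le ?_)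
    exact (Nat.le_mul_of_pos_left j hN).trans (Nat.le_of_dvd hn hdvd)
  obtain ⟨ζ, hζ, hfix⟩ := box_fixed hχ hT.continuous hL hε haff (hsub hζp) (hsub hζq) hq.symm
  exact ⟨χ ζ, (hχV ζ hζ).2, hχ.regular ζ hζ, n, hn, (dvd_mul_right N j).trans hdvd, T, hT, hfix⟩

end Pool.Agent.ANO.Cone
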