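import Pool.Agent.ANO.Cone.Local

/-!
# ANO, Cone: lifts of powers of a pseudo-Anosov homeomorphism

`IsLift S n T`: `T = γ f ^ n` with `γ ∈ Γ`.
-/

set_option autoImplicit false

open Set Filter Topology
open scoped UpperHalfPlane

namespace Pool.Agent.ANO.Cone

/-- `T = γ f ^ n` -/
def IsLift (S : PASurface) (n : ℕ) (T : ℍ → ℍ) : Prop :=
  ∃ γ ∈ S.Γ, ∀ z : ℍ, T z = γ • (S.f^[n] z)

variable {S : PASurface} {n n' : ℕ} {T T' : ℍ → ℍ}

theorem stretch_smul (l : ℝ) {ε : ℂ} (hε : ε = 1 ∨ ε = -1) (z : ℂ) :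
    stretch l (ε * z) = ε * stretch l z := by
  rcases hε with rfl | rfl <;> apply Complex.ext <;> simp [stretch]

theorem stretch_add (l : ℝ) (z w : ℂ) : stretch l (z + w) = stretch l z + stretch l w := by
  apply Complex.ext <;> simp [stretch, mul_add]

theorem stretch_sub (l : ℝ) (z w : ℂ) : stretch l (z - w) = stretch l z - stretch l w := by
  apply Complex.ext <;> simp [stretch, mul_sub]

theorem stretch_stretch (l l' : ℝ) (z : ℂ) : stretch l (stretch l' z) = stretch (l * l') z := by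
  apply Complex.ext <;> simp [stretch, mul_assoc, mul_left_comm]

private theorem stretch_one (z : ℂ) : stretch 1 z = z := by
  apply Complex.ext <;> simp [stretch]

private theorem stretch_injective {l : ℝ} (hl : l ≠ 0) : Function.Injective (stretch l) := by
  intro z w h
  have h1 := congrArg Complex.re h
  have h2 := congrArg Complex.im h
  simp only [stretch] at h1 h2
  exact Complex.ext (mul_left_cancel₀ hl h1) (mul_left_cancel₀ (inv_ne_zero hl) h2)

/-- `f ^ n γ = γ' f ^ n` -/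
theorem iter_smul (S : PASurface) (n : ℕ) {γ : Matrix.SpecialLinearGroup (Fin 2) ℝ}
    (hγ : γ ∈ S.Γ) : ∃ γ' ∈ S.Γ, ∀ z : ℍ, S.f^[n] (γ • z) = γ' • (S.f^[n] z) := by
  induction n generalizing γ with
  | zero => exact ⟨γ, hγ, fun z => rfl⟩
  | succ n ih =>
    obtain ⟨γ₁, h₁, h⟩ := S.normalizes γ hγ
    obtain ⟨γ', h', hh⟩ := ih h₁
    refine ⟨γ', h', fun z => ?_⟩
    rw [Function.iterate_succ_apply, h, hh, Function.iterate_succ_apply]

/-- `γ' f ^ n = f ^ n γ` -/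
theorem smul_iter (S : PASurface) (n : ℕ) {γ' : Matrix.SpecialLinearGroup (Fin 2) ℝ}
    (hγ : γ' ∈ S.Γ) : ∃ γ ∈ S.Γ, ∀ z : ℍ, S.f^[n] (γ • z) = γ' • (S.f^[n] z) := by
  induction n generalizing γ' with
  | zero => exact ⟨γ', hγ, fun z => rfl⟩
  | succ n ih =>
    obtain ⟨γ₁, h₁, h⟩ := S.normalizes' γ' hγ
    obtain ⟨γ, h', hh⟩ := ih h₁
    refine ⟨γ, h', fun z => ?_⟩
    rw [Function.iterate_succ_apply', hh, h, Function.iterate_succ_apply']

theorem IsLift.comp (h : IsLift S n T) (h' : IsLift S n' T') : IsLift S (n + n') (T ∘ T') := by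
  obtain ⟨γ, hγ, h⟩ := h
  obtain ⟨γ', hγ', h'⟩ := h'
  obtain ⟨γ'', hγ'', h''⟩ := iter_smul S n hγ'
  refine ⟨γ * γ'', mul_mem hγ hγ'', fun z => ?_⟩
  rw [Function.comp_apply, h, h', h'', mul_smul, Function.iterate_add_apply]

theorem IsLift.iterate (h : IsLift S n T) (j : ℕ) : IsLift S (n * j) T^[j] := by
  induction j with
  | zero => exact ⟨1, one_mem _, fun z => by simp⟩
  | succ j ih =>
    rw [Nat.mul_succ, Function.iterate_succ]
    exact ih.comp h

theorem IsLift.smul (h : IsLift S n T) {γ : Matrix.SpecialLinearGroup (Fin 2) ℝ}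
    (hγ : γ ∈ S.Γ) : IsLift S n fun z => γ • T z := by
  obtain ⟨γ', hγ', h⟩ := h
  exact ⟨γ * γ', mul_mem hγ hγ', fun z => by
    change γ • T z = _
    rw [h, mul_smul]⟩

private theorem sign_mul {ε ε' : ℂ} (h : ε = 1 ∨ ε = -1) (h' : ε' = 1 ∨ ε' = -1) :
    ε * ε' = 1 ∨ ε * ε' = -1 := by
  rcases h with rfl | rfl <;> rcases h' with rfl | rfl <;> simp

private theorem iter_affine (S : PASurface) (n : ℕ) : ∃ ε c : ℂ, (ε = 1 ∨ ε = -1) ∧
    ∀ z : ℍ, S.D (S.f^[n] z) = ε * stretch (S.l ^ n) (S.D z) + c := by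
  induction n with
  | zero => exact ⟨1, 0, Or.inl rfl, fun z => by simp [stretch_one]⟩
  | succ n ih =>
    obtain ⟨ε, c, hε, h⟩ := ih
    obtain ⟨ε₁, c₁, hε₁, h₁⟩ := S.affine
    refine ⟨ε₁ * ε, ε₁ * stretch S.l c + c₁, sign_mul hε₁ hε, fun z => ?_⟩
    rw [Function.iterate_succ_apply', h₁, h, stretch_add, stretch_smul _ hε, stretch_stretch,
      pow_succ']
    ring

theorem IsLift.affine (h : IsLift S n T) : ∃ ε c : ℂ, (ε = 1 ∨ ε = -1) ∧
    ∀ z : ℍ, S.D (T z) = ε * stretch (S.l ^ n) (S.D z) + c := by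
  obtain ⟨γ, hγ, h⟩ := h
  obtain ⟨ε, c, hε, h1⟩ := iter_affine S n
  obtain ⟨ε₁, c₁, hε₁, h₁⟩ := S.equivar γ hγ
  refine ⟨ε₁ * ε, ε₁ * c + c₁, sign_mul hε₁ hε, fun z => ?_⟩
  rw [h, h₁, h1]
  ring

private theorem iter_homeo (S : PASurface) (n : ℕ) : ∃ e : ℍ ≃ₜ ℍ, ∀ z, e z = S.f^[n] z := by
  induction n with
  | zero => exact ⟨Homeomorph.refl _, fun z => rfl⟩
  | succ n ih =>
    obtain ⟨e, he⟩ := ih
    refine ⟨S.f.trans e, fun z => ?_⟩
    rw [Homeomorph.trans_apply, he, Function.iterate_succ_apply]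

/-- a lift is a homeomorphism -/
theorem IsLift.exists_homeo (h : IsLift S n T) : ∃ e : ℍ ≃ₜ ℍ, ∀ z, e z = T z := by
  obtain ⟨γ, hγ, h⟩ := h
  obtain ⟨e, he⟩ := iter_homeo S n
  refine ⟨e.trans (Homeomorph.smul γ), fun z => ?_⟩
  rw [Homeomorph.trans_apply, h, he]
  rfl

theorem IsLift.continuous (h : IsLift S n T) : Continuous T := by
  obtain ⟨e, he⟩ := h.exists_homeo
  have : T = e := funext fun z => (he z).symm
  rw [this]
  exact e.continuous

/-- by `regular_homeo` -/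
theorem IsLift.regular (h : IsLift S n T) (z : ℍ) :
    deriv S.D (T z : ℂ) ≠ 0 ↔ deriv S.D (z : ℂ) ≠ 0 := by
  obtain ⟨e, he⟩ := h.exists_homeo
  obtain ⟨ε, c, hε, h1⟩ := h.affine
  rw [← he z]
  have hl : S.l ^ n ≠ 0 := pow_ne_zero _ (by linarith [S.one_lt])
  have hε0 : ε ≠ 0 := by
    rcases hε with h | h <;> rw [h] <;> simp
  refine regular_homeo S.toFlatSurface e (a := fun ζ => ε * stretch (S.l ^ n) ζ + c) ?_ ?_ z
  · intro ζ ζ' hh
    exact stretch_injective hl (mul_left_cancel₀ hε0 (add_right_cancel hh))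
  · intro w
    rw [he w]
    exact h1 w

/-- If `T z = T' z'` for two lifts of the same power, then `z' = δ • z` with `δ ∈ Γ`. -/
theorem IsLift.eq (h : IsLift S n T) (h' : IsLift S n T') {z z' : ℍ} (he : T z = T' z') :
    ∃ δ ∈ S.Γ, z' = δ • z ∧ ((∀ w : ℍ, δ • w = w) → T = T') := by
  obtain ⟨γ, hγ, h⟩ := h
  obtain ⟨γ', hγ', h'⟩ := h'
  obtain ⟨δ, hδ, hh⟩ := smul_iter S n (mul_mem (inv_mem hγ') hγ)
  have hinj : Function.Injective (S.f^[n]) := S.f.injective.iterate n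
  refine ⟨δ, hδ, hinj ?_, fun ht => funext fun w => ?_⟩
  · rw [hh, mul_smul, ← h, he, h', inv_smul_smul]
  · have h1 := hh w
    rw [ht w] at h1
    rw [h, h']
    conv_rhs => rw [h1]
    rw [mul_smul, smul_inv_smul]

/-- a lift over a cone point: the orbit of `s` meets only finitely many classes of cone points.
Let `K` be compact with `Γ K = ℍ`; for `i : ℕ` choose `γ_i ∈ Γ` with `γ_i f ^ i s ∈ K`; these points are
zeros of `D'` (`IsLift.regular`), so they belong to a finite set (`finite_zeros`), and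
`γ_i f ^ i s = γ_j f ^ j s` for some `i < j` (pigeonhole, `Finset.exists_ne_map_eq_of_infinite`). By
`smul_iter` and the injectivity of `f ^ i` there is `δ ∈ Γ` with `s = δ f ^ (j - i) s`. -/
theorem exists_cone_lift (S : PASurface) {s : ℍ} (hs : deriv S.D (s : ℂ) = 0) :
    ∃ n, 0 < n ∧ ∃ T, IsLift S n T ∧ T s = s := by
  obtain ⟨K, hK, hKc⟩ := S.cocompact
  choose g hg hgK using fun i : ℕ => hKc (S.f^[i] s)
  have hfin := finite_zeros S.toFlatSurface hK
  have hmem : ∀ i : ℕ, g i • (S.f^[i] s) ∈ {z : ℍ | z ∈ K ∧ deriv S.D (z : ℂ) = 0} := by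
    intro i
    refine ⟨hgK i, ?_⟩
    have hl : IsLift S i fun z => g i • (S.f^[i] z) := ⟨g i, hg i, fun z => rfl⟩
    by_contra hne
    exact ((hl.regular s).1 hne) hs
  have key : ∃ i j : ℕ, i < j ∧ g i • (S.f^[i] s) = g j • (S.f^[j] s) := by
    have := hfin.to_subtype
    obtain ⟨i, j, hij, he⟩ := Finite.exists_ne_map_eq_of_infinite
      (fun i : ℕ => (⟨g i • (S.f^[i] s), hmem i⟩ : {z : ℍ | z ∈ K ∧ deriv S.D (z : ℂ) = 0}))
    have he' := congrArg Subtype.val he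
    rcases lt_or_gt_of_ne hij with h | h
    · exact ⟨i, j, h, he'⟩
    · exact ⟨j, i, h, he'.symm⟩
  obtain ⟨i, j, hij, he⟩ := key
  obtain ⟨δ, hδ, hh⟩ := smul_iter S i (mul_mem (inv_mem (hg i)) (hg j))
  refine ⟨j - i, by omega, fun z => δ • (S.f^[j - i] z), ⟨δ, hδ, fun z => rfl⟩, ?_⟩
  have hinj : Function.Injective (S.f^[i]) := S.f.injective.iterate i
  apply hinj
  rw [hh, ← Function.iterate_add_apply, mul_smul]
  have : i + (j - i) = j := by omega
  rw [this, ← he, inv_smul_smul]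

end Pool.Agent.ANO.Cone
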