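import Pool.Agent.ANO.Cone.Chart

/-!
# ANO, Cone: local properties of the developing map

Everything follows from the normal form `D = D s + ψ ^ κ` (`exists_chart`); `ψ` is injective near `s` and
maps a neighbourhood of `s` onto a neighbourhood of `0` (inverse function theorem,
`HasStrictDerivAt.toOpenPartialHomeomorph`, `HasStrictDerivAt.map_nhds_eq`). Points of `ℍ` and of the half
plane: `UpperHalfPlane.isOpenEmbedding_coe`.

* `local_mult`: `{z ∈ V | D z = ζ}` is mapped by the injective `ψ` to the roots of `X ^ κ = ζ - D s`, at most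
  `κ` (`Polynomial.card_nthRoots` or `card_roots'`).
* `finite_mult`: cover the compact set by finitely many `V`.
* `regular_iff`: if `D' s ≠ 0` then `D` is injective near `s`. If `D' s = 0` then `κ ≥ 2`, and every
  neighbourhood `V` of `s` contains points `z ≠ z'` with `ψ z = a`, `ψ z' = exp (2 π i / κ) a`, `a ≠ 0` small.
* `eventually_regular`: the zeros of `D'` are isolated (`D'` is analytic, not zero near `s` since `D` is not
  constant near `s`): `AnalyticAt.eventually_eq_zero_or_eventually_ne_zero`.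
* `finite_zeros`: a compact set contains only finitely many of them (closed and discrete).
-/

set_option autoImplicit false

open Set Filter Topology
open scoped UpperHalfPlane

namespace Pool.Agent.ANO.Cone

private theorem loc_roots {κ : ℕ} (hκ : 1 ≤ κ) (a : ℂ) : {w : ℂ | w ^ κ = a}.encard ≤ κ := by
  have h1 : {w : ℂ | w ^ κ = a} = ((Polynomial.nthRoots κ a).toFinset : Set ℂ) := by
    ext w
    simp [Polynomial.mem_nthRoots (Nat.lt_of_lt_of_le Nat.zero_lt_one hκ)]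
  have h2 : (Polynomial.nthRoots κ a).toFinset.card ≤ κ :=
    (Multiset.toFinset_card_le _).trans (Polynomial.card_nthRoots _ _)
  rw [h1, Set.encard_coe_eq_coe_finsetCard]
  exact Nat.cast_le.2 h2

private theorem loc_cont : Continuous fun z : ℍ => (z : ℂ) :=
  UpperHalfPlane.isOpenEmbedding_coe.continuous

private theorem loc_inj : Function.Injective fun z : ℍ => (z : ℂ) :=
  UpperHalfPlane.isOpenEmbedding_coe.injective

/-- an analytic function with nonzero derivative is injective near the point -/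
private theorem loc_injOn {f : ℂ → ℂ} {z₀ : ℂ} (hf : AnalyticAt ℂ f z₀) (hd : deriv f z₀ ≠ 0) :
    ∃ V ∈ 𝓝 z₀, InjOn f V := by
  have h1 := hf.hasStrictDerivAt
  have h2 := h1.eventually_left_inverse hd
  refine ⟨_, h2, ?_⟩
  intro x hx y hy hxy
  have hx' : h1.localInverse f (deriv f z₀) z₀ hd (f x) = x := hx
  have hy' : h1.localInverse f (deriv f z₀) z₀ hd (f y) = y := hy
  rw [← hx', hxy, hy']

theorem local_mult (S : FlatSurface) (s : ℍ) : ∃ V ∈ 𝓝 s, ∃ M : ℕ, ∀ ζ : ℂ,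
    {z : ℍ | z ∈ V ∧ S.D z = ζ}.encard ≤ M := by
  obtain ⟨κ, ψ, hκ, hψ, _, hd, hD, _⟩ := exists_chart S s
  obtain ⟨V₀, hV₀, hinj⟩ := loc_injOn hψ hd
  have hW : V₀ ∩ {z : ℂ | S.D z = S.D s + ψ z ^ κ} ∈ 𝓝 (s : ℂ) := inter_mem hV₀ hD
  refine ⟨_, loc_cont.continuousAt.preimage_mem_nhds hW, κ, fun ζ => ?_⟩
  refine le_trans ?_ (loc_roots hκ (ζ - S.D s))
  apply Set.encard_le_encard_of_injOn (f := fun z : ℍ => ψ z)
  · rintro z ⟨⟨_, hz2⟩, hz3⟩
    have h2 : S.D z = S.D s + ψ z ^ κ := hz2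
    show ψ z ^ κ = ζ - S.D s
    rw [← hz3, h2]
    ring
  · rintro z ⟨⟨hz1, _⟩, _⟩ w ⟨⟨hw1, _⟩, _⟩ hzw
    exact loc_inj (hinj hz1 hw1 hzw)

theorem finite_mult (S : FlatSurface) {K : Set ℍ} (hK : IsCompact K) : ∃ M : ℕ, ∀ ζ : ℂ,
    {z : ℍ | z ∈ K ∧ S.D z = ζ}.encard ≤ M := by
  refine hK.induction_on
    (p := fun T => ∃ M : ℕ, ∀ ζ : ℂ, {z : ℍ | z ∈ T ∧ S.D z = ζ}.encard ≤ M) ?_ ?_ ?_ ?_
  · refine ⟨0, fun ζ => ?_⟩
    simp
  · rintro T T' hT ⟨M, hM⟩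
    refine ⟨M, fun ζ => ?_⟩
    have h1 : {z : ℍ | z ∈ T ∧ S.D z = ζ} ⊆ {z : ℍ | z ∈ T' ∧ S.D z = ζ} :=
      fun z hz => ⟨hT hz.1, hz.2⟩
    exact (Set.encard_le_encard h1).trans (hM ζ)
  · rintro T T' ⟨M, hM⟩ ⟨M', hM'⟩
    refine ⟨M + M', fun ζ => ?_⟩
    have h1 : {z : ℍ | z ∈ T ∪ T' ∧ S.D z = ζ} ⊆
        {z : ℍ | z ∈ T ∧ S.D z = ζ} ∪ {z : ℍ | z ∈ T' ∧ S.D z = ζ} := by
      rintro z ⟨hz | hz, hz2⟩
      · exact Or.inl ⟨hz, hz2⟩
      · exact Or.inr ⟨hz, hz2⟩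
    refine (Set.encard_le_encard h1).trans ((Set.encard_union_le _ _).trans ?_)
    push_cast
    exact add_le_add (hM ζ) (hM' ζ)
  · intro s _
    obtain ⟨V, hV, M, hM⟩ := local_mult S s
    exact ⟨V, mem_nhdsWithin_of_mem_nhds hV, M, hM⟩

theorem regular_iff (S : FlatSurface) (s : ℍ) :
    deriv S.D (s : ℂ) ≠ 0 ↔ ∃ V ∈ 𝓝 s, InjOn (fun z : ℍ => S.D z) V := by
  constructor
  · intro hd
    obtain ⟨V₀, hV₀, hinj⟩ := loc_injOn (analyticAt_D S s) hd
    exact ⟨_, loc_cont.continuousAt.preimage_mem_nhds hV₀, fun z hz w hw hzw =>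
      loc_inj (hinj hz hw hzw)⟩
  · rintro ⟨V, hV, hinj⟩
    by_contra hd
    obtain ⟨κ, ψ, hκ, hψ, h0, hdψ, hD, h1⟩ := exists_chart S s
    have hκ1 : κ ≠ 1 := fun h => (h1.1 h) hd
    have hκ2 : 1 < κ := lt_of_le_of_ne hκ (Ne.symm hκ1)
    have hV' : (fun z : ℍ => (z : ℂ)) '' V ∈ 𝓝 (s : ℂ) :=
      UpperHalfPlane.isOpenEmbedding_coe.isOpenMap.image_mem_nhds hV
    have hW : ((fun z : ℍ => (z : ℂ)) '' V) ∩ {z : ℂ | S.D z = S.D s + ψ z ^ κ} ∈ 𝓝 (s : ℂ) :=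
      inter_mem hV' hD
    set W := ((fun z : ℍ => (z : ℂ)) '' V) ∩ {z : ℂ | S.D z = S.D s + ψ z ^ κ} with hWd
    have h2 : ψ '' W ∈ 𝓝 (0 : ℂ) := by
      have h3 := hψ.hasStrictDerivAt.map_nhds_eq hdψ
      rw [h0] at h3
      rw [← h3]
      exact image_mem_map hW
    set ω : ℂ := Complex.exp (2 * Real.pi * Complex.I / κ) with hω
    have hprim : IsPrimitiveRoot ω κ := Complex.isPrimitiveRoot_exp κ (by omega)
    have h3 : {a : ℂ | ω * a ∈ ψ '' W} ∈ 𝓝 (0 : ℂ) := by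
      have h4 : ContinuousAt (fun a : ℂ => ω * a) 0 := by fun_prop
      apply h4.preimage_mem_nhds
      rw [mul_zero]
      exact h2
    have h5 : ∃ a : ℂ, a ≠ 0 ∧ a ∈ ψ '' W ∧ ω * a ∈ ψ '' W := by
      have h6 : ∀ᶠ a in 𝓝[≠] (0 : ℂ), a ∈ ψ '' W ∧ ω * a ∈ ψ '' W :=
        mem_nhdsWithin_of_mem_nhds (inter_mem h2 h3)
      obtain ⟨a, ha, ha0⟩ := (h6.and self_mem_nhdsWithin).exists
      exact ⟨a, ha0, ha.1, ha.2⟩
    obtain ⟨a, ha0, ⟨z, hz, hza⟩, ⟨w, hw, hwa⟩⟩ := h5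
    obtain ⟨⟨u, hu, hu'⟩, hz2⟩ := hz
    obtain ⟨⟨v, hv, hv'⟩, hw2⟩ := hw
    have h6 : S.D z = S.D w := by
      have h7 : S.D z = S.D s + ψ z ^ κ := hz2
      have h8 : S.D w = S.D s + ψ w ^ κ := hw2
      rw [h7, h8, hza, hwa, mul_pow, hprim.pow_eq_one, one_mul]
    have hu'' : (u : ℂ) = z := hu'
    have hv'' : (v : ℂ) = w := hv'
    have h7 : u = v := hinj hu hv (by
      show S.D u = S.D v
      rw [hu'', hv'', h6])
    have h8 : z = w := by rw [← hu'', ← hv'', h7]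
    have h9 : ω * a = 1 * a := by rw [← hwa, ← h8, hza, one_mul]
    exact hprim.ne_one hκ2 (mul_right_cancel₀ ha0 h9)

theorem eventually_regular (S : FlatSurface) (s : ℍ) :
    ∀ᶠ z in 𝓝[≠] s, deriv S.D (z : ℂ) ≠ 0 := by
  have h1 := (analyticAt_D S s).deriv
  rcases h1.eventually_eq_zero_or_eventually_ne_zero with h2 | h2
  · exfalso
    apply not_const S s
    have h3 := (analyticAt_D S s).eventually_analyticAt
    obtain ⟨ε, hε, hb⟩ := Metric.eventually_nhds_iff_ball.1 (h2.and h3)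
    have h4 : ∀ z ∈ Metric.ball (s : ℂ) ε, S.D z = S.D s := by
      intro z hz
      exact Metric.isOpen_ball.is_const_of_deriv_eq_zero
        (convex_ball (s : ℂ) ε).isPreconnected
        (fun w hw => (hb w hw).2.differentiableAt.differentiableWithinAt)
        (fun w hw => (hb w hw).1) hz (Metric.mem_ball_self hε)
    filter_upwards [Metric.ball_mem_nhds (s : ℂ) hε] with z hz using h4 z hz
  · exact h2

/-- the same with points of the half plane -/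
theorem eventually_regular' (S : FlatSurface) (s : ℍ) :
    ∀ᶠ z : ℍ in 𝓝[≠] s, deriv S.D (z : ℂ) ≠ 0 := by
  have h3 : Tendsto (fun z : ℍ => (z : ℂ)) (𝓝[≠] s) (𝓝[≠] (s : ℂ)) := by
    rw [tendsto_nhdsWithin_iff]
    refine ⟨(loc_cont.tendsto s).mono_left nhdsWithin_le_nhds, ?_⟩
    filter_upwards [self_mem_nhdsWithin] with z hz
    exact fun h => hz (loc_inj h)
  exact h3.eventually (eventually_regular S s)

theorem finite_zeros (S : FlatSurface) {K : Set ℍ} (hK : IsCompact K) :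
    {z : ℍ | z ∈ K ∧ deriv S.D (z : ℂ) = 0}.Finite := by
  refine hK.induction_on
    (p := fun T => {z : ℍ | z ∈ T ∧ deriv S.D (z : ℂ) = 0}.Finite) ?_ ?_ ?_ ?_
  · simp
  · intro T T' hT h
    exact h.subset fun z hz => ⟨hT hz.1, hz.2⟩
  · intro T T' h h'
    refine (h.union h').subset ?_
    rintro z ⟨hz | hz, hz2⟩
    · exact Or.inl ⟨hz, hz2⟩
    · exact Or.inr ⟨hz, hz2⟩
  · intro s _
    have h0 : {z : ℂ | z ≠ s → deriv S.D z ≠ 0} ∈ 𝓝 (s : ℂ) :=
      mem_nhdsWithin_iff_eventually.1 (eventually_regular S s)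
    have h1 : {z : ℍ | (z : ℂ) ≠ s → deriv S.D (z : ℂ) ≠ 0} ∈ 𝓝 s :=
      loc_cont.continuousAt.preimage_mem_nhds h0
    refine ⟨_, mem_nhdsWithin_of_mem_nhds h1, ?_⟩
    refine (Set.finite_singleton s).subset ?_
    rintro z ⟨hz1, hz2⟩
    by_contra h2
    exact hz1 (fun h3 => h2 (loc_inj h3)) hz2

/-- homeomorphisms compatible with `D` preserve the regular points (from `regular_iff`) -/
theorem regular_homeo (S : FlatSurface) (h : ℍ ≃ₜ ℍ) {a : ℂ → ℂ} (ha : Function.Injective a)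
    (hD : ∀ z : ℍ, S.D (h z) = a (S.D z)) (z : ℍ) :
    deriv S.D (h z : ℂ) ≠ 0 ↔ deriv S.D (z : ℂ) ≠ 0 := by
  rw [regular_iff S (h z), regular_iff S z]
  constructor
  · rintro ⟨V, hV, hinj⟩
    refine ⟨h ⁻¹' V, h.continuous.continuousAt.preimage_mem_nhds hV, fun x hx y hy hxy => ?_⟩
    have h1 : S.D x = S.D y := hxy
    apply h.injective
    apply hinj hx hy
    show S.D (h x) = S.D (h y)
    rw [hD, hD, h1]
  · rintro ⟨V, hV, hinj⟩
    refine ⟨h '' V, h.isOpenMap.image_mem_nhds hV, ?_⟩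
    rintro _ ⟨u, hu, rfl⟩ _ ⟨v, hv, rfl⟩ hxy
    have h1 : S.D (h u) = S.D (h v) := hxy
    rw [hD, hD] at h1
    rw [hinj hu hv (ha h1)]

end Pool.Agent.ANO.Cone
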